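import Mathlib

/-!
# Local exponents of a solution of `x³ - y² = D`
-/

set_option autoImplicit false

namespace Pool.Agent.L0h45.AD

/-- no prime `p ≥ 5` with `p⁴ ∣ x`, `p⁶ ∣ y`, and no prime at all with `p⁸ ∣ x`, `p¹² ∣ y` -/
def Min (e : ℤ × ℤ) : Prop := ∀ p : ℕ, p.Prime →
  (5 ≤ p → ¬ ((p : ℤ) ^ 4 ∣ e.1 ∧ (p : ℤ) ^ 6 ∣ e.2)) ∧ ¬ ((p : ℤ) ^ 8 ∣ e.1 ∧ (p : ℤ) ^ 12 ∣ e.2)

/-- `k` is the exponent of `p` in `z`, cut off at `n` -/
structure Ex (p : ℕ) (n : ℕ) (z : ℤ) (k : ℕ) : Prop where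
  le : k ≤ n
  dvd : (p : ℤ) ^ k ∣ z
  nd : k < n → ¬ (p : ℤ) ^ (k + 1) ∣ z

theorem pow_nd {p : ℕ} (hp : p.Prime) {z : ℤ} {k m j : ℕ} (h : ¬ (p : ℤ) ^ (k + 1) ∣ z)
    (hj : m * k < j) : ¬ (p : ℤ) ^ j ∣ z ^ m := by
  intro h1
  have hz : z ≠ 0 := by
    rintro rfl
    exact h (dvd_zero _)
  have hzn : z.natAbs ≠ 0 := Int.natAbs_ne_zero.mpr hz
  have h2 : p ^ j ∣ z.natAbs ^ m := by
    have := Int.natAbs_dvd_natAbs.mpr h1
    rwa [Int.natAbs_pow, Int.natAbs_pow, Int.natAbs_natCast] at this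
  have h3 : ¬ p ^ (k + 1) ∣ z.natAbs := by
    intro h4
    apply h
    have := Int.natCast_dvd.mpr h4
    push_cast at this
    exact this
  rw [hp.pow_dvd_iff_le_factorization (pow_ne_zero _ hzn), Nat.factorization_pow] at h2
  rw [hp.pow_dvd_iff_le_factorization hzn] at h3
  simp only [Finsupp.smul_apply, smul_eq_mul] at h2
  have h4 : z.natAbs.factorization p ≤ k := by omega
  have h5 : m * z.natAbs.factorization p ≤ m * k := Nat.mul_le_mul_left m h4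
  omega

/-- the trichotomy of the exponents -/
theorem tri {p : ℕ} (hp : p.Prime) {x y : ℤ} {n α γ : ℕ} (h1 : (p : ℤ) ^ n ∣ x ^ 3 - y ^ 2)
    (h2 : ¬ (p : ℤ) ^ (n + 1) ∣ x ^ 3 - y ^ 2) (hx : Ex p n x α) (hy : Ex p n y γ) :
    (2 * γ = n ∧ n ≤ 3 * α) ∨ (3 * α = n ∧ n ≤ 2 * γ) ∨ (3 * α = 2 * γ ∧ 3 * α ≤ n) := by
  have hle : ∀ k : ℕ, (p : ℤ) ^ k ∣ x ^ 3 - y ^ 2 → k ≤ n := by
    intro k hk
    by_contra hcon
    exact h2 ((pow_dvd_pow _ (by omega)).trans hk)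
  have hx3 : (p : ℤ) ^ (3 * α) ∣ x ^ 3 := by
    rw [mul_comm, pow_mul]
    exact pow_dvd_pow_of_dvd hx.dvd 3
  have hy2 : (p : ℤ) ^ (2 * γ) ∣ y ^ 2 := by
    rw [mul_comm, pow_mul]
    exact pow_dvd_pow_of_dvd hy.dvd 2
  have hxn := hx.le
  have hyn := hy.le
  rcases lt_trichotomy (2 * γ) (3 * α) with h | h | h
  · left
    have h3 : 2 * γ ≤ n := hle _ (dvd_sub ((pow_dvd_pow _ h.le).trans hx3) hy2)
    by_contra hcon
    have h4 : ¬ 2 * γ = n := fun h5 => hcon ⟨h5, by omega⟩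
    have h5 : (p : ℤ) ^ (2 * γ + 1) ∣ y ^ 2 := by
      have h6 : (p : ℤ) ^ (2 * γ + 1) ∣ x ^ 3 - y ^ 2 := (pow_dvd_pow _ (by omega)).trans h1
      have h7 : (p : ℤ) ^ (2 * γ + 1) ∣ x ^ 3 := (pow_dvd_pow _ (by omega)).trans hx3
      have h8 := dvd_sub h7 h6
      have h9 : x ^ 3 - (x ^ 3 - y ^ 2) = y ^ 2 := by ring
      rwa [h9] at h8
    exact pow_nd hp (hy.nd (by omega)) (by omega : 2 * γ < 2 * γ + 1) h5
  · right; right
    refine ⟨h.symm, ?_⟩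
    apply hle
    refine dvd_sub hx3 ?_
    rw [← h]
    exact hy2
  · right; left
    have h3 : 3 * α ≤ n := hle _ (dvd_sub hx3 ((pow_dvd_pow _ h.le).trans hy2))
    by_contra hcon
    have h4 : ¬ 3 * α = n := fun h5 => hcon ⟨h5, by omega⟩
    have h5 : (p : ℤ) ^ (3 * α + 1) ∣ x ^ 3 := by
      have h6 : (p : ℤ) ^ (3 * α + 1) ∣ x ^ 3 - y ^ 2 := (pow_dvd_pow _ (by omega)).trans h1
      have h7 : (p : ℤ) ^ (3 * α + 1) ∣ y ^ 2 := (pow_dvd_pow _ (by omega)).trans hy2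
      have h8 := dvd_add h6 h7
      have h9 : x ^ 3 - y ^ 2 + y ^ 2 = x ^ 3 := by ring
      rwa [h9] at h8
    exact pow_nd hp (hx.nd (by omega)) (by omega : 3 * α < 3 * α + 1) h5

/-- at a prime `p ≥ 5` -/
theorem loc5 {p : ℕ} (hp : p.Prime) {x y : ℤ} {n α γ : ℕ} (h1 : (p : ℤ) ^ n ∣ x ^ 3 - y ^ 2)
    (h2 : ¬ (p : ℤ) ^ (n + 1) ∣ x ^ 3 - y ^ 2) (hx : Ex p n x α) (hy : Ex p n y γ)
    (hm : ¬ ((p : ℤ) ^ 4 ∣ x ∧ (p : ℤ) ^ 6 ∣ y)) :
    n ≤ α + max γ (n - γ) + 1 ∧ (n ≤ 4 → n ≤ α + max γ (n - γ)) ∧ (1 ≤ α → 2 ≤ n) := by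
  have h3 : ¬ (4 ≤ α ∧ 6 ≤ γ) := fun h =>
    hm ⟨(pow_dvd_pow _ h.1).trans hx.dvd, (pow_dvd_pow _ h.2).trans hy.dvd⟩
  have h4 := tri hp h1 h2 hx hy
  have h5 := hx.le
  have h6 := hy.le
  omega

/-- at every prime -/
theorem loc2 {p : ℕ} (hp : p.Prime) {x y : ℤ} {n α γ : ℕ} (h1 : (p : ℤ) ^ n ∣ x ^ 3 - y ^ 2)
    (h2 : ¬ (p : ℤ) ^ (n + 1) ∣ x ^ 3 - y ^ 2) (hx : Ex p n x α) (hy : Ex p n y γ)
    (hm : ¬ ((p : ℤ) ^ 8 ∣ x ∧ (p : ℤ) ^ 12 ∣ y)) :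
    n ≤ α + max γ (n - γ) + 4 := by
  have h3 : ¬ (8 ≤ α ∧ 12 ≤ γ) := fun h =>
    hm ⟨(pow_dvd_pow _ h.1).trans hx.dvd, (pow_dvd_pow _ h.2).trans hy.dvd⟩
  have h4 := tri hp h1 h2 hx hy
  have h5 := hx.le
  have h6 := hy.le
  omega

/-- two solutions with the same exponents are congruent up to the sign -/
theorem pair {p : ℕ} (hp : p.Prime) {y y' : ℤ} {n γ : ℕ} (h : (p : ℤ) ^ n ∣ y ^ 2 - y' ^ 2)
    (hy : Ex p n y γ) (hy' : (p : ℤ) ^ γ ∣ y') :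
    (p : ℤ) ^ (max γ (n - γ)) ∣ 2 * (y - y') ∨ (p : ℤ) ^ (max γ (n - γ)) ∣ 2 * (y + y') := by
  by_contra hcon
  rw [not_or] at hcon
  obtain ⟨c1, c2⟩ := hcon
  have hγ : (p : ℤ) ^ γ ∣ 2 * (y - y') := (dvd_sub hy.dvd hy').mul_left _
  have hlt : γ < n - γ := by
    by_contra hcon
    rw [max_eq_left (by omega)] at c1
    exact c1 hγ
  rw [max_eq_right hlt.le] at c1 c2
  have hnd := hy.nd (by omega)
  have hu0 : 2 * (y - y') ≠ 0 := fun h0 => c1 (by rw [h0]; exact dvd_zero _)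
  have hw0 : 2 * (y + y') ≠ 0 := fun h0 => c2 (by rw [h0]; exact dvd_zero _)
  have hun : (2 * (y - y')).natAbs ≠ 0 := Int.natAbs_ne_zero.mpr hu0
  have hwn : (2 * (y + y')).natAbs ≠ 0 := Int.natAbs_ne_zero.mpr hw0
  have key : ∀ (z : ℤ) (k : ℕ), z.natAbs ≠ 0 → ((p : ℤ) ^ k ∣ z ↔ k ≤ z.natAbs.factorization p) := by
    intro z k hz
    rw [← hp.pow_dvd_iff_le_factorization hz, ← Int.natCast_dvd]
    push_cast
    rfl
  rw [key _ _ hun] at c1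
  rw [key _ _ hwn] at c2
  have hprod : ((2 * (y - y')).natAbs * (2 * (y + y')).natAbs).factorization p =
      (2 * (y - y')).natAbs.factorization p + (2 * (y + y')).natAbs.factorization p := by
    rw [Nat.factorization_mul hun hwn, Finsupp.add_apply]
  have hprod2 : (2 * (y - y')).natAbs * (2 * (y + y')).natAbs = (4 * (y ^ 2 - y' ^ 2)).natAbs := by
    rw [← Int.natAbs_mul]
    congr 1
    ring
  have hpn : (4 * (y ^ 2 - y' ^ 2)).natAbs ≠ 0 := by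
    rw [← hprod2]
    exact mul_ne_zero hun hwn
  rw [hprod2] at hprod
  rcases eq_or_ne p 2 with h2 | h2
  · have h3 : n + 2 ≤ (4 * (y ^ 2 - y' ^ 2)).natAbs.factorization p := by
      rw [← key _ _ hpn]
      have h4 : (p : ℤ) ^ (n + 2) = 4 * (p : ℤ) ^ n := by
        rw [h2]; push_cast; ring
      rw [h4]
      exact mul_dvd_mul_left 4 h
    have h4 : γ + 3 ≤ (2 * (y - y')).natAbs.factorization p := by omega
    have h5 : γ + 3 ≤ (2 * (y + y')).natAbs.factorization p := by omega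
    rw [← key _ _ hun] at h4
    rw [← key _ _ hwn] at h5
    have h6 := dvd_add h4 h5
    have h7 : 2 * (y - y') + 2 * (y + y') = 4 * y := by ring
    have h8 : (p : ℤ) ^ (γ + 3) = 4 * (p : ℤ) ^ (γ + 1) := by
      rw [h2]; push_cast; ring
    rw [h7, h8] at h6
    exact hnd ((mul_dvd_mul_iff_left (by norm_num : (4 : ℤ) ≠ 0)).mp h6)
  · have h3 : n ≤ (4 * (y ^ 2 - y' ^ 2)).natAbs.factorization p := by
      rw [← key _ _ hpn]
      exact h.mul_left 4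
    have h4 : γ + 1 ≤ (2 * (y - y')).natAbs.factorization p := by omega
    have h5 : γ + 1 ≤ (2 * (y + y')).natAbs.factorization p := by omega
    rw [← key _ _ hun] at h4
    rw [← key _ _ hwn] at h5
    have h6 := dvd_add h4 h5
    have h7 : 2 * (y - y') + 2 * (y + y') = 4 * y := by ring
    rw [h7] at h6
    have hcop : IsCoprime ((p : ℤ) ^ (γ + 1)) 4 := by
      apply IsCoprime.pow_left
      have h8 : Nat.Coprime p 4 := by
        have h9 : Nat.Coprime p 2 := (Nat.coprime_primes hp Nat.prime_two).mpr h2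
        have : (4 : ℕ) = 2 ^ 2 := by norm_num
        rw [this]
        exact Nat.Coprime.pow_right 2 h9
      have := Nat.isCoprime_iff_coprime.mpr h8
      exact_mod_cast this
    exact hnd (hcop.dvd_of_dvd_mul_left h6)

end Pool.Agent.L0h45.AD
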