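import Mathlib
import Pool.Agent.L0h45.DH.Mod
import Pool.Agent.L0h45.AD.Loc

/-!
# The number of the points with given exponents
-/

set_option autoImplicit false

namespace Pool.Agent.L0h45.AD

open Finset
open Pool.Agent.L0h45.DH (ap_count close)

/-- integers congruent up to the sign at every prime power of `b` -/
theorem class_count (b : ℕ) (hb : 1 ≤ b) (L : ℝ) (hL : 0 ≤ L) (T : Finset ℤ)
    (h : ∀ y ∈ T, ∀ y' ∈ T, |(y : ℝ) - y'| ≤ L ∧ ∀ p : ℕ, p.Prime →
      ((p : ℤ) ^ b.factorization p ∣ 2 * (y - y') ∨ (p : ℤ) ^ b.factorization p ∣ 2 * (y + y'))) :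
    (T.card : ℝ) ≤ b.divisors.card * (2 * L / b + 1) := by
  classical
  rcases T.eq_empty_or_nonempty with rfl | ⟨y₀, hy₀⟩
  · simp only [card_empty, Nat.cast_zero]
    positivity
  have hb0 : b ≠ 0 := by omega
  set f : ℤ → ℕ := fun y => Nat.gcd (2 * (y - y₀)).natAbs b with hf
  have hmaps : ∀ y ∈ T, f y ∈ b.divisors := by
    intro y _
    rw [Nat.mem_divisors]
    exact ⟨Nat.gcd_dvd_right _ _, hb0⟩
  have hfib : ∀ u ∈ b.divisors, ((T.filter (fun y => f y = u)).card : ℝ) ≤ 2 * L / b + 1 := by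
    intro u _
    have hinj : Set.InjOn (fun y : ℤ => 2 * y) (T.filter (fun y => f y = u)) := by
      intro y _ y' _ hyy
      simp only at hyy
      linarith
    rw [← card_image_of_injOn hinj]
    refine ap_count b hb (2 * L) (by positivity) _ ?_
    intro a' ha' b' hb'
    rw [mem_image] at ha' hb'
    obtain ⟨y, hy, rfl⟩ := ha'
    obtain ⟨y', hy', rfl⟩ := hb'
    rw [mem_filter] at hy hy'
    constructor
    · have hdv : (b : ℤ) ∣ 2 * y' - 2 * y := by
        have h1 : b ∣ (2 * y' - 2 * y).natAbs := by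
          rw [Nat.dvd_iff_prime_pow_dvd_dvd]
          intro p k hp hk
          rw [hp.pow_dvd_iff_le_factorization hb0] at hk
          have hPb : p ^ b.factorization p ∣ b := Nat.ordProj_dvd b p
          have hz : (p : ℤ) ^ b.factorization p ∣ 2 * y' - 2 * y := by
            by_cases hc : (p : ℤ) ^ b.factorization p ∣ 2 * (y - y₀)
            · have h2 : p ^ b.factorization p ∣ f y := by
                apply Nat.dvd_gcd _ hPb
                have := Int.natAbs_dvd_natAbs.mpr hc
                rwa [Int.natAbs_pow, Int.natAbs_natCast] at this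
              rw [hy.2, ← hy'.2] at h2
              have h3 : p ^ b.factorization p ∣ (2 * (y' - y₀)).natAbs :=
                h2.trans (Nat.gcd_dvd_left _ _)
              have h4 := Int.natCast_dvd.mpr h3
              push_cast at h4
              have h5 := dvd_sub h4 hc
              have h6 : 2 * (y' - y₀) - 2 * (y - y₀) = 2 * y' - 2 * y := by ring
              rwa [h6] at h5
            · have hc' : ¬ (p : ℤ) ^ b.factorization p ∣ 2 * (y' - y₀) := by
                intro hc'
                apply hc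
                have h2 : p ^ b.factorization p ∣ f y' := by
                  apply Nat.dvd_gcd _ hPb
                  have := Int.natAbs_dvd_natAbs.mpr hc'
                  rwa [Int.natAbs_pow, Int.natAbs_natCast] at this
                rw [hy'.2, ← hy.2] at h2
                have h3 : p ^ b.factorization p ∣ (2 * (y - y₀)).natAbs :=
                  h2.trans (Nat.gcd_dvd_left _ _)
                have h4 := Int.natCast_dvd.mpr h3
                push_cast at h4
                exact h4
              have h3 := ((h y hy.1 y₀ hy₀).2 p hp).resolve_left hc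
              have h4 := ((h y' hy'.1 y₀ hy₀).2 p hp).resolve_left hc'
              have h5 := dvd_sub h4 h3
              have h6 : 2 * (y' + y₀) - 2 * (y + y₀) = 2 * y' - 2 * y := by ring
              rwa [h6] at h5
          have h7 : p ^ b.factorization p ∣ (2 * y' - 2 * y).natAbs := by
            have := Int.natAbs_dvd_natAbs.mpr hz
            rwa [Int.natAbs_pow, Int.natAbs_natCast] at this
          exact (pow_dvd_pow p hk).trans h7
        exact Int.natCast_dvd.mpr h1
      rw [ZMod.intCast_eq_intCast_iff_dvd_sub]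
      exact hdv
    · have h1 := (h y hy.1 y' hy'.1).1
      push_cast
      rw [← mul_sub, abs_mul, abs_of_pos (by norm_num : (0 : ℝ) < 2)]
      linarith
  have h1 := card_eq_sum_card_fiberwise hmaps
  calc (T.card : ℝ) = ∑ u ∈ b.divisors, ((T.filter (fun y => f y = u)).card : ℝ) := by
        exact_mod_cast h1
    _ ≤ ∑ u ∈ b.divisors, (2 * L / b + 1) := sum_le_sum hfib
    _ = b.divisors.card * (2 * L / b + 1) := by rw [sum_const, nsmul_eq_mul]

/-- nonzero multiples -/
theorem mult_card (a : ℕ) (ha : 1 ≤ a) (A : ℝ) (hA : 0 ≤ A) (T : Finset ℤ)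
    (h : ∀ x ∈ T, x ≠ 0 ∧ |(x : ℝ)| ≤ A ∧ (a : ℤ) ∣ x) : (T.card : ℝ) ≤ 2 * (A / a) := by
  classical
  have ha0 : (0 : ℝ) < a := by exact_mod_cast ha
  set N : ℕ := ⌊A / a⌋₊ with hN
  have hsub : T ⊆ ((Icc 1 N).image (fun k : ℕ => (a : ℤ) * k)) ∪
      ((Icc 1 N).image (fun k : ℕ => -((a : ℤ) * k))) := by
    intro x hx
    obtain ⟨h1, h2, k, hk⟩ := h x hx
    have hk0 : k ≠ 0 := by
      rintro rfl
      exact h1 (by rw [hk, mul_zero])
    have hkA : |(k : ℝ)| ≤ A / a := by
      rw [le_div_iff₀ ha0]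
      have h3 : |(x : ℝ)| = a * |(k : ℝ)| := by
        rw [hk]
        push_cast
        rw [abs_mul, abs_of_pos ha0]
      rw [h3] at h2
      linarith
    have hkN : k.natAbs ∈ Icc 1 N := by
      rw [mem_Icc]
      refine ⟨Int.natAbs_pos.mpr hk0, Nat.le_floor ?_⟩
      have h4 : ((k.natAbs : ℕ) : ℝ) = |(k : ℝ)| := by
        rw [← Int.cast_abs, Int.abs_eq_natAbs]
        simp
      rw [h4]
      exact hkA
    rw [mem_union, mem_image, mem_image]
    rcases Int.natAbs_eq k with h5 | h5
    · left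
      exact ⟨k.natAbs, hkN, by rw [← h5, hk]⟩
    · right
      refine ⟨k.natAbs, hkN, ?_⟩
      rw [hk]
      nth_rewrite 2 [h5]
      ring
  have h1 := (card_le_card hsub).trans (card_union_le _ _)
  have h2 : ((Icc 1 N).image (fun k : ℕ => (a : ℤ) * k)).card ≤ N := by
    refine card_image_le.trans ?_
    rw [Nat.card_Icc]
    omega
  have h3 : ((Icc 1 N).image (fun k : ℕ => -((a : ℤ) * k))).card ≤ N := by
    refine card_image_le.trans ?_
    rw [Nat.card_Icc]
    omega
  have h4 : T.card ≤ 2 * N := by omega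
  have h5 : (N : ℝ) ≤ A / a := Nat.floor_le (by positivity)
  calc (T.card : ℝ) ≤ 2 * N := by exact_mod_cast h4
    _ ≤ 2 * (A / a) := by linarith

/-- the points near the curve with `a ∣ x` and the same classes modulo `b` -/
theorem key_count (X Y : ℝ) (hX : 1 ≤ X) (hY : 0 ≤ Y) (a b : ℕ) (ha : 1 ≤ a) (hb : 1 ≤ b)
    (S : Finset (ℤ × ℤ))
    (h : ∀ e ∈ S, e.1 ≠ 0 ∧ |(e.1 : ℝ)| ≤ X ^ 2 ∧
      (X ^ 6 / 64 < |(e.1 : ℝ)| ^ 3 ∨ X ^ 6 / 64 < (e.2 : ℝ) ^ 2) ∧
      |(e.1 : ℝ) ^ 3 - (e.2 : ℝ) ^ 2| ≤ Y ∧ (a : ℤ) ∣ e.1)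
    (h2 : ∀ e ∈ S, ∀ e' ∈ S, e.1 = e'.1 → ∀ p : ℕ, p.Prime →
      ((p : ℤ) ^ b.factorization p ∣ 2 * (e.2 - e'.2) ∨
        (p : ℤ) ^ b.factorization p ∣ 2 * (e.2 + e'.2))) :
    (S.card : ℝ) ≤ b.divisors.card * (2048 * (Y / (X * a * b)) + 8 * (X ^ 2 / a)) := by
  classical
  have ha0 : (0 : ℝ) < a := by exact_mod_cast ha
  have hb0 : (0 : ℝ) < b := by exact_mod_cast hb
  have hX0 : 0 < X := by linarith
  have hX3 : 0 < X ^ 3 := by positivity
  set L : ℝ := 128 * Y / X ^ 3 with hL
  have hL0 : 0 ≤ L := by positivity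
  have key : ∀ x ∈ S.image (fun e => e.1), ((S.filter (fun e => e.1 = x)).card : ℝ) ≤
      4 * (b.divisors.card * (2 * L / b + 1)) := by
    intro x _
    let f : ℤ × ℤ → (Bool × Bool) := fun e =>
      (decide (0 ≤ e.2), decide (X ^ 6 / 64 < (e.2 : ℝ) ^ 2))
    have hmaps : ∀ e ∈ S.filter (fun e => e.1 = x), f e ∈ (univ : Finset (Bool × Bool)) :=
      fun e _ => mem_univ _
    have hfib : ∀ u ∈ (univ : Finset (Bool × Bool)),
        (((S.filter (fun e => e.1 = x)).filter (fun e => f e = u)).card : ℝ) ≤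
          b.divisors.card * (2 * L / b + 1) := by
      intro u _
      have hinj : Set.InjOn (fun e : ℤ × ℤ => e.2)
          ((S.filter (fun e => e.1 = x)).filter (fun e => f e = u)) := by
        intro e he e' he' hee
        simp only [coe_filter, mem_filter, Set.mem_ofPred_eq] at he he'
        exact Prod.ext (by rw [he.1.2, he'.1.2]) hee
      rw [← card_image_of_injOn hinj]
      refine class_count b hb L hL0 _ ?_
      intro y hy y' hy'
      rw [mem_image] at hy hy'
      obtain ⟨e, he, rfl⟩ := hy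
      obtain ⟨e', he', rfl⟩ := hy'
      rw [mem_filter, mem_filter] at he he'
      obtain ⟨⟨h1, h1x⟩, h3⟩ := he
      obtain ⟨⟨h1', h1x'⟩, h3'⟩ := he'
      refine ⟨?_, h2 e h1 e' h1' (by rw [h1x, h1x'])⟩
      have h4 : f e = f e' := h3.trans h3'.symm
      simp only [f, Prod.mk.injEq, decide_eq_decide] at h4
      obtain ⟨h6, h7⟩ := h4
      obtain ⟨-, -, b2, b3, -⟩ := h e h1
      obtain ⟨-, -, b2', b3', -⟩ := h e' h1'
      rw [h1x] at b2 b3
      rw [h1x'] at b2' b3'
      refine close (x := (x : ℝ)) hX0 ?_ ?_ b3 b3'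
      · rcases le_or_gt 0 e.2 with h | h
        · have h' := h6.mp h
          have h8 : (0 : ℝ) ≤ e.2 := by exact_mod_cast h
          have h9 : (0 : ℝ) ≤ e'.2 := by exact_mod_cast h'
          positivity
        · have h' : e'.2 < 0 := by
            by_contra hcon
            push Not at hcon
            exact absurd (h6.mpr hcon) (not_le.mpr h)
          have h8 : (e.2 : ℝ) < 0 := by exact_mod_cast h
          have h9 : (e'.2 : ℝ) < 0 := by exact_mod_cast h'
          exact (mul_pos_of_neg_of_neg h8 h9).le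
      · rcases b2 with b2 | b2
        · exact Or.inl b2
        · exact Or.inr ⟨b2, h7.mp b2⟩
    have h1 := card_eq_sum_card_fiberwise hmaps
    calc ((S.filter (fun e => e.1 = x)).card : ℝ)
        = ∑ u ∈ (univ : Finset (Bool × Bool)),
          (((S.filter (fun e => e.1 = x)).filter (fun e => f e = u)).card : ℝ) := by
          exact_mod_cast h1
      _ ≤ ∑ u ∈ (univ : Finset (Bool × Bool)), (b.divisors.card : ℝ) * (2 * L / b + 1) :=
          sum_le_sum hfib
      _ = 4 * (b.divisors.card * (2 * L / b + 1)) := by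
          rw [sum_const, nsmul_eq_mul]
          simp
  have hmaps : ∀ e ∈ S, e.1 ∈ S.image (fun e => e.1) := fun e he => mem_image_of_mem _ he
  have h1 := card_eq_sum_card_fiberwise hmaps
  have h3 : ((S.image (fun e => e.1)).card : ℝ) ≤ 2 * (X ^ 2 / a) := by
    refine mult_card a ha (X ^ 2) (by positivity) _ ?_
    intro x hx
    rw [mem_image] at hx
    obtain ⟨e, he, rfl⟩ := hx
    obtain ⟨b1, b2, -, -, b5⟩ := h e he
    exact ⟨b1, b2, b5⟩
  calc (S.card : ℝ) = ∑ x ∈ S.image (fun e => e.1), ((S.filter (fun e => e.1 = x)).card : ℝ) := by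
        exact_mod_cast h1
    _ ≤ ∑ x ∈ S.image (fun e => e.1), 4 * (b.divisors.card * (2 * L / b + 1)) := sum_le_sum key
    _ = ((S.image (fun e => e.1)).card : ℝ) * (4 * (b.divisors.card * (2 * L / b + 1))) := by
        rw [sum_const, nsmul_eq_mul]
    _ ≤ (2 * (X ^ 2 / a)) * (4 * (b.divisors.card * (2 * L / b + 1))) := by gcongr
    _ = b.divisors.card * (2048 * (Y / (X * a * b)) + 8 * (X ^ 2 / a)) := by
        rw [hL]
        field_simp
        ring

end Pool.Agent.L0h45.AD
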