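import Mathlib
import Pool.Agent.L0h45.DH.Main
import Pool.Agent.L0h45.AD.Loc

/-!
# The squarefull and the additive part of `x³ - y²`
-/

set_option autoImplicit false

namespace Pool.Agent.L0h45.AD

open Finset
open Pool.Agent.H785R2.ABC (rad)

/-- the product of the primes `≥ 5` dividing `m` -/
def rp (m : ℕ) : ℕ := ∏ p ∈ m.primeFactors.filter (fun p => 5 ≤ p), p

/-- the part prime to `6` of the conductor -/
def cond (e : ℤ × ℤ) : ℕ :=
  ∏ p ∈ (e.1 ^ 3 - e.2 ^ 2).natAbs.primeFactors.filter (fun p => 5 ≤ p),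
    if (p : ℤ) ∣ e.1 then p ^ 2 else p

/-- the decomposition of `|x³ - y²|` -/
structure Key (e : ℤ × ℤ) (s d₁ d₂ : ℕ) : Prop where
  s1 : 1 ≤ s
  d1 : 1 ≤ d₁
  d2 : 1 ≤ d₂
  prod : s * d₁ * d₂ = (e.1 ^ 3 - e.2 ^ 2).natAbs
  cop : Nat.Coprime (s * d₁) (6 * e.1.natAbs)
  pr : ∀ p : ℕ, p.Prime → p ∣ d₂ → p ∣ 6 * e.1.natAbs
  sq : rad d₁ ^ 2 ∣ d₁
  cond : cond e = s * rad d₁ * rp d₂ ^ 2

theorem exists_key (e : ℤ × ℤ) (h : e.1 ^ 3 - e.2 ^ 2 ≠ 0) : ∃ s d₁ d₂ : ℕ, Key e s d₁ d₂ := by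
  classical
  obtain ⟨D, hD⟩ : ∃ D, D = (e.1 ^ 3 - e.2 ^ 2).natAbs := ⟨_, rfl⟩
  have hD0 : D ≠ 0 := by rw [hD]; exact Int.natAbs_ne_zero.mpr h
  set K : ℕ := 6 * e.1.natAbs with hK
  set A : Finset ℕ := D.primeFactors.filter (fun p => p ∣ K) with hA
  set B : Finset ℕ := D.primeFactors.filter (fun p => ¬ p ∣ K) with hB
  set d₂ : ℕ := ∏ p ∈ A, p ^ D.factorization p with hd₂
  set m : ℕ := ∏ p ∈ B, p ^ D.factorization p with hm
  have hAp : ∀ p ∈ A, p.Prime := fun p hp => Nat.prime_of_mem_primeFactors (mem_filter.mp hp).1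
  have hBp : ∀ p ∈ B, p.Prime := fun p hp => Nat.prime_of_mem_primeFactors (mem_filter.mp hp).1
  have hAv : ∀ p ∈ A, D.factorization p ≠ 0 := by
    intro p hp
    have h1 := (mem_filter.mp hp).1
    rw [← Nat.support_factorization, Finsupp.mem_support_iff] at h1
    exact h1
  have hBv : ∀ p ∈ B, D.factorization p ≠ 0 := by
    intro p hp
    have h1 := (mem_filter.mp hp).1
    rw [← Nat.support_factorization, Finsupp.mem_support_iff] at h1
    exact h1
  have hd₂1 : 1 ≤ d₂ := Nat.one_le_iff_ne_zero.mpr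
    (prod_ne_zero_iff.mpr fun p hp => pow_ne_zero _ (hAp p hp).ne_zero)
  have hm1 : 1 ≤ m := Nat.one_le_iff_ne_zero.mpr
    (prod_ne_zero_iff.mpr fun p hp => pow_ne_zero _ (hBp p hp).ne_zero)
  have hprod : d₂ * m = D := by
    rw [hd₂, hm, hA, hB, prod_filter_mul_prod_filter_not]
    conv_rhs => rw [← Nat.prod_factorization_pow_eq_self hD0]
    rfl
  have pf : ∀ T : Finset ℕ, (∀ p ∈ T, p.Prime ∧ D.factorization p ≠ 0) →
      (∏ p ∈ T, p ^ D.factorization p).primeFactors = T := by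
    intro T hT
    ext q
    rw [Nat.mem_primeFactors]
    constructor
    · rintro ⟨hq, hdv, -⟩
      rw [hq.prime.dvd_finsetProd_iff] at hdv
      obtain ⟨p, hp, hpq⟩ := hdv
      have h1 := hq.dvd_of_dvd_pow hpq
      rw [(Nat.prime_dvd_prime_iff_eq hq (hT p hp).1).mp h1]
      exact hp
    · intro hq
      refine ⟨(hT q hq).1, ?_, prod_ne_zero_iff.mpr fun p hp => pow_ne_zero _ (hT p hp).1.ne_zero⟩
      exact (dvd_pow_self q (hT q hq).2).trans (dvd_prod_of_mem _ hq)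
  have hpfA : d₂.primeFactors = A := pf A fun p hp => ⟨hAp p hp, hAv p hp⟩
  have hpfB : m.primeFactors = B := pf B fun p hp => ⟨hBp p hp, hBv p hp⟩
  obtain ⟨s, d₁, hs, hd₁, hsd, hsr, hsq⟩ := Pool.Agent.L0h45.DH.dec m hm1
  have hcopm : Nat.Coprime m K := by
    rw [hm]
    apply Nat.Coprime.prod_left
    intro p hp
    exact Nat.Coprime.pow_left _ ((hBp p hp).coprime_iff_not_dvd.mpr (mem_filter.mp hp).2)
  refine ⟨s, d₁, d₂, hs, hd₁, hd₂1, ?_, ?_, ?_, hsq, ?_⟩
  · rw [hsd, mul_comm, hprod, hD]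
  · rw [hsd]
    exact hcopm
  · intro p hp hpd
    have h1 : p ∈ d₂.primeFactors := Nat.mem_primeFactors.mpr ⟨hp, hpd, by omega⟩
    rw [hpfA] at h1
    exact (mem_filter.mp h1).2
  · have h5 : ∀ p : ℕ, p.Prime → 5 ≤ p → (p ∣ K ↔ (p : ℤ) ∣ e.1) := by
      intro p hp hp5
      have h6 : Nat.Coprime p 6 := by
        rw [hp.coprime_iff_not_dvd]
        intro h7
        have h8 := Nat.le_of_dvd (by norm_num) h7
        have : p = 5 ∨ p = 6 := by omega
        rcases this with rfl | rfl <;> norm_num at *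
      rw [hK, Nat.Coprime.dvd_mul_left h6, Int.natCast_dvd]
    unfold cond
    rw [← hD, ← prod_filter_mul_prod_filter_not _ (fun p => p ∣ K)]
    have e1 : ∏ p ∈ (D.primeFactors.filter (fun p => 5 ≤ p)).filter (fun p => p ∣ K),
        (if (p : ℤ) ∣ e.1 then p ^ 2 else p) = rp d₂ ^ 2 := by
      unfold rp
      rw [hpfA, hA, filter_filter, filter_filter, ← prod_pow]
      have e2 : D.primeFactors.filter (fun p => 5 ≤ p ∧ p ∣ K) =
          D.primeFactors.filter (fun p => p ∣ K ∧ 5 ≤ p) :=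
        filter_congr fun p _ => and_comm
      rw [e2]
      apply prod_congr rfl
      intro p hp
      rw [mem_filter] at hp
      rw [if_pos ((h5 p (Nat.prime_of_mem_primeFactors hp.1) hp.2.2).mp hp.2.1)]
    have e3 : ∏ p ∈ (D.primeFactors.filter (fun p => 5 ≤ p)).filter (fun p => ¬ p ∣ K),
        (if (p : ℤ) ∣ e.1 then p ^ 2 else p) = s * rad d₁ := by
      rw [hsr]
      unfold Pool.Agent.H785R2.ABC.rad
      rw [hpfB, hB, filter_filter]
      have e2 : D.primeFactors.filter (fun p => 5 ≤ p ∧ ¬ p ∣ K) =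
          D.primeFactors.filter (fun p => ¬ p ∣ K) := by
        apply filter_congr
        intro p hp
        constructor
        · exact fun h => h.2
        · intro h
          refine ⟨?_, h⟩
          by_contra hcon
          push Not at hcon
          apply h
          have hpp := Nat.prime_of_mem_primeFactors hp
          have h2 := hpp.two_le
          have : p = 2 ∨ p = 3 ∨ p = 4 := by omega
          rcases this with rfl | rfl | rfl
          · exact Dvd.dvd.mul_right (by norm_num) _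
          · exact Dvd.dvd.mul_right (by norm_num) _
          · norm_num at hpp
      rw [e2]
      apply prod_congr rfl
      intro p hp
      rw [mem_filter] at hp
      have hpp := Nat.prime_of_mem_primeFactors hp.1
      rw [if_neg]
      intro hpe
      apply hp.2
      rw [hK]
      exact (Int.natCast_dvd.mp hpe).mul_left 6
    rw [e1, e3]
    ring

/-- the exponent of the greatest common divisor -/
theorem exg {p : ℕ} (hp : p.Prime) (z : ℤ) {m : ℕ} (hm : m ≠ 0) :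
    Ex p (m.factorization p) z ((Nat.gcd z.natAbs m).factorization p) := by
  have hg : Nat.gcd z.natAbs m ≠ 0 := Nat.gcd_ne_zero_right hm
  refine ⟨?_, ?_, ?_⟩
  · exact (Nat.factorization_le_iff_dvd hg hm).mpr (Nat.gcd_dvd_right _ _) p
  · have h1 : p ^ (Nat.gcd z.natAbs m).factorization p ∣ z.natAbs :=
      (Nat.ordProj_dvd _ _).trans (Nat.gcd_dvd_left _ _)
    have h2 := Int.natCast_dvd.mpr h1
    push_cast at h2
    exact h2
  · intro hlt hdv
    have h1 : p ^ ((Nat.gcd z.natAbs m).factorization p + 1) ∣ z.natAbs := by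
      have := Int.natAbs_dvd_natAbs.mpr hdv
      rwa [Int.natAbs_pow, Int.natAbs_natCast] at this
    have h2 : p ^ ((Nat.gcd z.natAbs m).factorization p + 1) ∣ m :=
      (hp.pow_dvd_iff_le_factorization hm).mpr hlt
    have h3 := Nat.dvd_gcd h1 h2
    rw [hp.pow_dvd_iff_le_factorization hg] at h3
    omega

theorem Key.x0 {e : ℤ × ℤ} {s d₁ d₂ : ℕ} (h : Key e s d₁ d₂) : e.1 ^ 3 - e.2 ^ 2 ≠ 0 := by
  intro h0
  have := h.prod
  rw [h0, Int.natAbs_zero] at this
  have h1 := h.s1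
  have h2 := h.d1
  have h3 := h.d2
  have : 0 < s * d₁ * d₂ := by positivity
  omega

theorem Key.cop2 {e : ℤ × ℤ} {s d₁ d₂ : ℕ} (h : Key e s d₁ d₂) : Nat.Coprime (s * d₁) d₂ := by
  apply Nat.Coprime.symm
  rw [Nat.coprime_iff_gcd_eq_one]
  by_contra hcon
  obtain ⟨p, hp, hpd⟩ := Nat.exists_prime_and_dvd hcon
  have h1 := h.pr p hp (hpd.trans (Nat.gcd_dvd_left _ _))
  have h2 : p ∣ s * d₁ := hpd.trans (Nat.gcd_dvd_right _ _)
  have h3 := Nat.dvd_gcd h2 h1
  rw [Nat.coprime_iff_gcd_eq_one.mp h.cop] at h3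
  exact hp.one_lt.ne' (Nat.dvd_one.mp h3)

/-- the exact power of a prime of the additive part -/
theorem Key.exact2 {e : ℤ × ℤ} {s d₁ d₂ : ℕ} (h : Key e s d₁ d₂) {p : ℕ} (hp : p.Prime)
    (hpd : p ∣ d₂) : (p : ℤ) ^ d₂.factorization p ∣ e.1 ^ 3 - e.2 ^ 2 ∧
      ¬ (p : ℤ) ^ (d₂.factorization p + 1) ∣ e.1 ^ 3 - e.2 ^ 2 := by
  have hd0 : d₂ ≠ 0 := by have := h.d2; omega
  have hD0 : (e.1 ^ 3 - e.2 ^ 2).natAbs ≠ 0 := Int.natAbs_ne_zero.mpr h.x0
  have hsd0 : s * d₁ ≠ 0 := by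
    have h1 := h.s1
    have h2 := h.d1
    have : 0 < s * d₁ := by positivity
    omega
  have hz : (s * d₁).factorization p = 0 := by
    apply Nat.factorization_eq_zero_of_not_dvd
    intro h2
    have h3 := Nat.dvd_gcd h2 hpd
    rw [Nat.coprime_iff_gcd_eq_one.mp h.cop2] at h3
    exact hp.one_lt.ne' (Nat.dvd_one.mp h3)
  have hv : (e.1 ^ 3 - e.2 ^ 2).natAbs.factorization p = d₂.factorization p := by
    rw [← h.prod, Nat.factorization_mul hsd0 hd0, Finsupp.add_apply, hz, zero_add]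
  have key : ∀ k : ℕ, ((p : ℤ) ^ k ∣ e.1 ^ 3 - e.2 ^ 2 ↔ k ≤ d₂.factorization p) := by
    intro k
    rw [← hv, ← hp.pow_dvd_iff_le_factorization hD0, ← Int.natCast_dvd]
    push_cast
    rfl
  exact ⟨(key _).mpr le_rfl, fun h2 => by have := (key _).mp h2; omega⟩

/-- `lcm (g, d₂ / g)` -/
def bb (g d₂ : ℕ) : ℕ := Nat.lcm g (d₂ / g)

theorem bb_fac {g d₂ p : ℕ} (hd : d₂ ≠ 0) (hg : g ∣ d₂) :
    (bb g d₂).factorization p = max (g.factorization p) (d₂.factorization p - g.factorization p) := by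
  have hg0 : g ≠ 0 := by
    rintro rfl
    exact hd (zero_dvd_iff.mp hg)
  have h1 : d₂ / g ≠ 0 := (Nat.div_pos (Nat.le_of_dvd (by omega) hg) (by omega)).ne'
  unfold bb
  rw [Nat.factorization_lcm hg0 h1, Finsupp.sup_apply, Nat.factorization_div hg]
  rfl

theorem bb_ne {g d₂ : ℕ} (hd : d₂ ≠ 0) (hg : g ∣ d₂) : bb g d₂ ≠ 0 := by
  have hg0 : g ≠ 0 := by
    rintro rfl
    exact hd (zero_dvd_iff.mp hg)
  have h1 : d₂ / g ≠ 0 := (Nat.div_pos (Nat.le_of_dvd (by omega) hg) (by omega)).ne'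
  exact Nat.lcm_ne_zero hg0 h1

theorem bb_dvd {g d₂ : ℕ} (hg : g ∣ d₂) : bb g d₂ ∣ d₂ :=
  Nat.lcm_dvd hg (Nat.div_dvd_of_dvd hg)

theorem prod_fac {T : Finset ℕ} (hT : ∀ p ∈ T, p.Prime) (q : ℕ) :
    (∏ p ∈ T, p).factorization q = if q ∈ T then 1 else 0 := by
  classical
  rw [Nat.factorization_prod fun p hp => (hT p hp).ne_zero]
  rw [Finsupp.finsetSum_apply]
  have h1 : ∀ p ∈ T, p.factorization q = if q = p then 1 else 0 := by
    intro p hp
    rw [(hT p hp).factorization, Finsupp.single_apply]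
    by_cases h : p = q
    · rw [if_pos h, if_pos h.symm]
    · rw [if_neg h, if_neg (Ne.symm h)]
  rw [sum_congr rfl h1, sum_ite_eq]

theorem rp_pos (m : ℕ) : 1 ≤ rp m := Nat.one_le_iff_ne_zero.mpr
  (prod_ne_zero_iff.mpr fun _ hp => (Nat.prime_of_mem_primeFactors (mem_filter.mp hp).1).ne_zero)

/-- the divisibilities between the exponents -/
theorem Key.div {e : ℤ × ℤ} {s d₁ d₂ : ℕ} (h : Key e s d₁ d₂) (hm : Min e) :
    ∃ u : ℕ, 1 ≤ u ∧ d₂ * u ∣ 6 ^ 4 * Nat.gcd e.1.natAbs d₂ * bb (Nat.gcd e.2.natAbs d₂) d₂ * rp d₂ ∧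
      rp d₂ ^ 4 ∣ d₂ * u ^ 2 := by
  classical
  have hd0 : d₂ ≠ 0 := by have := h.d2; omega
  set a : ℕ := Nat.gcd e.1.natAbs d₂ with ha
  set g : ℕ := Nat.gcd e.2.natAbs d₂ with hg
  have ha0 : a ≠ 0 := Nat.gcd_ne_zero_right hd0
  have hg0 : g ≠ 0 := Nat.gcd_ne_zero_right hd0
  have hgd : g ∣ d₂ := Nat.gcd_dvd_right _ _
  have hb0 : bb g d₂ ≠ 0 := bb_ne hd0 hgd
  set U : Finset ℕ := d₂.primeFactors.filter (fun p => 5 ≤ p ∧ d₂.factorization p ≤ 4) with hU
  set V : Finset ℕ := d₂.primeFactors.filter (fun p => 5 ≤ p) with hV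
  have hUp : ∀ p ∈ U, p.Prime := fun p hp => Nat.prime_of_mem_primeFactors (mem_filter.mp hp).1
  have hVp : ∀ p ∈ V, p.Prime := fun p hp => Nat.prime_of_mem_primeFactors (mem_filter.mp hp).1
  have hr0 : rp d₂ ≠ 0 := by have := rp_pos d₂; omega
  set u : ℕ := ∏ p ∈ U, p with hu
  have hu0 : u ≠ 0 := prod_ne_zero_iff.mpr fun p hp => (hUp p hp).ne_zero
  have hufac : ∀ q, u.factorization q = if q ∈ U then 1 else 0 := fun q => prod_fac hUp q
  have hrfac : ∀ q, (rp d₂).factorization q = if q ∈ V then 1 else 0 := fun q => prod_fac hVp q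
  have h6 : ∀ q : ℕ, q.Prime → q < 5 → 4 ≤ (6 ^ 4).factorization q := by
    intro q hq hq5
    rw [← hq.pow_dvd_iff_le_factorization (by norm_num)]
    have h2 := hq.two_le
    have : q = 2 ∨ q = 3 ∨ q = 4 := by omega
    rcases this with rfl | rfl | rfl
    · norm_num
    · norm_num
    · norm_num at hq
  have hUV : ∀ q : ℕ, q.Prime → q ∣ d₂ → (q ∈ U ↔ 5 ≤ q ∧ d₂.factorization q ≤ 4) := by
    intro q hq hqd
    rw [hU, mem_filter, Nat.mem_primeFactors]
    exact ⟨fun h => h.2, fun h => ⟨⟨hq, hqd, hd0⟩, h⟩⟩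
  have hVV : ∀ q : ℕ, q.Prime → q ∣ d₂ → (q ∈ V ↔ 5 ≤ q) := by
    intro q hq hqd
    rw [hV, mem_filter, Nat.mem_primeFactors]
    exact ⟨fun h => h.2, fun h => ⟨⟨hq, hqd, hd0⟩, h⟩⟩
  have hnU : ∀ q : ℕ, ¬ q ∣ d₂ → q ∉ U ∧ q ∉ V := by
    intro q hqd
    constructor
    · intro hq
      exact hqd (Nat.dvd_of_mem_primeFactors (mem_filter.mp hq).1)
    · intro hq
      exact hqd (Nat.dvd_of_mem_primeFactors (mem_filter.mp hq).1)
  have hloc : ∀ q : ℕ, q.Prime → q ∣ d₂ → 5 ≤ q → (q : ℤ) ∣ e.1 := by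
    intro q hq hqd hq5
    have h1 := h.pr q hq hqd
    have h2 : Nat.Coprime q 6 := by
      rw [hq.coprime_iff_not_dvd]
      intro h7
      have h8 := Nat.le_of_dvd (by norm_num) h7
      have : q = 5 ∨ q = 6 := by omega
      rcases this with rfl | rfl <;> norm_num at *
    rw [Nat.Coprime.dvd_mul_left h2] at h1
    exact Int.natCast_dvd.mpr h1
  refine ⟨u, Nat.one_le_iff_ne_zero.mpr hu0, ?_, ?_⟩
  · rw [← Nat.factorization_prime_le_iff_dvd (mul_ne_zero hd0 hu0)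
      (mul_ne_zero (mul_ne_zero (mul_ne_zero (by norm_num) ha0) hb0) hr0)]
    intro q hq
    rw [Nat.factorization_mul hd0 hu0, Nat.factorization_mul (mul_ne_zero (mul_ne_zero (by norm_num)
      ha0) hb0) hr0, Nat.factorization_mul (mul_ne_zero (by norm_num) ha0) hb0,
      Nat.factorization_mul (by norm_num) ha0]
    simp only [Finsupp.add_apply]
    rw [hufac, hrfac, bb_fac hd0 hgd]
    by_cases hqd : q ∣ d₂
    · obtain ⟨x1, x2⟩ := h.exact2 hq hqd
      have ea := exg hq e.1 hd0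
      have eg := exg hq e.2 hd0
      rw [← ha] at ea
      rw [← hg] at eg
      by_cases hq5 : 5 ≤ q
      · obtain ⟨k1, k2, -⟩ := loc5 hq x1 x2 ea eg ((hm q hq).1 hq5)
        rw [if_pos ((hVV q hq hqd).mpr hq5)]
        by_cases h4 : d₂.factorization q ≤ 4
        · rw [if_pos ((hUV q hq hqd).mpr ⟨hq5, h4⟩)]
          have := k2 h4
          omega
        · rw [if_neg fun hc => h4 ((hUV q hq hqd).mp hc).2]
          omega
      · have k1 := loc2 hq x1 x2 ea eg (hm q hq).2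
        rw [if_neg fun hc => hq5 ((hUV q hq hqd).mp hc).1, if_neg fun hc => hq5 ((hVV q hq hqd).mp hc)]
        have := h6 q hq (by omega)
        omega
    · obtain ⟨n1, n2⟩ := hnU q hqd
      rw [if_neg n1, if_neg n2, Nat.factorization_eq_zero_of_not_dvd hqd]
      omega
  · rw [← Nat.factorization_prime_le_iff_dvd (pow_ne_zero _ hr0) (mul_ne_zero hd0 (pow_ne_zero _ hu0))]
    intro q hq
    rw [Nat.factorization_mul hd0 (pow_ne_zero _ hu0), Nat.factorization_pow, Nat.factorization_pow]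
    simp only [Finsupp.add_apply, Finsupp.smul_apply, smul_eq_mul]
    rw [hufac, hrfac]
    by_cases hqd : q ∣ d₂
    · by_cases hq5 : 5 ≤ q
      · obtain ⟨x1, x2⟩ := h.exact2 hq hqd
        have ea := exg hq e.1 hd0
        have eg := exg hq e.2 hd0
        rw [← ha] at ea
        rw [← hg] at eg
        obtain ⟨k1, k2, k3⟩ := loc5 hq x1 x2 ea eg ((hm q hq).1 hq5)
        have ha1 : 1 ≤ a.factorization q := by
          have h1 : q ∣ a := Nat.dvd_gcd (Int.natCast_dvd.mp (hloc q hq hqd hq5)) hqd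
          have h2 := (hq.dvd_iff_one_le_factorization ha0).mp h1
          exact h2
        have k4 := k3 ha1
        rw [if_pos ((hVV q hq hqd).mpr hq5)]
        by_cases h4 : d₂.factorization q ≤ 4
        · rw [if_pos ((hUV q hq hqd).mpr ⟨hq5, h4⟩)]
          omega
        · rw [if_neg fun hc => h4 ((hUV q hq hqd).mp hc).2]
          omega
      · rw [if_neg fun hc => hq5 ((hVV q hq hqd).mp hc)]
        omega
    · obtain ⟨n1, n2⟩ := hnU q hqd
      rw [if_neg n1, if_neg n2]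
      omega

/-- the primes `≥ 5` of the additive part divide `x` -/
theorem Key.rp_dvd {e : ℤ × ℤ} {s d₁ d₂ : ℕ} (h : Key e s d₁ d₂) :
    rp d₂ ∣ Nat.gcd e.1.natAbs d₂ := by
  classical
  unfold rp
  apply Finset.prod_primes_dvd
  · intro p hp
    exact (Nat.prime_of_mem_primeFactors (mem_filter.mp hp).1).prime
  · intro p hp
    rw [mem_filter] at hp
    have hpp := Nat.prime_of_mem_primeFactors hp.1
    have hpd := Nat.dvd_of_mem_primeFactors hp.1
    apply Nat.dvd_gcd _ hpd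
    have h1 := h.pr p hpp hpd
    have h2 : Nat.Coprime p 6 := by
      rw [hpp.coprime_iff_not_dvd]
      intro h7
      have h8 := Nat.le_of_dvd (by norm_num) h7
      have h9 : p = 5 ∨ p = 6 := by omega
      rcases h9 with rfl | rfl <;> norm_num at *
    rwa [Nat.Coprime.dvd_mul_left h2] at h1

/-- two points with the same key are congruent up to the sign -/
theorem Key.pair {e e' : ℤ × ℤ} {s s' d₁ d₂ : ℕ} (h : Key e s d₁ d₂) (h' : Key e' s' d₁ d₂)
    (hx : e.1 = e'.1) (hg : Nat.gcd e.2.natAbs d₂ = Nat.gcd e'.2.natAbs d₂) (p : ℕ) (hp : p.Prime) :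
    (p : ℤ) ^ (d₁ * bb (Nat.gcd e.2.natAbs d₂) d₂).factorization p ∣ 2 * (e.2 - e'.2) ∨
    (p : ℤ) ^ (d₁ * bb (Nat.gcd e.2.natAbs d₂) d₂).factorization p ∣ 2 * (e.2 + e'.2) := by
  have hd0 : d₂ ≠ 0 := by have := h.d2; omega
  have hd1 : d₁ ≠ 0 := by have := h.d1; omega
  have hgd : Nat.gcd e.2.natAbs d₂ ∣ d₂ := Nat.gcd_dvd_right _ _
  rw [Nat.factorization_mul hd1 (bb_ne hd0 hgd), Finsupp.add_apply, bb_fac hd0 hgd]
  have hdv : ∀ d : ℕ, d ∣ s * d₁ * d₂ → d ∣ s' * d₁ * d₂ → (d : ℤ) ∣ e.2 ^ 2 - e'.2 ^ 2 := by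
    intro d h1 h2
    rw [h.prod] at h1
    rw [h'.prod] at h2
    have h3 := Int.natCast_dvd.mpr h1
    have h4 := Int.natCast_dvd.mpr h2
    have h5 := dvd_sub h4 h3
    rw [hx] at h5
    have h6 : e'.1 ^ 3 - e'.2 ^ 2 - (e'.1 ^ 3 - e.2 ^ 2) = e.2 ^ 2 - e'.2 ^ 2 := by ring
    rwa [h6] at h5
  by_cases hp1 : p ∣ d₁
  · have hp2 : ¬ p ∣ d₂ := by
      intro hp2
      have h3 := Nat.dvd_gcd (hp1.mul_left s) hp2
      rw [Nat.coprime_iff_gcd_eq_one.mp h.cop2] at h3
      exact hp.one_lt.ne' (Nat.dvd_one.mp h3)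
    rw [Nat.factorization_eq_zero_of_not_dvd hp2]
    rw [Nat.factorization_eq_zero_of_not_dvd (fun hc => hp2 (hc.trans hgd))]
    simp only [Nat.zero_sub, max_self, add_zero]
    have h1 : (p : ℤ) ^ d₁.factorization p ∣ e.2 ^ 2 - e'.2 ^ 2 := by
      have h2 : p ^ d₁.factorization p ∣ d₁ := Nat.ordProj_dvd _ _
      have h3 := hdv (p ^ d₁.factorization p) ((h2.mul_left s).mul_right d₂)
        ((h2.mul_left s').mul_right d₂)
      push_cast at h3
      exact h3
    have hnx : ¬ (p : ℤ) ∣ e.1 := by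
      intro hc
      have h3 : p ∣ 6 * e.1.natAbs := (Int.natCast_dvd.mp hc).mul_left 6
      have h4 := Nat.dvd_gcd (hp1.mul_left s) h3
      rw [Nat.coprime_iff_gcd_eq_one.mp h.cop] at h4
      exact hp.one_lt.ne' (Nat.dvd_one.mp h4)
    have hny : ¬ (p : ℤ) ∣ e.2 := by
      intro hc
      apply hnx
      have h3 : p ∣ s * d₁ * d₂ := (hp1.mul_left s).mul_right d₂
      rw [h.prod] at h3
      have h4 := Int.natCast_dvd.mpr h3
      have h5 : (p : ℤ) ∣ e.2 ^ 2 := dvd_pow hc two_ne_zero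
      have h6 := dvd_add h4 h5
      have h7 : e.1 ^ 3 - e.2 ^ 2 + e.2 ^ 2 = e.1 ^ 3 := by ring
      rw [h7] at h6
      exact (Nat.prime_iff_prime_int.mp hp).dvd_of_dvd_pow h6
    have hex : Ex p (d₁.factorization p) e.2 0 := by
      refine ⟨Nat.zero_le _, by simp, fun _ => ?_⟩
      simpa using hny
    have h2 := AD.pair hp h1 hex (by simp)
    simpa using h2
  · rw [Nat.factorization_eq_zero_of_not_dvd hp1, zero_add]
    have h1 : (p : ℤ) ^ d₂.factorization p ∣ e.2 ^ 2 - e'.2 ^ 2 := by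
      have h2 : p ^ d₂.factorization p ∣ d₂ := Nat.ordProj_dvd _ _
      have h3 := hdv (p ^ d₂.factorization p) (h2.mul_left _) (h2.mul_left _)
      push_cast at h3
      exact h3
    have eg := exg hp e.2 hd0
    have eg' := exg hp e'.2 hd0
    rw [← hg] at eg'
    exact AD.pair hp h1 eg eg'.dvd

end Pool.Agent.L0h45.AD
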