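import Mathlib
import Pool.Agent.L0h45.AD.Key

/-!
# The excess and the density of a key
-/

set_option autoImplicit false

namespace Pool.Agent.L0h45.AD

open Finset
open Pool.Agent.H785R2.ABC (rad)

/-- the quotient of the discriminant by the conductor -/
noncomputable def exc (d₁ d₂ : ℕ) : ℝ := (d₁ : ℝ) / rad d₁ * ((d₂ : ℝ) / (rp d₂ : ℝ) ^ 2)

theorem part1 {η d R : ℝ} (hη : 0 < η) (hd : 0 < d) (hR : 0 < R) (h : R ^ 2 ≤ d) :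
    (d / R) ^ (1 - 2 * η) * (R * d ^ η) ≤ d := by
  have h1 : R ^ (2 * η) ≤ d ^ η := by
    rw [Real.rpow_mul hR.le, Real.rpow_two]
    exact Real.rpow_le_rpow (by positivity) h hη.le
  have h2 : (d / R) ^ (1 - 2 * η) = d ^ (1 - 2 * η) * (R ^ (2 * η) / R) := by
    rw [Real.div_rpow hd.le hR.le, Real.rpow_sub hR, Real.rpow_one]
    field_simp
  rw [h2]
  have h3 : d = d ^ (1 - 2 * η) * (d ^ η * d ^ η) := by
    rw [← Real.rpow_add hd, ← Real.rpow_add hd]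
    ring_nf
    rw [Real.rpow_one]
  calc d ^ (1 - 2 * η) * (R ^ (2 * η) / R) * (R * d ^ η)
      = d ^ (1 - 2 * η) * (R ^ (2 * η) * d ^ η) := by field_simp
    _ ≤ d ^ (1 - 2 * η) * (d ^ η * d ^ η) := by gcongr
    _ = d := h3.symm

theorem part2 {η d r u ab rd : ℝ} (hη : 0 < η) (hη2 : η ≤ 1 / 2) (hd : 0 < d) (hr : 0 < r)
    (hu : 1 ≤ u) (h1 : d * u ≤ 6 ^ 4 * ab * r) (h2 : r ^ 4 ≤ d * u ^ 2)
    (h3 : rd ≤ 6 * r) : (d / r ^ 2) ^ (1 - 2 * η) * (rd * d ^ η) ≤ 6 ^ 5 * ab := by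
  have hr2 : 0 < r ^ 2 := by positivity
  have hu0 : 0 < u := by linarith
  have e1 : (d / r ^ 2) ^ (1 - 2 * η) * d ^ η = d / r ^ 2 * (r ^ 4 / d) ^ η := by
    have hq : 0 < d / r ^ 2 := by positivity
    rw [Real.rpow_sub hq, Real.rpow_one, Real.rpow_mul hq.le, Real.rpow_two]
    have e2 : r ^ 4 / d = d / (d / r ^ 2) ^ 2 := by
      field_simp
    rw [e2, Real.div_rpow hd.le (by positivity)]
    ring
  have h4 : (r ^ 4 / d) ^ η ≤ u := by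
    calc (r ^ 4 / d) ^ η ≤ (u ^ 2) ^ η := by
          apply Real.rpow_le_rpow (by positivity) _ hη.le
          rw [div_le_iff₀ hd]
          linarith
      _ = u ^ (2 * η) := by rw [← Real.rpow_two, ← Real.rpow_mul hu0.le]
      _ ≤ u ^ (1 : ℝ) := Real.rpow_le_rpow_of_exponent_le hu (by linarith)
      _ = u := Real.rpow_one u
  calc (d / r ^ 2) ^ (1 - 2 * η) * (rd * d ^ η) = rd * ((d / r ^ 2) ^ (1 - 2 * η) * d ^ η) := by ring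
    _ = rd * (d / r ^ 2 * (r ^ 4 / d) ^ η) := by rw [e1]
    _ ≤ (6 * r) * (d / r ^ 2 * u) := by gcongr
    _ = 6 * (d * u) / r := by field_simp
    _ ≤ 6 * (6 ^ 4 * ab * r) / r := by gcongr
    _ = 6 ^ 5 * ab := by field_simp

theorem rad_le (m : ℕ) : rad m ≤ 6 * rp m := by
  classical
  unfold Pool.Agent.H785R2.ABC.rad rp
  rw [← prod_filter_mul_prod_filter_not m.primeFactors (fun p => 5 ≤ p)]
  have h1 : ∏ p ∈ m.primeFactors.filter (fun p => ¬ 5 ≤ p), p ≤ 6 := by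
    have h2 : m.primeFactors.filter (fun p => ¬ 5 ≤ p) ⊆ {2, 3} := by
      intro p hp
      rw [mem_filter] at hp
      have hpp := Nat.prime_of_mem_primeFactors hp.1
      have h3 := hpp.two_le
      have h4 : p = 2 ∨ p = 3 ∨ p = 4 := by omega
      rcases h4 with rfl | rfl | rfl
      · simp
      · simp
      · norm_num at hpp
    have h5 : ∏ p ∈ m.primeFactors.filter (fun p => ¬ 5 ≤ p), p ∣ ∏ p ∈ ({2, 3} : Finset ℕ), p :=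
      prod_dvd_prod_of_subset _ _ _ h2
    have h6 : ∏ p ∈ ({2, 3} : Finset ℕ), p = 6 := by decide
    rw [h6] at h5
    exact Nat.le_of_dvd (by norm_num) h5
  calc _ ≤ (∏ p ∈ m.primeFactors.filter (fun p => 5 ≤ p), p) * 6 := Nat.mul_le_mul_left _ h1
    _ = _ := by ring

theorem rad_pos (m : ℕ) : 0 < rad m := Pool.Agent.H785R2.ABC.A345_rad_pos m

/-- the excess is small compared with the density -/
theorem Key.ineq {e : ℤ × ℤ} {s d₁ d₂ : ℕ} (h : Key e s d₁ d₂) (hm : Min e) {η : ℝ} (hη : 0 < η)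
    (hη2 : η ≤ 1 / 2) :
    exc d₁ d₂ ^ (1 - 2 * η) * ((rad d₁ : ℝ) * rad d₂ * ((d₁ : ℝ) ^ η * (d₂ : ℝ) ^ η)) ≤
      6 ^ 5 * ((Nat.gcd e.1.natAbs d₂ : ℝ) * ((d₁ : ℝ) * (bb (Nat.gcd e.2.natAbs d₂) d₂ : ℝ))) := by
  obtain ⟨u, hu, h1, h2⟩ := h.div hm
  have hd1 : (0 : ℝ) < d₁ := by exact_mod_cast h.d1
  have hd2 : (0 : ℝ) < d₂ := by exact_mod_cast h.d2
  have hd0 : d₂ ≠ 0 := by have := h.d2; omega
  have hR : (0 : ℝ) < rad d₁ := by exact_mod_cast rad_pos d₁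
  have hr : (0 : ℝ) < rp d₂ := by exact_mod_cast rp_pos d₂
  have hR2 : (rad d₁ : ℝ) ^ 2 ≤ d₁ := by
    exact_mod_cast Nat.le_of_dvd h.d1 h.sq
  obtain ⟨a, ha⟩ : ∃ a, a = Nat.gcd e.1.natAbs d₂ := ⟨_, rfl⟩
  obtain ⟨b, hb⟩ : ∃ b, b = bb (Nat.gcd e.2.natAbs d₂) d₂ := ⟨_, rfl⟩
  have ha0 : 0 < a := by rw [ha]; exact Nat.pos_of_ne_zero (Nat.gcd_ne_zero_right hd0)
  have hb0 : 0 < b := by rw [hb]; exact Nat.pos_of_ne_zero (bb_ne hd0 (Nat.gcd_dvd_right _ _))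
  rw [← ha, ← hb] at h1 ⊢
  have h1' : (d₂ : ℝ) * u ≤ 6 ^ 4 * ((a : ℝ) * b) * rp d₂ := by
    have h3 := Nat.le_of_dvd (by have := rp_pos d₂; positivity) h1
    have h4 : ((d₂ * u : ℕ) : ℝ) ≤ ((6 ^ 4 * a * b * rp d₂ : ℕ) : ℝ) := by exact_mod_cast h3
    push_cast at h4
    linarith
  have h2' : (rp d₂ : ℝ) ^ 4 ≤ d₂ * (u : ℝ) ^ 2 := by
    have h3 := Nat.le_of_dvd (by have := h.d2; positivity) h2
    exact_mod_cast h3
  have h3' : (rad d₂ : ℝ) ≤ 6 * rp d₂ := by exact_mod_cast rad_le d₂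
  have p1 := part1 hη hd1 hR hR2
  have p2 := part2 (rd := (rad d₂ : ℝ)) hη hη2 hd2 hr (by exact_mod_cast hu) h1' h2' h3'
  have e1 : exc d₁ d₂ ^ (1 - 2 * η) = ((d₁ : ℝ) / rad d₁) ^ (1 - 2 * η) *
      ((d₂ : ℝ) / (rp d₂ : ℝ) ^ 2) ^ (1 - 2 * η) := by
    unfold exc
    rw [Real.mul_rpow (by positivity) (by positivity)]
  rw [e1]
  have hR' : (0 : ℝ) < rad d₂ := by exact_mod_cast rad_pos d₂
  calc _ = (((d₁ : ℝ) / rad d₁) ^ (1 - 2 * η) * ((rad d₁ : ℝ) * (d₁ : ℝ) ^ η)) *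
        (((d₂ : ℝ) / (rp d₂ : ℝ) ^ 2) ^ (1 - 2 * η) * ((rad d₂ : ℝ) * (d₂ : ℝ) ^ η)) := by ring
    _ ≤ (d₁ : ℝ) * (6 ^ 5 * ((a : ℝ) * b)) := by gcongr
    _ = 6 ^ 5 * ((a : ℝ) * ((d₁ : ℝ) * b)) := by ring

theorem Key.absD {e : ℤ × ℤ} {s d₁ d₂ : ℕ} (h : Key e s d₁ d₂) :
    |(e.1 : ℝ) ^ 3 - (e.2 : ℝ) ^ 2| = (AD.cond e : ℝ) * exc d₁ d₂ := by
  have hR : (0 : ℝ) < rad d₁ := by exact_mod_cast rad_pos d₁
  have hr : (0 : ℝ) < rp d₂ := by exact_mod_cast rp_pos d₂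
  have h1 : |(e.1 : ℝ) ^ 3 - (e.2 : ℝ) ^ 2| = (((e.1 ^ 3 - e.2 ^ 2).natAbs : ℕ) : ℝ) := by
    have h2 : (((e.1 ^ 3 - e.2 ^ 2).natAbs : ℕ) : ℝ) = |(((e.1 ^ 3 - e.2 ^ 2 : ℤ)) : ℝ)| := by
      rw [← Int.cast_abs, Int.abs_eq_natAbs]
      simp
    rw [h2]
    push_cast
    rfl
  rw [h1, ← h.prod, h.cond]
  unfold exc
  push_cast
  field_simp

end Pool.Agent.L0h45.AD
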