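import Mathlib
import Pool.Agent.H510R2.Div
import Pool.Agent.L0h45.DH.Rk
import Pool.Agent.L0h45.AD.Cls
import Pool.Agent.L0h45.AD.Ineq

/-!
# Summation over the keys
-/

set_option autoImplicit false

namespace Pool.Agent.L0h45.AD

open Finset
open Pool.Agent.H785R2.ABC (rad)

theorem min_le_geom {u v t : ℝ} (hu : 0 < u) (hv : 0 < v) (ht : 0 ≤ t) (ht1 : t ≤ 1) :
    min u v ≤ u ^ (1 - t) * v ^ t := by
  have hm : 0 < min u v := lt_min hu hv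
  calc min u v = min u v ^ (1 - t) * min u v ^ t := by
        rw [← Real.rpow_add hm]
        simp
    _ ≤ u ^ (1 - t) * v ^ t :=
        mul_le_mul (Real.rpow_le_rpow hm.le (min_le_left _ _) (by linarith))
          (Real.rpow_le_rpow hm.le (min_le_right _ _) ht) (by positivity) (by positivity)

/-- sums of divisor functions against radicals -/
theorem sum_tau (η : ℝ) (hη : 0 < η) : ∃ C : ℝ, 0 < C ∧ ∀ F : Finset ℕ, (∀ d ∈ F, 1 ≤ d) →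
    ∑ d ∈ F, (d.divisors.card : ℝ) ^ 3 / ((rad d : ℝ) * (d : ℝ) ^ η) ≤ C := by
  obtain ⟨C₁, hC₁, h1⟩ := Pool.Agent.H510R2.divisor_bound (η / 6) (by positivity)
  obtain ⟨C₂, hC₂, h2⟩ := Pool.Agent.L0h45.DH.sum_rad (η / 2) (by positivity)
  refine ⟨C₁ ^ 3 * C₂, by positivity, ?_⟩
  intro F hF
  calc ∑ d ∈ F, (d.divisors.card : ℝ) ^ 3 / ((rad d : ℝ) * (d : ℝ) ^ η)
      ≤ ∑ d ∈ F, C₁ ^ 3 * ((d : ℝ) ^ (-(η / 2)) / rad d) := by
        apply sum_le_sum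
        intro d hd
        have hd0 : (0 : ℝ) < d := by exact_mod_cast hF d hd
        have hr : (0 : ℝ) < rad d := by exact_mod_cast rad_pos d
        have h3 : (d.divisors.card : ℝ) ^ 3 ≤ C₁ ^ 3 * (d : ℝ) ^ (η / 2) := by
          calc (d.divisors.card : ℝ) ^ 3 ≤ (C₁ * (d : ℝ) ^ (η / 6)) ^ 3 := by
                have := h1 d (hF d hd)
                gcongr
            _ = C₁ ^ 3 * (d : ℝ) ^ (η / 2) := by
                rw [mul_pow, ← Real.rpow_natCast ((d : ℝ) ^ (η / 6)), ← Real.rpow_mul hd0.le]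
                congr 2
                push_cast
                ring
        have h4 : (d : ℝ) ^ (-(η / 2)) = (d : ℝ) ^ (η / 2) / (d : ℝ) ^ η := by
          rw [← Real.rpow_sub hd0]
          congr 1
          ring
        rw [h4, div_le_iff₀ (by positivity)]
        calc (d.divisors.card : ℝ) ^ 3 ≤ C₁ ^ 3 * (d : ℝ) ^ (η / 2) := h3
          _ = C₁ ^ 3 * ((d : ℝ) ^ (η / 2) / (d : ℝ) ^ η / rad d) * ((rad d : ℝ) * (d : ℝ) ^ η) := by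
            field_simp
    _ = C₁ ^ 3 * ∑ d ∈ F, (d : ℝ) ^ (-(η / 2)) / rad d := by rw [mul_sum]
    _ ≤ C₁ ^ 3 * C₂ := by
        have := h2 F hF
        gcongr

/-- the weight of a pair -/
noncomputable def wt (η : ℝ) (d₁ d₂ : ℕ) : ℝ :=
  1 / ((rad d₁ : ℝ) * (d₁ : ℝ) ^ η) * (1 / ((rad d₂ : ℝ) * (d₂ : ℝ) ^ η))

/-- the points with the same key -/
theorem one_key {η X Z : ℝ} (hη : 0 < η) (hη2 : η ≤ 1 / 2) (hX : 1 ≤ X) (hZ : 0 < Z)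
    (d₁ d₂ a g : ℕ) (S : Finset (ℤ × ℤ)) (s : ℤ × ℤ → ℕ)
    (h : ∀ e ∈ S, Min e ∧ e.1 ≠ 0 ∧ |(e.1 : ℝ)| ≤ X ^ 2 ∧ |(e.2 : ℝ)| ≤ X ^ 3 ∧
      (X ^ 6 / 64 < |(e.1 : ℝ)| ^ 3 ∨ X ^ 6 / 64 < (e.2 : ℝ) ^ 2) ∧ (cond e : ℝ) ≤ Z ∧
      Key e (s e) d₁ d₂ ∧ Nat.gcd e.1.natAbs d₂ = a ∧ Nat.gcd e.2.natAbs d₂ = g) :
    (S.card : ℝ) ≤ (d₁.divisors.card : ℝ) * d₂.divisors.card *
      (4096 * 6 ^ 5 * (Z ^ (1 - 2 * η) * X ^ (12 * η - 1)) * wt η d₁ d₂ +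
        48 * (X ^ 2 * (1 / rad d₂))) := by
  classical
  have hX0 : 0 < X := by linarith
  have hR1 : (0 : ℝ) < rad d₁ := by exact_mod_cast rad_pos d₁
  have hR2 : (0 : ℝ) < rad d₂ := by exact_mod_cast rad_pos d₂
  rcases S.eq_empty_or_nonempty with rfl | ⟨e₀, he₀⟩
  · simp only [card_empty, Nat.cast_zero]
    unfold wt
    positivity
  obtain ⟨hmin, -, -, -, -, -, hk, hka, hkg⟩ := h e₀ he₀
  have hd1 : (0 : ℝ) < d₁ := by exact_mod_cast hk.d1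
  have hd2 : (0 : ℝ) < d₂ := by exact_mod_cast hk.d2
  have hd0 : d₂ ≠ 0 := by have := hk.d2; omega
  have hgd : g ∣ d₂ := by rw [← hkg]; exact Nat.gcd_dvd_right _ _
  have ha1 : 1 ≤ a := by
    rw [← hka]
    exact Nat.pos_of_ne_zero (Nat.gcd_ne_zero_right hd0)
  have ha0 : (0 : ℝ) < a := by exact_mod_cast ha1
  have hbb : 1 ≤ bb g d₂ := Nat.pos_of_ne_zero (bb_ne hd0 hgd)
  have hbb0 : (0 : ℝ) < bb g d₂ := by exact_mod_cast hbb
  have hb1 : 1 ≤ d₁ * bb g d₂ := Nat.mul_pos hk.d1 hbb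
  have hexc : 0 < exc d₁ d₂ := by
    unfold exc
    have hr : (0 : ℝ) < rp d₂ := by exact_mod_cast rp_pos d₂
    positivity
  set Y : ℝ := min (Z * exc d₁ d₂) (2 * X ^ 6) with hY
  have hY0 : 0 ≤ Y := le_min (by positivity) (by positivity)
  have h1 := key_count X Y hX hY0 a (d₁ * bb g d₂) ha1 hb1 S ?_ ?_
  · refine h1.trans ?_
    have htau : ((d₁ * bb g d₂).divisors.card : ℝ) ≤ (d₁.divisors.card : ℝ) * d₂.divisors.card := by
      have hcop : Nat.Coprime d₁ (bb g d₂) := by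
        have h2 := hk.cop2
        exact (h2.coprime_dvd_left (dvd_mul_left d₁ (s e₀))).coprime_dvd_right (bb_dvd hgd)
      rw [Nat.Coprime.card_divisors_mul hcop]
      push_cast
      have h3 : ((bb g d₂).divisors.card : ℝ) ≤ d₂.divisors.card := by
        exact_mod_cast card_le_card (Nat.divisors_subset_of_dvd hd0 (bb_dvd hgd))
      gcongr
    have hYle : Y ≤ 2 * (Z ^ (1 - 2 * η) * exc d₁ d₂ ^ (1 - 2 * η) * X ^ (12 * η)) := by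
      have h3 : Y ≤ (Z * exc d₁ d₂) ^ (1 - 2 * η) * (2 * X ^ 6) ^ (2 * η) :=
        min_le_geom (by positivity) (by positivity) (by linarith) (by linarith)
      refine h3.trans ?_
      rw [Real.mul_rpow hZ.le hexc.le, Real.mul_rpow (by norm_num) (by positivity)]
      have h4 : (X ^ 6) ^ (2 * η) = X ^ (12 * η) := by
        rw [← Real.rpow_natCast, ← Real.rpow_mul hX0.le]
        congr 1
        push_cast
        ring
      have h5 : (2 : ℝ) ^ (2 * η) ≤ 2 := by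
        calc (2 : ℝ) ^ (2 * η) ≤ 2 ^ (1 : ℝ) :=
              Real.rpow_le_rpow_of_exponent_le (by norm_num) (by linarith)
          _ = 2 := Real.rpow_one 2
      rw [h4]
      calc Z ^ (1 - 2 * η) * exc d₁ d₂ ^ (1 - 2 * η) * (2 ^ (2 * η) * X ^ (12 * η))
          ≤ Z ^ (1 - 2 * η) * exc d₁ d₂ ^ (1 - 2 * η) * (2 * X ^ (12 * η)) := by gcongr
        _ = _ := by ring
    have hineq := hk.ineq hmin hη hη2
    rw [hka, hkg] at hineq
    have hp1 : 0 < (d₁ : ℝ) ^ η := by positivity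
    have hp2 : 0 < (d₂ : ℝ) ^ η := by positivity
    have hq : exc d₁ d₂ ^ (1 - 2 * η) / ((a : ℝ) * ((d₁ : ℝ) * bb g d₂)) ≤ 6 ^ 5 * wt η d₁ d₂ := by
      rw [div_le_iff₀ (by positivity)]
      unfold wt
      rw [← sub_nonneg] at hineq ⊢
      have e1 : 6 ^ 5 * (1 / ((rad d₁ : ℝ) * (d₁ : ℝ) ^ η) * (1 / ((rad d₂ : ℝ) * (d₂ : ℝ) ^ η))) *
          ((a : ℝ) * ((d₁ : ℝ) * bb g d₂)) - exc d₁ d₂ ^ (1 - 2 * η) =
          (6 ^ 5 * ((a : ℝ) * ((d₁ : ℝ) * bb g d₂)) - exc d₁ d₂ ^ (1 - 2 * η) *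
            ((rad d₁ : ℝ) * rad d₂ * ((d₁ : ℝ) ^ η * (d₂ : ℝ) ^ η))) /
          ((rad d₁ : ℝ) * (d₁ : ℝ) ^ η * ((rad d₂ : ℝ) * (d₂ : ℝ) ^ η)) := by
        field_simp
      rw [e1]
      positivity
    have hfirst : 2048 * (Y / (X * a * ((d₁ * bb g d₂ : ℕ) : ℝ))) ≤
        4096 * 6 ^ 5 * (Z ^ (1 - 2 * η) * X ^ (12 * η - 1)) * wt η d₁ d₂ := by
      have e2 : X ^ (12 * η - 1) = X ^ (12 * η) / X := by
        rw [Real.rpow_sub hX0, Real.rpow_one]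
      push_cast
      calc 2048 * (Y / (X * a * ((d₁ : ℝ) * bb g d₂)))
          ≤ 2048 * ((2 * (Z ^ (1 - 2 * η) * exc d₁ d₂ ^ (1 - 2 * η) * X ^ (12 * η))) /
            (X * a * ((d₁ : ℝ) * bb g d₂))) := by gcongr
        _ = 4096 * (Z ^ (1 - 2 * η) * (X ^ (12 * η) / X)) *
            (exc d₁ d₂ ^ (1 - 2 * η) / ((a : ℝ) * ((d₁ : ℝ) * bb g d₂))) := by
            field_simp
            ring
        _ ≤ 4096 * (Z ^ (1 - 2 * η) * (X ^ (12 * η) / X)) * (6 ^ 5 * wt η d₁ d₂) := by gcongr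
        _ = _ := by rw [e2]; ring
    have hsecond : 8 * (X ^ 2 / a) ≤ 48 * (X ^ 2 * (1 / rad d₂)) := by
      have h3 : (rad d₂ : ℝ) ≤ 6 * a := by
        have h4 := rad_le d₂
        have h5 : rp d₂ ≤ a := Nat.le_of_dvd ha1 (by rw [← hka]; exact hk.rp_dvd)
        have h6 : rad d₂ ≤ 6 * a := by omega
        exact_mod_cast h6
      have h4 : (1 : ℝ) / a ≤ 6 * (1 / rad d₂) := by
        rw [mul_one_div, div_le_div_iff₀ ha0 hR2]
        linarith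
      calc 8 * (X ^ 2 / a) = 8 * X ^ 2 * (1 / a) := by ring
        _ ≤ 8 * X ^ 2 * (6 * (1 / rad d₂)) := by gcongr
        _ = _ := by ring
    have hw : 0 ≤ wt η d₁ d₂ := by unfold wt; positivity
    have hsum := add_le_add hfirst hsecond
    have hnn : 0 ≤ 2048 * (Y / (X * a * ((d₁ * bb g d₂ : ℕ) : ℝ))) + 8 * (X ^ 2 / a) := by
      positivity
    exact mul_le_mul htau hsum hnn (by positivity)
  · intro e he
    obtain ⟨-, h2, h3, h4, h5, h6, h7, h8, -⟩ := h e he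
    refine ⟨h2, h3, h5, ?_, ?_⟩
    · rw [hY]
      refine le_min ?_ ?_
      · rw [h7.absD]
        gcongr
      · have h9 := abs_sub ((e.1 : ℝ) ^ 3) ((e.2 : ℝ) ^ 2)
        rw [abs_pow, abs_pow] at h9
        have h10 : |(e.1 : ℝ)| ^ 3 ≤ (X ^ 2) ^ 3 := by gcongr
        have h11 : |(e.2 : ℝ)| ^ 2 ≤ (X ^ 3) ^ 2 := by gcongr
        have h12 : (X ^ 2) ^ 3 + (X ^ 3) ^ 2 = 2 * X ^ 6 := by ring
        linarith
    · rw [← h8]
      exact Int.natCast_dvd.mpr (Nat.gcd_dvd_left _ _)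
  · intro e he e' he' hx p hp
    obtain ⟨-, -, -, -, -, -, h7, -, h9⟩ := h e he
    obtain ⟨-, -, -, -, -, -, h7', -, h9'⟩ := h e' he'
    have h10 := h7.pair h7' hx (h9.trans h9'.symm) p hp
    rw [h9] at h10
    exact h10

/-- the sum over all keys -/
theorem grp (η ε : ℝ) (hη : 0 < η) (hη2 : η ≤ 1 / 2) (hε : 0 < ε) : ∃ C : ℝ, 0 < C ∧
    ∀ X Z R : ℝ, 1 ≤ X → 0 < Z → 0 ≤ R → ∀ (S : Finset (ℤ × ℤ)) (s d₁ d₂ : ℤ × ℤ → ℕ),
    (∀ e ∈ S, Min e ∧ e.1 ≠ 0 ∧ |(e.1 : ℝ)| ≤ X ^ 2 ∧ |(e.2 : ℝ)| ≤ X ^ 3 ∧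
      (X ^ 6 / 64 < |(e.1 : ℝ)| ^ 3 ∨ X ^ 6 / 64 < (e.2 : ℝ) ^ 2) ∧ (cond e : ℝ) ≤ Z ∧
      Key e (s e) (d₁ e) (d₂ e) ∧ (rad (d₁ e) : ℝ) ≤ R) →
    (S.card : ℝ) ≤ C * (Z ^ (1 - 2 * η) * X ^ (12 * η - 1) + X ^ ε * (X ^ 2 * R)) := by
  classical
  obtain ⟨C₁, hC₁, hsum⟩ := sum_tau η hη
  set δ : ℝ := ε / 36 with hδ
  have hδ0 : 0 < δ := by positivity
  obtain ⟨C₂, hC₂, hdiv⟩ := Pool.Agent.H510R2.divisor_bound δ hδ0
  have h3 : Pool.Agent.H785R2.ABC.StmtA3 :=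
    Pool.Agent.H785R2.ABC.stmtA3_of Pool.Agent.H785R2.ABC.stmtA2
  obtain ⟨D₁, hD₁, hA3⟩ := h3 δ hδ0
  obtain ⟨D₂, hD₂, hA4⟩ := Pool.Agent.H785R2.ABC.stmtA4_of h3 δ hδ0
  refine ⟨4096 * 6 ^ 5 * C₁ ^ 2 + 48 * (C₂ ^ 4 * D₁ * D₂ * 2 ^ (6 * δ)), by positivity, ?_⟩
  intro X Z R hX hZ hR S s d₁ d₂ hS
  have hX0 : 0 < X := by linarith
  set M : ℕ := ⌊2 * X ^ 6⌋₊ with hM
  have hX6 : 1 ≤ X ^ 6 := one_le_pow₀ hX
  have hM1 : 1 ≤ M := Nat.le_floor (by push_cast; linarith)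
  have hMX : (M : ℝ) ≤ 2 * X ^ 6 := Nat.floor_le (by positivity)
  have hM0 : (0 : ℝ) < M := by exact_mod_cast hM1
  set F₁ : Finset ℕ := (Icc 1 M).filter (fun d => (rad d : ℝ) ≤ R) with hF₁
  set F₂ : Finset ℕ := Icc 1 M with hF₂
  have hDM : ∀ e ∈ S, (e.1 ^ 3 - e.2 ^ 2).natAbs ≤ M := by
    intro e he
    obtain ⟨-, -, h3, h4, -⟩ := hS e he
    apply Nat.le_floor
    have h2 : (((e.1 ^ 3 - e.2 ^ 2).natAbs : ℕ) : ℝ) = |(e.1 : ℝ) ^ 3 - (e.2 : ℝ) ^ 2| := by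
      have h2 : (((e.1 ^ 3 - e.2 ^ 2).natAbs : ℕ) : ℝ) = |(((e.1 ^ 3 - e.2 ^ 2 : ℤ)) : ℝ)| := by
        rw [← Int.cast_abs, Int.abs_eq_natAbs]
        simp
      rw [h2]
      push_cast
      rfl
    rw [h2]
    have h9 := abs_sub ((e.1 : ℝ) ^ 3) ((e.2 : ℝ) ^ 2)
    rw [abs_pow, abs_pow] at h9
    have h10 : |(e.1 : ℝ)| ^ 3 ≤ (X ^ 2) ^ 3 := by gcongr
    have h11 : |(e.2 : ℝ)| ^ 2 ≤ (X ^ 3) ^ 2 := by gcongr
    have h12 : (X ^ 2) ^ 3 + (X ^ 3) ^ 2 = 2 * X ^ 6 := by ring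
    linarith
  have hmaps : ∀ e ∈ S, (d₁ e, d₂ e) ∈ F₁ ×ˢ F₂ := by
    intro e he
    obtain ⟨-, -, -, -, -, -, hk, hr⟩ := hS e he
    have hD := hDM e he
    rw [← hk.prod] at hD
    have hs := hk.s1
    have h1 := hk.d1
    have h2 := hk.d2
    have h5 : d₁ e ≤ s e * d₁ e * d₂ e := by
      calc d₁ e = 1 * d₁ e * 1 := by ring
        _ ≤ s e * d₁ e * d₂ e := by gcongr
    have h6 : d₂ e ≤ s e * d₁ e * d₂ e := by
      calc d₂ e = 1 * 1 * d₂ e := by ring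
        _ ≤ s e * d₁ e * d₂ e := by gcongr
    rw [mem_product, hF₁, hF₂, mem_filter, mem_Icc, mem_Icc]
    exact ⟨⟨⟨h1, h5.trans hD⟩, hr⟩, h2, h6.trans hD⟩
  set A : ℝ := 4096 * 6 ^ 5 * (Z ^ (1 - 2 * η) * X ^ (12 * η - 1)) with hA
  have hA0 : 0 ≤ A := by positivity
  have hfib : ∀ q ∈ F₁ ×ˢ F₂, ((S.filter (fun e => (d₁ e, d₂ e) = q)).card : ℝ) ≤
      (q.1.divisors.card : ℝ) * (q.2.divisors.card : ℝ) ^ 3 *
        (A * wt η q.1 q.2 + 48 * (X ^ 2 * (1 / rad q.2))) := by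
    intro q hq
    have hmaps2 : ∀ e ∈ S.filter (fun e => (d₁ e, d₂ e) = q),
        (Nat.gcd e.1.natAbs (d₂ e), Nat.gcd e.2.natAbs (d₂ e)) ∈ q.2.divisors ×ˢ q.2.divisors := by
      intro e he
      rw [mem_filter] at he
      obtain ⟨-, -, -, -, -, -, hk, hr⟩ := hS e he.1
      have h1 : d₂ e = q.2 := by rw [← he.2]
      have h2 : q.2 ≠ 0 := by have := hk.d2; omega
      rw [mem_product, Nat.mem_divisors, Nat.mem_divisors, h1]
      exact ⟨⟨Nat.gcd_dvd_right _ _, h2⟩, Nat.gcd_dvd_right _ _, h2⟩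
    have h1 := card_eq_sum_card_fiberwise hmaps2
    have h2 : ∀ ag ∈ q.2.divisors ×ˢ q.2.divisors, (((S.filter (fun e => (d₁ e, d₂ e) = q)).filter
        (fun e => (Nat.gcd e.1.natAbs (d₂ e), Nat.gcd e.2.natAbs (d₂ e)) = ag)).card : ℝ) ≤
        (q.1.divisors.card : ℝ) * q.2.divisors.card *
          (A * wt η q.1 q.2 + 48 * (X ^ 2 * (1 / rad q.2))) := by
      intro ag _
      apply one_key hη hη2 hX hZ q.1 q.2 ag.1 ag.2 _ s
      intro e he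
      rw [mem_filter, mem_filter] at he
      obtain ⟨⟨he1, he2⟩, he3⟩ := he
      obtain ⟨k1, k2, k3, k4, k5, k6, k7, k8⟩ := hS e he1
      have e1 : d₁ e = q.1 := by rw [← he2]
      have e2 : d₂ e = q.2 := by rw [← he2]
      rw [e1, e2] at k7
      rw [e2] at he3
      exact ⟨k1, k2, k3, k4, k5, k6, k7, by rw [← he3], by rw [← he3]⟩
    calc ((S.filter (fun e => (d₁ e, d₂ e) = q)).card : ℝ)
        = ∑ ag ∈ q.2.divisors ×ˢ q.2.divisors, (((S.filter (fun e => (d₁ e, d₂ e) = q)).filter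
          (fun e => (Nat.gcd e.1.natAbs (d₂ e), Nat.gcd e.2.natAbs (d₂ e)) = ag)).card : ℝ) := by
          exact_mod_cast h1
      _ ≤ ∑ ag ∈ q.2.divisors ×ˢ q.2.divisors, (q.1.divisors.card : ℝ) * q.2.divisors.card *
          (A * wt η q.1 q.2 + 48 * (X ^ 2 * (1 / rad q.2))) := sum_le_sum h2
      _ = _ := by
          rw [sum_const, card_product, nsmul_eq_mul]
          push_cast
          ring
  have h1 := card_eq_sum_card_fiberwise hmaps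
  have hτ1 : ∀ d ∈ F₂, (d.divisors.card : ℝ) ≤ C₂ * (M : ℝ) ^ δ := by
    intro d hd
    rw [hF₂, mem_Icc] at hd
    refine (hdiv d hd.1).trans ?_
    have : (d : ℝ) ^ δ ≤ (M : ℝ) ^ δ :=
      Real.rpow_le_rpow (Nat.cast_nonneg _) (by exact_mod_cast hd.2) hδ0.le
    gcongr
  have hF12 : ∀ d ∈ F₁, d ∈ F₂ := fun d hd => (mem_filter.mp hd).1
  have hF1one : ∀ d ∈ F₁, 1 ≤ d := fun d hd => (mem_Icc.mp (mem_filter.mp hd).1).1
  have hF2one : ∀ d ∈ F₂, 1 ≤ d := fun d hd => (mem_Icc.mp hd).1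
  have hτone : ∀ d : ℕ, 1 ≤ d → (1 : ℝ) ≤ (d.divisors.card : ℝ) := by
    intro d hd
    have : 0 < d.divisors.card := card_pos.mpr ⟨1, Nat.one_mem_divisors.mpr (by omega)⟩
    exact_mod_cast this
  -- the first sum
  have hS1 : ∑ q ∈ F₁ ×ˢ F₂, (q.1.divisors.card : ℝ) * (q.2.divisors.card : ℝ) ^ 3 *
      wt η q.1 q.2 ≤ C₁ ^ 2 := by
    calc ∑ q ∈ F₁ ×ˢ F₂, (q.1.divisors.card : ℝ) * (q.2.divisors.card : ℝ) ^ 3 * wt η q.1 q.2
        ≤ ∑ q ∈ F₁ ×ˢ F₂, ((q.1.divisors.card : ℝ) ^ 3 / ((rad q.1 : ℝ) * (q.1 : ℝ) ^ η)) *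
          ((q.2.divisors.card : ℝ) ^ 3 / ((rad q.2 : ℝ) * (q.2 : ℝ) ^ η)) := by
          apply sum_le_sum
          intro q hq
          rw [mem_product] at hq
          have hq1 := hF1one _ hq.1
          have hq2 := hF2one _ hq.2
          have h4 := hτone q.1 hq1
          have h5 : (q.1.divisors.card : ℝ) ≤ (q.1.divisors.card : ℝ) ^ 3 := by
            calc (q.1.divisors.card : ℝ) = (q.1.divisors.card : ℝ) ^ 1 := (pow_one _).symm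
              _ ≤ _ := pow_le_pow_right₀ h4 (by norm_num)
          unfold wt
          calc (q.1.divisors.card : ℝ) * (q.2.divisors.card : ℝ) ^ 3 *
              (1 / ((rad q.1 : ℝ) * (q.1 : ℝ) ^ η) * (1 / ((rad q.2 : ℝ) * (q.2 : ℝ) ^ η)))
              ≤ (q.1.divisors.card : ℝ) ^ 3 * (q.2.divisors.card : ℝ) ^ 3 *
              (1 / ((rad q.1 : ℝ) * (q.1 : ℝ) ^ η) * (1 / ((rad q.2 : ℝ) * (q.2 : ℝ) ^ η))) := by
                gcongr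
            _ = _ := by ring
      _ = (∑ d ∈ F₁, (d.divisors.card : ℝ) ^ 3 / ((rad d : ℝ) * (d : ℝ) ^ η)) *
          ∑ d ∈ F₂, (d.divisors.card : ℝ) ^ 3 / ((rad d : ℝ) * (d : ℝ) ^ η) := by
          rw [sum_mul_sum, sum_product]
      _ ≤ C₁ * C₁ := by
          apply mul_le_mul (hsum F₁ hF1one) (hsum F₂ hF2one) _ hC₁.le
          exact sum_nonneg fun _ _ => by positivity
      _ = C₁ ^ 2 := by ring
  -- the second sum
  have hS2 : ∑ q ∈ F₁ ×ˢ F₂, (q.1.divisors.card : ℝ) * (q.2.divisors.card : ℝ) ^ 3 *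
      (1 / rad q.2) ≤ C₂ ^ 4 * D₁ * D₂ * 2 ^ (6 * δ) * X ^ ε * R := by
    have h5 : ∑ d ∈ F₂, (1 : ℝ) / rad d ≤ D₁ * (M : ℝ) ^ δ := by
      have h2 := hA3 M hM1 1 le_rfl
      simp only [isUnit_one, IsUnit.dvd, Nat.cast_one, div_one] at h2
      rw [filter_true_of_mem (fun _ _ => trivial)] at h2
      exact h2
    have h6 : (F₁.card : ℝ) ≤ D₂ * (M : ℝ) ^ δ * R := hA4 M hM1 R hR
    have hMδ : (M : ℝ) ^ (6 * δ) ≤ 2 ^ (6 * δ) * X ^ ε := by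
      calc (M : ℝ) ^ (6 * δ) ≤ (2 * X ^ 6) ^ (6 * δ) := Real.rpow_le_rpow hM0.le hMX (by positivity)
        _ = 2 ^ (6 * δ) * X ^ ε := by
          rw [Real.mul_rpow (by norm_num) (by positivity), ← Real.rpow_natCast,
            ← Real.rpow_mul hX0.le]
          congr 2
          rw [hδ]
          push_cast
          ring
    have hMpow : (M : ℝ) ^ (6 * δ) = ((M : ℝ) ^ δ) ^ 6 := by
      rw [← Real.rpow_natCast, ← Real.rpow_mul hM0.le]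
      congr 1
      push_cast
      ring
    calc ∑ q ∈ F₁ ×ˢ F₂, (q.1.divisors.card : ℝ) * (q.2.divisors.card : ℝ) ^ 3 * (1 / rad q.2)
        ≤ ∑ q ∈ F₁ ×ˢ F₂, (C₂ * (M : ℝ) ^ δ) * (C₂ * (M : ℝ) ^ δ) ^ 3 * (1 / rad q.2) := by
          apply sum_le_sum
          intro q hq
          rw [mem_product] at hq
          have k1 := hτ1 _ (hF12 _ hq.1)
          have k2 := hτ1 _ hq.2
          gcongr
      _ = (C₂ * (M : ℝ) ^ δ) ^ 4 * ((F₁.card : ℝ) * ∑ d ∈ F₂, (1 : ℝ) / rad d) := by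
          rw [sum_product]
          dsimp only
          rw [sum_const, nsmul_eq_mul, ← mul_sum]
          ring
      _ ≤ (C₂ * (M : ℝ) ^ δ) ^ 4 * ((D₂ * (M : ℝ) ^ δ * R) * (D₁ * (M : ℝ) ^ δ)) := by gcongr
      _ = C₂ ^ 4 * D₁ * D₂ * (M : ℝ) ^ (6 * δ) * R := by
          rw [hMpow]
          ring
      _ ≤ C₂ ^ 4 * D₁ * D₂ * (2 ^ (6 * δ) * X ^ ε) * R := by gcongr
      _ = _ := by ring
  calc (S.card : ℝ) = ∑ q ∈ F₁ ×ˢ F₂, ((S.filter (fun e => (d₁ e, d₂ e) = q)).card : ℝ) := by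
        exact_mod_cast h1
    _ ≤ ∑ q ∈ F₁ ×ˢ F₂, (q.1.divisors.card : ℝ) * (q.2.divisors.card : ℝ) ^ 3 *
        (A * wt η q.1 q.2 + 48 * (X ^ 2 * (1 / rad q.2))) := sum_le_sum hfib
    _ = A * (∑ q ∈ F₁ ×ˢ F₂, (q.1.divisors.card : ℝ) * (q.2.divisors.card : ℝ) ^ 3 * wt η q.1 q.2) +
        48 * X ^ 2 * ∑ q ∈ F₁ ×ˢ F₂, (q.1.divisors.card : ℝ) * (q.2.divisors.card : ℝ) ^ 3 *
          (1 / rad q.2) := by
        rw [mul_sum, mul_sum, ← sum_add_distrib]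
        exact sum_congr rfl fun _ _ => by ring
    _ ≤ A * C₁ ^ 2 + 48 * X ^ 2 * (C₂ ^ 4 * D₁ * D₂ * 2 ^ (6 * δ) * X ^ ε * R) := by gcongr
    _ ≤ _ := by
        rw [hA]
        have p1 : 0 ≤ Z ^ (1 - 2 * η) * X ^ (12 * η - 1) := by positivity
        have p2 : 0 ≤ X ^ ε * (X ^ 2 * R) := by positivity
        have p3 : 0 ≤ 4096 * 6 ^ 5 * C₁ ^ 2 := by positivity
        have p4 : 0 ≤ 48 * (C₂ ^ 4 * D₁ * D₂ * 2 ^ (6 * δ)) := by positivity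
        nlinarith [mul_nonneg p3 p2, mul_nonneg p4 p1]

end Pool.Agent.L0h45.AD
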