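import Mathlib
import Pool.Agent.L0h45.AD.Grp

/-!
# All elliptic curves of bounded conductor
-/

set_option autoImplicit false

namespace Pool.Agent.L0h45.AD

open Finset
open Pool.Agent.H785R2.ABC (rad)
open Pool.Agent.L0h45.DH (mem_box card_box case_two)

/-- the points with `X⁶/64 < height ≤ X⁶` -/
theorem shell (η ε : ℝ) (hη : 0 < η) (hη2 : η ≤ 1 / 2) (hε : 0 < ε) : ∃ C : ℝ, 0 < C ∧
    ∀ X Z : ℝ, 1 ≤ X → 0 < Z → ∀ S : Finset (ℤ × ℤ),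
    (∀ e ∈ S, Min e ∧ e.1 ^ 3 - e.2 ^ 2 ≠ 0 ∧ |(e.1 : ℝ)| ≤ X ^ 2 ∧ |(e.2 : ℝ)| ≤ X ^ 3 ∧
      (X ^ 6 / 64 < |(e.1 : ℝ)| ^ 3 ∨ X ^ 6 / 64 < (e.2 : ℝ) ^ 2) ∧ (cond e : ℝ) ≤ Z) →
    (S.card : ℝ) ≤ C * (Z ^ (1 - 2 * η) * X ^ (12 * η - 1) + X ^ (7 / 2 + ε)) := by
  classical
  obtain ⟨C₁, hC₁, h₁⟩ := grp η ε hη hη2 hε
  obtain ⟨C₂, hC₂, h₂⟩ := case_two ε hε
  refine ⟨3 + 4 * C₁ + C₂ * (2 ^ ε * 2 ^ (7 / 2 : ℝ)), by positivity, ?_⟩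
  intro X Z hX hZ S hS
  have hX0 : 0 < X := by linarith
  have hkey : ∀ e : ℤ × ℤ, ∃ s d₁ d₂ : ℕ, e ∈ S → Key e s d₁ d₂ := by
    intro e
    by_cases he : e ∈ S
    · obtain ⟨s, d₁, d₂, h⟩ := exists_key e (hS e he).2.1
      exact ⟨s, d₁, d₂, fun _ => h⟩
    · exact ⟨0, 0, 0, fun h => absurd h he⟩
  choose s d₁ d₂ hk using hkey
  set R : ℝ := (2 * X) ^ (3 / 2 : ℝ) with hR
  have hR0 : 0 ≤ R := by positivity
  have hR4 : R ≤ 4 * X ^ (3 / 2 : ℝ) := by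
    rw [hR, Real.mul_rpow (by norm_num) hX0.le]
    have h2 : (2 : ℝ) ^ (3 / 2 : ℝ) ≤ 4 := by
      calc (2 : ℝ) ^ (3 / 2 : ℝ) ≤ 2 ^ (2 : ℝ) :=
            Real.rpow_le_rpow_of_exponent_le (by norm_num) (by norm_num)
        _ = 4 := by norm_num
    gcongr
  obtain ⟨S0, hS0⟩ : ∃ S0, S0 = S.filter (fun e => e.1 = 0) := ⟨_, rfl⟩
  obtain ⟨S1, hS1⟩ : ∃ S1, S1 = (S.filter (fun e => ¬ e.1 = 0)).filter
    (fun e => (rad (d₁ e) : ℝ) ≤ R) := ⟨_, rfl⟩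
  obtain ⟨S2, hS2⟩ : ∃ S2, S2 = (S.filter (fun e => ¬ e.1 = 0)).filter
    (fun e => ¬ (rad (d₁ e) : ℝ) ≤ R) := ⟨_, rfl⟩
  have hsplit : S.card = S0.card + (S1.card + S2.card) := by
    rw [hS0, hS1, hS2, card_filter_add_card_filter_not, card_filter_add_card_filter_not]
  have hX72 : X ^ ε * (X ^ 2 * X ^ (3 / 2 : ℝ)) = X ^ (7 / 2 + ε) := by
    rw [← Real.rpow_natCast, ← Real.rpow_add hX0, ← Real.rpow_add hX0]
    congr 1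
    push_cast
    ring
  have c0 : (S0.card : ℝ) ≤ 3 * X ^ (7 / 2 + ε) := by
    have hinj : Set.InjOn (fun e : ℤ × ℤ => e.2) S0 := by
      intro e he e' he' hee
      rw [hS0] at he he'
      simp only [coe_filter, Set.mem_ofPred_eq] at he he'
      exact Prod.ext (by rw [he.2, he'.2]) hee
    have hsub : S0.image (fun e => e.2) ⊆ Icc (-⌊X ^ 3⌋) ⌊X ^ 3⌋ := by
      intro y hy
      rw [mem_image] at hy
      obtain ⟨e, he, rfl⟩ := hy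
      rw [hS0, mem_filter] at he
      exact mem_box (hS e he.1).2.2.2.1
    have h1 := card_le_card hsub
    rw [card_image_of_injOn hinj] at h1
    have h2 := card_box (A := X ^ 3) (by positivity)
    have h3 : (1 : ℝ) ≤ X ^ 3 := one_le_pow₀ hX
    have h4 : X ^ 3 ≤ X ^ (7 / 2 + ε) := by
      rw [← Real.rpow_natCast]
      exact Real.rpow_le_rpow_of_exponent_le hX (by push_cast; linarith)
    calc (S0.card : ℝ) ≤ ((Icc (-⌊X ^ 3⌋) ⌊X ^ 3⌋).card : ℝ) := by exact_mod_cast h1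
      _ ≤ 2 * X ^ 3 + 1 := h2
      _ ≤ 3 * X ^ (7 / 2 + ε) := by linarith
  have c1 : (S1.card : ℝ) ≤ C₁ * (Z ^ (1 - 2 * η) * X ^ (12 * η - 1) + X ^ ε * (X ^ 2 * R)) := by
    refine h₁ X Z R hX hZ hR0 S1 s d₁ d₂ ?_
    intro e he
    rw [hS1, mem_filter, mem_filter] at he
    obtain ⟨⟨he1, he2⟩, he3⟩ := he
    obtain ⟨k1, k2, k3, k4, k5, k6⟩ := hS e he1
    exact ⟨k1, he2, k3, k4, k5, k6, hk e he1, he3⟩
  have c2 : (S2.card : ℝ) ≤ C₂ * (2 * X) ^ ε * (2 * X) ^ (7 / 2 : ℝ) := by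
    refine h₂ (2 * X) (by linarith) S2 ?_
    intro e he
    rw [hS2, mem_filter, mem_filter] at he
    obtain ⟨⟨he1, he2⟩, he3⟩ := he
    obtain ⟨k1, k2, k3, k4, k5, k6⟩ := hS e he1
    have hkk := hk e he1
    refine ⟨k3.trans (by gcongr; linarith), k4.trans (by gcongr; linarith), rad (d₁ e), ?_, ?_,
      lt_of_not_ge he3, ?_⟩
    · have h3 : Nat.Coprime (rad (d₁ e)) e.1.natAbs := by
        have h4 : rad (d₁ e) ∣ d₁ e := (dvd_pow_self _ two_ne_zero).trans hkk.sq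
        exact (hkk.cop.coprime_dvd_left (h4.mul_left _)).coprime_dvd_right (dvd_mul_left _ _)
      rw [Int.isCoprime_iff_gcd_eq_one]
      unfold Int.gcd
      rw [Int.natAbs_natCast]
      exact h3
    · have h3 : rad (d₁ e) ^ 2 ∣ (e.1 ^ 3 - e.2 ^ 2).natAbs := by
        rw [← hkk.prod]
        exact (hkk.sq.mul_left _).mul_right _
      have h4 := Int.natCast_dvd.mpr h3
      push_cast at h4
      exact h4
    · have h3 : rad (d₁ e) ^ 2 ≤ (e.1 ^ 3 - e.2 ^ 2).natAbs := by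
        rw [← hkk.prod]
        refine Nat.le_of_dvd ?_ ((hkk.sq.mul_left _).mul_right _)
        have h1 := hkk.s1
        have h2 := hkk.d1
        have h3 := hkk.d2
        positivity
      have h5 : (((e.1 ^ 3 - e.2 ^ 2).natAbs : ℕ) : ℝ) ≤ 2 * X ^ 6 := by
        have h2 : (((e.1 ^ 3 - e.2 ^ 2).natAbs : ℕ) : ℝ) = |(e.1 : ℝ) ^ 3 - (e.2 : ℝ) ^ 2| := by
          have h2 : (((e.1 ^ 3 - e.2 ^ 2).natAbs : ℕ) : ℝ) =
              |(((e.1 ^ 3 - e.2 ^ 2 : ℤ)) : ℝ)| := by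
            rw [← Int.cast_abs, Int.abs_eq_natAbs]
            simp
          rw [h2]
          push_cast
          rfl
        rw [h2]
        have h9 := abs_sub ((e.1 : ℝ) ^ 3) ((e.2 : ℝ) ^ 2)
        rw [abs_pow, abs_pow] at h9
        have h10 : |(e.1 : ℝ)| ^ 3 ≤ (X ^ 2) ^ 3 := by gcongr
        have h11 : |(e.2 : ℝ)| ^ 2 ≤ (X ^ 3) ^ 2 := by gcongr
        have h12 : (X ^ 2) ^ 3 + (X ^ 3) ^ 2 = 2 * X ^ 6 := by ring
        linarith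
      have h6 : (rad (d₁ e) : ℝ) ^ 2 ≤ ((2 * X) ^ 3) ^ 2 := by
        calc (rad (d₁ e) : ℝ) ^ 2 ≤ (((e.1 ^ 3 - e.2 ^ 2).natAbs : ℕ) : ℝ) := by exact_mod_cast h3
          _ ≤ 2 * X ^ 6 := h5
          _ ≤ ((2 * X) ^ 3) ^ 2 := by
            have : 0 < X ^ 6 := by positivity
            nlinarith
      exact (pow_le_pow_iff_left₀ (by positivity) (by positivity) two_ne_zero).mp h6
  have c1' : X ^ ε * (X ^ 2 * R) ≤ 4 * X ^ (7 / 2 + ε) := by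
    calc X ^ ε * (X ^ 2 * R) ≤ X ^ ε * (X ^ 2 * (4 * X ^ (3 / 2 : ℝ))) := by gcongr
      _ = 4 * (X ^ ε * (X ^ 2 * X ^ (3 / 2 : ℝ))) := by ring
      _ = _ := by rw [hX72]
  have c2' : (2 * X) ^ ε * (2 * X) ^ (7 / 2 : ℝ) = (2 ^ ε * 2 ^ (7 / 2 : ℝ)) * X ^ (7 / 2 + ε) := by
    rw [Real.mul_rpow (by norm_num) hX0.le, Real.mul_rpow (by norm_num) hX0.le,
      Real.rpow_add hX0]
    ring
  have e0 : (S.card : ℝ) = S0.card + (S1.card + S2.card) := by exact_mod_cast hsplit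
  rw [e0]
  obtain ⟨U, hU⟩ : ∃ U, U = Z ^ (1 - 2 * η) * X ^ (12 * η - 1) := ⟨_, rfl⟩
  obtain ⟨V, hV⟩ : ∃ V, V = X ^ (7 / 2 + ε) := ⟨_, rfl⟩
  obtain ⟨c, hc⟩ : ∃ c, c = (2 : ℝ) ^ ε * 2 ^ (7 / 2 : ℝ) := ⟨_, rfl⟩
  have hU0 : 0 ≤ U := by rw [hU]; positivity
  have hV0 : 0 ≤ V := by rw [hV]; positivity
  have hc0 : 0 < c := by rw [hc]; positivity
  rw [← hU] at c1 ⊢
  rw [← hV] at c0 c1' c2' ⊢
  rw [← hc] at c2' ⊢
  rw [mul_assoc, c2'] at c2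
  have c1'' : (S1.card : ℝ) ≤ C₁ * (U + 4 * V) := c1.trans (by gcongr)
  nlinarith [mul_nonneg hC₁.le hU0, mul_nonneg hC₁.le hV0, mul_nonneg (mul_nonneg hC₂.le hc0.le) hU0,
    mul_nonneg (mul_nonneg hC₂.le hc0.le) hV0]

/-- the points with `W⁶ < height ≤ X⁶` -/
theorem tail (η ε : ℝ) (hη : 0 < η) (hη2 : η < 1 / 12) (hε : 0 < ε) : ∃ C : ℝ, 0 < C ∧
    ∀ W Z : ℝ, 1 ≤ W → 0 < Z → ∀ (n : ℕ) (X : ℝ), W / 2 < X → X ≤ 2 ^ n * W →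
    ∀ S : Finset (ℤ × ℤ),
    (∀ e ∈ S, Min e ∧ e.1 ^ 3 - e.2 ^ 2 ≠ 0 ∧ |(e.1 : ℝ)| ≤ X ^ 2 ∧ |(e.2 : ℝ)| ≤ X ^ 3 ∧
      (W ^ 6 < |(e.1 : ℝ)| ^ 3 ∨ W ^ 6 < (e.2 : ℝ) ^ 2) ∧ (cond e : ℝ) ≤ Z) →
    (S.card : ℝ) ≤ C * (Z ^ (1 - 2 * η) * (2 * W ^ (12 * η - 1) - X ^ (12 * η - 1)) +
      X ^ (7 / 2 + ε)) := by
  classical
  obtain ⟨C₁, hC₁, h₁⟩ := shell η ε hη (by linarith) hε
  set κ : ℝ := 1 - 12 * η with hκ
  have hκ0 : 0 < κ := by linarith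
  have hκ1 : κ < 1 := by linarith
  have h2κ : (1 : ℝ) < 2 ^ κ := Real.one_lt_rpow (by norm_num) hκ0
  have h2κ2 : (2 : ℝ) ^ κ ≤ 2 := by
    calc (2 : ℝ) ^ κ ≤ 2 ^ (1 : ℝ) := Real.rpow_le_rpow_of_exponent_le (by norm_num) hκ1.le
      _ = 2 := Real.rpow_one 2
  have eκ : 12 * η - 1 = -κ := by rw [hκ]; ring
  refine ⟨C₁ * (1 / (2 ^ κ - 1) + 2), by
    have : (0 : ℝ) < 2 ^ κ - 1 := by linarith
    positivity, ?_⟩
  have hc0 : (0 : ℝ) < 2 ^ κ - 1 := by linarith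
  set c : ℝ := 1 / (2 ^ κ - 1) with hc
  have hc1 : 0 < c := by positivity
  have hc2 : c * (2 ^ κ - 1) = 1 := by rw [hc]; field_simp
  intro W Z hW hZ
  have hW0 : 0 < W := by linarith
  have hA : 0 < Z ^ (1 - 2 * η) := by positivity
  obtain ⟨A, hAd⟩ : ∃ A, A = Z ^ (1 - 2 * η) := ⟨_, rfl⟩
  rw [← hAd] at hA ⊢
  have hmono : ∀ X : ℝ, W / 2 < X → X ^ (-κ) ≤ 2 * W ^ (-κ) := by
    intro X hX
    have hX0 : 0 < X := by linarith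
    calc X ^ (-κ) ≤ (W / 2) ^ (-κ) :=
          Real.rpow_le_rpow_of_nonpos (by positivity) hX.le (by linarith)
      _ = 2 ^ κ * W ^ (-κ) := by
          rw [Real.div_rpow hW0.le (by norm_num), Real.rpow_neg (by norm_num : (0:ℝ) ≤ 2)]
          field_simp
      _ ≤ 2 * W ^ (-κ) := by gcongr
  have hempty : ∀ X : ℝ, W / 2 < X → X ≤ W → ∀ S : Finset (ℤ × ℤ),
      (∀ e ∈ S, Min e ∧ e.1 ^ 3 - e.2 ^ 2 ≠ 0 ∧ |(e.1 : ℝ)| ≤ X ^ 2 ∧ |(e.2 : ℝ)| ≤ X ^ 3 ∧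
      (W ^ 6 < |(e.1 : ℝ)| ^ 3 ∨ W ^ 6 < (e.2 : ℝ) ^ 2) ∧ (cond e : ℝ) ≤ Z) →
      (S.card : ℝ) ≤ C₁ * (c + 2) * (A * (2 * W ^ (12 * η - 1) - X ^ (12 * η - 1)) +
      X ^ (7 / 2 + ε)) := by
    intro X hX1 hX2 S hS
    have hX0 : 0 < X := by linarith
    have hS0 : S = ∅ := by
      rw [eq_empty_iff_forall_notMem]
      intro e he
      obtain ⟨-, -, k3, k4, k5, -⟩ := hS e he
      rcases k5 with k5 | k5
      · have h3 : |(e.1 : ℝ)| ^ 3 ≤ W ^ 6 := by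
          calc |(e.1 : ℝ)| ^ 3 ≤ (X ^ 2) ^ 3 := by gcongr
            _ = X ^ 6 := by ring
            _ ≤ W ^ 6 := by gcongr
        linarith
      · have h3 : (e.2 : ℝ) ^ 2 ≤ W ^ 6 := by
          rw [← sq_abs]
          calc |(e.2 : ℝ)| ^ 2 ≤ (X ^ 3) ^ 2 := by gcongr
            _ = X ^ 6 := by ring
            _ ≤ W ^ 6 := by gcongr
        linarith
    rw [hS0, card_empty, Nat.cast_zero, eκ]
    have h3 := hmono X hX1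
    have h4 : 0 ≤ A * (2 * W ^ (-κ) - X ^ (-κ)) := mul_nonneg hA.le (by linarith)
    positivity
  intro n
  induction n with
  | zero =>
    intro X hX1 hX2 S hS
    rw [pow_zero, one_mul] at hX2
    exact hempty X hX1 hX2 S hS
  | succ n ih =>
    intro X hX1 hX2 S hS
    rcases le_or_gt X W with hlt | hge
    · exact hempty X hX1 hlt S hS
    have hX0 : 0 < X := by linarith
    have hsplit := card_filter_add_card_filter_not (s := S)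
      (fun e => |(e.1 : ℝ)| ≤ (X / 2) ^ 2 ∧ |(e.2 : ℝ)| ≤ (X / 2) ^ 3)
    have a1 := ih (X / 2) (by linarith) (by rw [pow_succ] at hX2; linarith)
      (S.filter (fun e => |(e.1 : ℝ)| ≤ (X / 2) ^ 2 ∧ |(e.2 : ℝ)| ≤ (X / 2) ^ 3)) (by
        intro e he
        rw [mem_filter] at he
        obtain ⟨k1, k2, -, -, k5, k6⟩ := hS e he.1
        exact ⟨k1, k2, he.2.1, he.2.2, k5, k6⟩)
    have a2 := h₁ X Z (by linarith) hZ
      (S.filter (fun e => ¬ (|(e.1 : ℝ)| ≤ (X / 2) ^ 2 ∧ |(e.2 : ℝ)| ≤ (X / 2) ^ 3))) (by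
        intro e he
        rw [mem_filter] at he
        obtain ⟨k1, k2, k3, k4, k5, k6⟩ := hS e he.1
        refine ⟨k1, k2, k3, k4, ?_, k6⟩
        have h2 := he.2
        rw [not_and_or, not_le, not_le] at h2
        rcases h2 with h2 | h2
        · left
          calc X ^ 6 / 64 = ((X / 2) ^ 2) ^ 3 := by ring
            _ < |(e.1 : ℝ)| ^ 3 := by gcongr
        · right
          rw [← sq_abs (e.2 : ℝ)]
          calc X ^ 6 / 64 = ((X / 2) ^ 3) ^ 2 := by ring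
            _ < |(e.2 : ℝ)| ^ 2 := by gcongr)
    have h3 : (S.card : ℝ) = ((S.filter (fun e => |(e.1 : ℝ)| ≤ (X / 2) ^ 2 ∧
        |(e.2 : ℝ)| ≤ (X / 2) ^ 3)).card : ℝ) + ((S.filter (fun e => ¬ (|(e.1 : ℝ)| ≤ (X / 2) ^ 2 ∧
        |(e.2 : ℝ)| ≤ (X / 2) ^ 3))).card : ℝ) := by
      exact_mod_cast hsplit.symm
    rw [h3]
    rw [← hAd, eκ] at a2
    rw [eκ] at a1 ⊢
    have e1 : (X / 2) ^ (-κ) = 2 ^ κ * X ^ (-κ) := by
      rw [Real.div_rpow hX0.le (by norm_num), Real.rpow_neg (by norm_num : (0:ℝ) ≤ 2)]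
      field_simp
    have e2 : (X / 2) ^ (7 / 2 + ε) ≤ X ^ (7 / 2 + ε) / 2 := by
      rw [Real.div_rpow hX0.le (by norm_num)]
      have h4 : (2 : ℝ) ≤ 2 ^ (7 / 2 + ε) := by
        calc (2 : ℝ) = 2 ^ (1 : ℝ) := (Real.rpow_one 2).symm
          _ ≤ 2 ^ (7 / 2 + ε) := Real.rpow_le_rpow_of_exponent_le (by norm_num) (by linarith)
      gcongr
    rw [e1] at a1
    obtain ⟨x, hx⟩ : ∃ x, x = X ^ (-κ) := ⟨_, rfl⟩
    obtain ⟨w, hw⟩ : ∃ w, w = W ^ (-κ) := ⟨_, rfl⟩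
    obtain ⟨v, hv⟩ : ∃ v, v = X ^ (7 / 2 + ε) := ⟨_, rfl⟩
    have hx0 : 0 < x := by rw [hx]; positivity
    have hv0 : 0 < v := by rw [hv]; positivity
    rw [← hx] at a1 a2 ⊢
    rw [← hw] at a1 ⊢
    rw [← hv] at a2 e2 ⊢
    have a1' : ((S.filter (fun e => |(e.1 : ℝ)| ≤ (X / 2) ^ 2 ∧
        |(e.2 : ℝ)| ≤ (X / 2) ^ 3)).card : ℝ) ≤
        C₁ * (c + 2) * (A * (2 * w - 2 ^ κ * x) + v / 2) := a1.trans (by gcongr)
    have key : C₁ * (c + 2) * (A * (2 * w - 2 ^ κ * x) + v / 2) + C₁ * (A * x + v) ≤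
        C₁ * (c + 2) * (A * (2 * w - x) + v) := by
      have k1 : C₁ * (c + 2) * (A * (2 * w - x) + v) -
          (C₁ * (c + 2) * (A * (2 * w - 2 ^ κ * x) + v / 2) + C₁ * (A * x + v)) =
          C₁ * A * x * ((c + 2) * (2 ^ κ - 1) - 1) + C₁ * v * (c / 2) := by ring
      have k2 : (c + 2) * (2 ^ κ - 1) - 1 = 2 * (2 ^ κ - 1) := by linear_combination hc2
      have k3 : 0 ≤ C₁ * A * x * (2 * (2 ^ κ - 1)) + C₁ * v * (c / 2) := by positivity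
      rw [← k2, ← k1] at k3
      linarith
    linarith

end Pool.Agent.L0h45.AD
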