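import Mathlib
import Pool.Agent.L0h45.AD.Tot

/-!
# The pairs `(A, B)`: few curves of large height
-/

set_option autoImplicit false

namespace Pool.Agent.L0h45.AD

open Finset

/-- one pair for each elliptic curve over `ℚ` -/
def Fam : Set (ℤ × ℤ) := {q | 4 * q.1 ^ 3 + 27 * q.2 ^ 2 ≠ 0 ∧
  ∀ p : ℕ, p.Prime → ¬ ((p : ℤ) ^ 4 ∣ q.1 ∧ (p : ℤ) ^ 6 ∣ q.2)}

/-- the naive height -/
noncomputable def ht (q : ℤ × ℤ) : ℝ := max (4 * |(q.1 : ℝ)| ^ 3) (27 * (q.2 : ℝ) ^ 2)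

/-- the part prime to `6` of the conductor -/
def cnd (q : ℤ × ℤ) : ℕ :=
  ∏ p ∈ (4 * q.1 ^ 3 + 27 * q.2 ^ 2 : ℤ).natAbs.primeFactors.filter (fun p => 5 ≤ p),
    if (p : ℤ) ∣ q.1 then p ^ 2 else p

/-- the change of coordinates -/
def phi (q : ℤ × ℤ) : ℤ × ℤ := (-12 * q.1, 108 * q.2)

theorem phi_inj : Function.Injective phi := by
  intro q q' h
  unfold phi at h
  rw [Prod.mk.injEq] at h
  exact Prod.ext (by linarith [h.1]) (by linarith [h.2])

theorem phi_disc (q : ℤ × ℤ) : (phi q).1 ^ 3 - (phi q).2 ^ 2 = -432 * (4 * q.1 ^ 3 + 27 * q.2 ^ 2) := by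
  unfold phi
  ring

theorem cop6 {p : ℕ} (hp : p.Prime) (h5 : 5 ≤ p) {a b : ℕ} : Nat.Coprime p (2 ^ a * 3 ^ b) := by
  apply Nat.Coprime.mul_right
  · apply Nat.Coprime.pow_right
    exact (Nat.coprime_primes hp Nat.prime_two).mpr (by omega)
  · apply Nat.Coprime.pow_right
    exact (Nat.coprime_primes hp Nat.prime_three).mpr (by omega)

theorem phi_min {q : ℤ × ℤ} (h : q ∈ Fam) : Min (phi q) := by
  intro p hp
  have h1 := h.2 p hp
  constructor
  · rintro h5 ⟨h2, h3⟩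
    apply h1
    unfold phi at h2 h3
    simp only at h2 h3
    constructor
    · have hc : IsCoprime ((p : ℤ) ^ 4) (-12) := by
        have h4 := (cop6 hp h5 (a := 2) (b := 1)).pow_left 4
        have h6 := Nat.isCoprime_iff_coprime.mpr h4
        push_cast at h6
        have : (-12 : ℤ) = -(2 ^ 2 * 3 ^ 1) := by norm_num
        rw [this]
        exact h6.neg_right
      exact hc.dvd_of_dvd_mul_left h2
    · have hc : IsCoprime ((p : ℤ) ^ 6) 108 := by
        have h4 := (cop6 hp h5 (a := 2) (b := 3)).pow_left 6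
        have h6 := Nat.isCoprime_iff_coprime.mpr h4
        push_cast at h6
        have : (108 : ℤ) = 2 ^ 2 * 3 ^ 3 := by norm_num
        rw [this]
        exact h6
      exact hc.dvd_of_dvd_mul_left h3
  · rintro ⟨h2, h3⟩
    apply h1
    unfold phi at h2 h3
    simp only at h2 h3
    rcases lt_or_ge p 5 with h5 | h5
    · have h6 := hp.two_le
      have h7 : p = 2 ∨ p = 3 ∨ p = 4 := by omega
      rcases h7 with rfl | rfl | rfl
      · push_cast at h2 h3 ⊢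
        constructor
        · omega
        · omega
      · push_cast at h2 h3 ⊢
        constructor
        · omega
        · omega
      · norm_num at hp
    · constructor
      · have hc : IsCoprime ((p : ℤ) ^ 4) (-12) := by
          have h4 := (cop6 hp h5 (a := 2) (b := 1)).pow_left 4
          have h6 := Nat.isCoprime_iff_coprime.mpr h4
          push_cast at h6
          have : (-12 : ℤ) = -(2 ^ 2 * 3 ^ 1) := by norm_num
          rw [this]
          exact h6.neg_right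
        exact hc.dvd_of_dvd_mul_left ((pow_dvd_pow _ (by norm_num)).trans h2)
      · have hc : IsCoprime ((p : ℤ) ^ 6) 108 := by
          have h4 := (cop6 hp h5 (a := 2) (b := 3)).pow_left 6
          have h6 := Nat.isCoprime_iff_coprime.mpr h4
          push_cast at h6
          have : (108 : ℤ) = 2 ^ 2 * 3 ^ 3 := by norm_num
          rw [this]
          exact h6
        exact hc.dvd_of_dvd_mul_left ((pow_dvd_pow _ (by norm_num)).trans h3)

theorem phi_cond {q : ℤ × ℤ} (h : 4 * q.1 ^ 3 + 27 * q.2 ^ 2 ≠ 0) : cond (phi q) = cnd q := by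
  unfold cond cnd
  rw [phi_disc]
  have h1 : (-432 * (4 * q.1 ^ 3 + 27 * q.2 ^ 2)).natAbs =
      2 ^ 4 * 3 ^ 3 * (4 * q.1 ^ 3 + 27 * q.2 ^ 2).natAbs := by
    rw [Int.natAbs_mul]
    norm_num
  have hD : (4 * q.1 ^ 3 + 27 * q.2 ^ 2).natAbs ≠ 0 := Int.natAbs_ne_zero.mpr h
  have h2 : (-432 * (4 * q.1 ^ 3 + 27 * q.2 ^ 2)).natAbs.primeFactors.filter (fun p => 5 ≤ p) =
      (4 * q.1 ^ 3 + 27 * q.2 ^ 2).natAbs.primeFactors.filter (fun p => 5 ≤ p) := by
    ext p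
    rw [mem_filter, mem_filter, Nat.mem_primeFactors, Nat.mem_primeFactors, h1]
    constructor
    · rintro ⟨⟨hp, hd, -⟩, h5⟩
      exact ⟨⟨hp, (cop6 hp h5).dvd_of_dvd_mul_left hd, hD⟩, h5⟩
    · rintro ⟨⟨hp, hd, -⟩, h5⟩
      exact ⟨⟨hp, hd.mul_left _, mul_ne_zero (by norm_num) hD⟩, h5⟩
  rw [h2]
  apply prod_congr rfl
  intro p hp
  rw [mem_filter, Nat.mem_primeFactors] at hp
  obtain ⟨⟨hpp, -, -⟩, h5⟩ := hp
  have h3 : (p : ℤ) ∣ (phi q).1 ↔ (p : ℤ) ∣ q.1 := by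
    unfold phi
    simp only
    constructor
    · intro h6
      have hc : IsCoprime (p : ℤ) (-12) := by
        have h4 := (cop6 hpp h5 (a := 2) (b := 1))
        have h6 := Nat.isCoprime_iff_coprime.mpr h4
        push_cast at h6
        have : (-12 : ℤ) = -(2 ^ 2 * 3 ^ 1) := by norm_num
        rw [this]
        exact h6.neg_right
      exact hc.dvd_of_dvd_mul_left h6
    · exact fun h6 => h6.mul_left _
  by_cases h6 : (p : ℤ) ∣ q.1
  · rw [if_pos h6, if_pos (h3.mpr h6)]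
  · rw [if_neg h6, if_neg (fun h7 => h6 (h3.mp h7))]

theorem phi_ht1 (q : ℤ × ℤ) : |((phi q).1 : ℝ)| ^ 3 = 432 * (4 * |(q.1 : ℝ)| ^ 3) := by
  unfold phi
  push_cast
  rw [abs_mul, mul_pow]
  norm_num
  ring

theorem phi_ht2 (q : ℤ × ℤ) : ((phi q).2 : ℝ) ^ 2 = 432 * (27 * (q.2 : ℝ) ^ 2) := by
  unfold phi
  push_cast
  ring

theorem ht_le_iff (q : ℤ × ℤ) {X Y : ℝ} (hX : 0 < X) (h : X ^ 6 = 432 * Y) :
    ht q ≤ Y ↔ |((phi q).1 : ℝ)| ≤ X ^ 2 ∧ |((phi q).2 : ℝ)| ≤ X ^ 3 := by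
  unfold ht
  rw [max_le_iff]
  have e1 : |((phi q).1 : ℝ)| ≤ X ^ 2 ↔ |((phi q).1 : ℝ)| ^ 3 ≤ (X ^ 2) ^ 3 :=
    (pow_le_pow_iff_left₀ (abs_nonneg _) (by positivity) (by norm_num)).symm
  have e2 : |((phi q).2 : ℝ)| ≤ X ^ 3 ↔ |((phi q).2 : ℝ)| ^ 2 ≤ (X ^ 3) ^ 2 :=
    (pow_le_pow_iff_left₀ (abs_nonneg _) (by positivity) (by norm_num)).symm
  rw [e1, e2, sq_abs, phi_ht1, phi_ht2]
  have h1 : (X ^ 2) ^ 3 = 432 * Y := by rw [← h]; ring
  have h2 : (X ^ 3) ^ 2 = 432 * Y := by rw [← h]; ring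
  rw [h1, h2]
  constructor
  · rintro ⟨a, b⟩
    exact ⟨by linarith, by linarith⟩
  · rintro ⟨a, b⟩
    exact ⟨by linarith, by linarith⟩

/-- the sixth root -/
theorem exists_root6 {Y : ℝ} (hY : 0 < Y) : ∃ X : ℝ, 0 < X ∧ X ^ 6 = 432 * Y := by
  refine ⟨(432 * Y) ^ (1 / 6 : ℝ), by positivity, ?_⟩
  rw [← Real.rpow_natCast, ← Real.rpow_mul (by positivity)]
  norm_num

/-- the number of the pairs of bounded height -/
theorem card_ht {Y : ℝ} (hY : 1 ≤ Y) (T : Finset (ℤ × ℤ)) (h : ∀ q ∈ T, ht q ≤ Y) :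
    (T.card : ℝ) ≤ 9 * 432 * Y ^ (5 / 6 : ℝ) := by
  classical
  obtain ⟨X, hX, hX6⟩ := exists_root6 (show 0 < Y by linarith)
  have hX1 : 1 ≤ X := by
    by_contra hcon
    push Not at hcon
    have : X ^ 6 < 1 := pow_lt_one₀ hX.le hcon (by norm_num)
    linarith
  have h1 := Pool.Agent.L0h45.DH.box_card hX1 (T.image phi) (by
    intro e he
    rw [mem_image] at he
    obtain ⟨q, hq, rfl⟩ := he
    exact (ht_le_iff q hX hX6).mp (h q hq))
  rw [card_image_of_injective _ phi_inj] at h1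
  have h2 : X ^ 5 ≤ 432 * Y ^ (5 / 6 : ℝ) := by
    have e1 : X ^ 5 = (X ^ 6) ^ (5 / 6 : ℝ) := by
      rw [← Real.rpow_natCast X 6, ← Real.rpow_mul hX.le, ← Real.rpow_natCast]
      norm_num
    rw [e1, hX6, Real.mul_rpow (by norm_num) (by linarith)]
    have h3 : (432 : ℝ) ^ (5 / 6 : ℝ) ≤ 432 := by
      calc (432 : ℝ) ^ (5 / 6 : ℝ) ≤ 432 ^ (1 : ℝ) :=
            Real.rpow_le_rpow_of_exponent_le (by norm_num) (by norm_num)
        _ = 432 := Real.rpow_one _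
    gcongr
  calc (T.card : ℝ) ≤ 9 * X ^ 5 := h1
    _ ≤ 9 * (432 * Y ^ (5 / 6 : ℝ)) := by gcongr
    _ = _ := by ring

/-- few curves of small conductor and large height -/
theorem card_tail (s β : ℝ) (hs : 0 < s) (hs6 : s < 1 / 6) (hβ : 0 < β) (hβ2 : β < 10 / 7) :
    ∃ C δ : ℝ, 0 < C ∧ 0 < δ ∧ ∀ K Z : ℝ, 1 ≤ K → 1 ≤ Z → ∀ T : Finset (ℤ × ℤ),
    (∀ q ∈ T, q ∈ Fam ∧ (cnd q : ℝ) ≤ Z ∧ K * Z < ht q ∧ ht q ≤ Z ^ β) →
    (T.card : ℝ) ≤ C * (K ^ (-s) * Z ^ (5 / 6 : ℝ) + Z ^ (5 / 6 - δ : ℝ)) := by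
  classical
  set η : ℝ := (1 / 6 - s) / 2 with hη
  have hη0 : 0 < η := by linarith
  have hη1 : η < 1 / 12 := by linarith
  set δ : ℝ := (5 / 6 - 7 / 12 * β) / 2 with hδ
  have hδ0 : 0 < δ := by linarith
  set ε : ℝ := δ * 6 / β with hε
  have hε0 : 0 < ε := by positivity
  obtain ⟨C, hC, ht'⟩ := tail η ε hη0 hη1 hε0
  refine ⟨C * (2 + 432 ^ (7 / 2 + ε)), δ, by positivity, hδ0, ?_⟩
  intro K Z hK hZ T hT
  have hZ0 : 0 < Z := by linarith
  have hK0 : 0 < K := by linarith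
  rcases T.eq_empty_or_nonempty with rfl | ⟨q₀, hq₀⟩
  · simp only [card_empty, Nat.cast_zero]
    positivity
  obtain ⟨-, -, g1, g2⟩ := hT q₀ hq₀
  have hlt : K * Z < Z ^ β := lt_of_lt_of_le g1 g2
  obtain ⟨W, hW, hW6⟩ := exists_root6 (show 0 < K * Z by positivity)
  obtain ⟨X, hX, hX6⟩ := exists_root6 (show 0 < Z ^ β by positivity)
  have hKZ : 1 ≤ K * Z := by nlinarith
  have hW1 : 1 ≤ W := by
    by_contra hcon
    push Not at hcon
    have : W ^ 6 < 1 := pow_lt_one₀ hW.le hcon (by norm_num)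
    linarith
  have hWX : W < X := by
    by_contra hcon
    push Not at hcon
    have : X ^ 6 ≤ W ^ 6 := by gcongr
    linarith
  obtain ⟨n, hn⟩ : ∃ n : ℕ, X / W ≤ 2 ^ n := (pow_unbounded_of_one_lt (X / W) one_lt_two).imp fun n h => h.le
  rw [div_le_iff₀ hW] at hn
  have h1 := ht' W Z hW1 hZ0 n X (by linarith) hn (T.image phi) (by
    intro e he
    rw [mem_image] at he
    obtain ⟨q, hq, rfl⟩ := he
    obtain ⟨k1, k2, k3, k4⟩ := hT q hq
    obtain ⟨m1, m2⟩ := (ht_le_iff q hX hX6).mp k4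
    refine ⟨phi_min k1, ?_, m1, m2, ?_, ?_⟩
    · rw [phi_disc]
      exact mul_ne_zero (by norm_num) k1.1
    · by_contra hcon
      rw [not_or, not_lt, not_lt] at hcon
      obtain ⟨c1, c2⟩ := hcon
      have h5 : ht q ≤ K * Z := by
        rw [ht_le_iff q hW hW6]
        constructor
        · rw [← pow_le_pow_iff_left₀ (abs_nonneg _) (by positivity) (three_ne_zero)]
          calc _ ≤ W ^ 6 := c1
            _ = _ := by ring
        · rw [← pow_le_pow_iff_left₀ (abs_nonneg _) (by positivity) (two_ne_zero), sq_abs]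
          calc _ ≤ W ^ 6 := c2
            _ = _ := by ring
      linarith
    · rw [phi_cond k1.1]
      exact k2)
  rw [card_image_of_injective _ phi_inj] at h1
  have hXp : 0 < X ^ (12 * η - 1) := by positivity
  have hWe : W ^ (12 * η - 1) ≤ (K * Z) ^ (2 * η - 1 / 6) := by
    have e1 : W ^ (12 * η - 1) = (W ^ 6) ^ (2 * η - 1 / 6) := by
      rw [← Real.rpow_natCast W 6, ← Real.rpow_mul hW.le]
      congr 1
      push_cast
      ring
    rw [e1, hW6]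
    exact Real.rpow_le_rpow_of_nonpos (by positivity) (by linarith) (by linarith)
  have hfirst : Z ^ (1 - 2 * η) * (2 * W ^ (12 * η - 1) - X ^ (12 * η - 1)) ≤
      2 * (K ^ (-s) * Z ^ (5 / 6 : ℝ)) := by
    calc Z ^ (1 - 2 * η) * (2 * W ^ (12 * η - 1) - X ^ (12 * η - 1))
        ≤ Z ^ (1 - 2 * η) * (2 * (K * Z) ^ (2 * η - 1 / 6)) := by
          gcongr
          linarith
      _ = 2 * (K ^ (2 * η - 1 / 6) * (Z ^ (1 - 2 * η) * Z ^ (2 * η - 1 / 6))) := by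
          rw [Real.mul_rpow hK0.le hZ0.le]
          ring
      _ = 2 * (K ^ (-s) * Z ^ (5 / 6 : ℝ)) := by
          rw [← Real.rpow_add hZ0]
          congr 3
          · rw [hη]; ring
          · congr 1; ring
  have hsecond : X ^ (7 / 2 + ε) ≤ 432 ^ (7 / 2 + ε) * Z ^ (5 / 6 - δ : ℝ) := by
    have e1 : X ^ (7 / 2 + ε) = (X ^ 6) ^ ((7 / 2 + ε) / 6) := by
      rw [← Real.rpow_natCast X 6, ← Real.rpow_mul hX.le]
      congr 1
      push_cast
      ring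
    rw [e1, hX6, Real.mul_rpow (by norm_num) (by positivity), ← Real.rpow_mul hZ0.le]
    have e2 : β * ((7 / 2 + ε) / 6) = 5 / 6 - δ := by
      have h3 : β * ε = δ * 6 := by rw [hε]; field_simp
      have h4 : β * ((7 / 2 + ε) / 6) = 7 / 12 * β + β * ε / 6 := by ring
      rw [h4, h3, hδ]
      ring
    rw [e2]
    have h3 : (432 : ℝ) ^ ((7 / 2 + ε) / 6) ≤ 432 ^ (7 / 2 + ε) := by
      apply Real.rpow_le_rpow_of_exponent_le (by norm_num)
      linarith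
    gcongr
  have p1 : 0 ≤ K ^ (-s) * Z ^ (5 / 6 : ℝ) := by positivity
  have p2 : 0 ≤ Z ^ (5 / 6 - δ : ℝ) := by positivity
  have p3 : (0 : ℝ) < 432 ^ (7 / 2 + ε) := by positivity
  calc (T.card : ℝ) ≤ C * (Z ^ (1 - 2 * η) * (2 * W ^ (12 * η - 1) - X ^ (12 * η - 1)) +
        X ^ (7 / 2 + ε)) := h1
    _ ≤ C * (2 * (K ^ (-s) * Z ^ (5 / 6 : ℝ)) + 432 ^ (7 / 2 + ε) * Z ^ (5 / 6 - δ : ℝ)) := by gcongr
    _ ≤ _ := by
      have q1 := mul_nonneg p3.le p1
      have q2 := mul_nonneg hC.le p2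
      have q3 := mul_nonneg hC.le q1
      nlinarith

end Pool.Agent.L0h45.AD
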