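import Mathlib
import Pool.Agent.L0h45.AD.Fam

/-!
# The number of the pairs `(A, B)`: the lower bound
-/

set_option autoImplicit false

namespace Pool.Agent.L0h45.AD

open Finset
open scoped Classical

theorem sum_inv (a : ℕ) : ∑ p ∈ Icc 2 a, (1 : ℝ) / (p : ℝ) ^ 10 ≤ 1 / 256 := by
  have key : ∀ n : ℕ, ∑ p ∈ Icc 2 (n + 1), (1 : ℝ) / (p : ℝ) ^ 10 ≤ (1 - 1 / (n + 1 : ℝ)) / 256 := by
    intro n
    induction n with
    | zero => simp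
    | succ n ih =>
      rw [← Finset.insert_Icc_right_eq_Icc_add_one (by omega : 2 ≤ n + 1 + 1), sum_insert (by simp)]
      have h1 : (1 : ℝ) / ((n + 1 + 1 : ℕ) : ℝ) ^ 10 ≤ (1 / (n + 1 : ℝ) - 1 / (n + 2 : ℝ)) / 256 := by
        have hn : (0 : ℝ) ≤ n := Nat.cast_nonneg n
        have h2 : (1 / (n + 1 : ℝ) - 1 / (n + 2 : ℝ)) / 256 = 1 / (256 * ((n + 1) * (n + 2))) := by
          field_simp
          ring
        rw [h2]
        push_cast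
        apply one_div_le_one_div_of_le (by positivity)
        have h3 : (256 : ℝ) ≤ ((n : ℝ) + 1 + 1) ^ 8 := by
          calc (256 : ℝ) = 2 ^ 8 := by norm_num
            _ ≤ ((n : ℝ) + 1 + 1) ^ 8 := by gcongr; linarith
        have h5 : ((n : ℝ) + 1) * (n + 2) ≤ ((n : ℝ) + 1 + 1) * (n + 1 + 1) := by nlinarith
        calc 256 * (((n : ℝ) + 1) * (n + 2)) ≤ ((n : ℝ) + 1 + 1) ^ 8 * (((n : ℝ) + 1 + 1) * (n + 1 + 1)) :=
              mul_le_mul h3 h5 (by positivity) (by positivity)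
          _ = ((n : ℝ) + 1 + 1) ^ 10 := by ring
      have h4 : (1 - 1 / (n + 1 : ℝ)) / 256 + (1 / (n + 1 : ℝ) - 1 / (n + 2 : ℝ)) / 256 =
          (1 - 1 / (((n + 1 : ℕ) : ℝ) + 1)) / 256 := by
        push_cast
        ring
      linarith
  rcases Nat.eq_zero_or_pos a with rfl | ha
  · simp
  obtain ⟨n, rfl⟩ : ∃ n, a = n + 1 := ⟨a - 1, by omega⟩
  refine (key n).trans ?_
  have : (0 : ℝ) ≤ 1 / (n + 1 : ℝ) := by positivity
  linarith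

theorem box_good (a b : ℕ) : (a * b : ℝ) / 2 ≤
    (((Icc 1 a ×ˢ Icc 1 b).filter (fun u : ℕ × ℕ =>
      ∀ p : ℕ, p.Prime → ¬ (p ^ 4 ∣ u.1 ∧ p ^ 6 ∣ u.2))).card : ℝ) := by
  classical
  set P : Finset (ℕ × ℕ) := Icc 1 a ×ˢ Icc 1 b with hP
  have hbad : P.filter (fun u : ℕ × ℕ => ¬ ∀ p : ℕ, p.Prime → ¬ (p ^ 4 ∣ u.1 ∧ p ^ 6 ∣ u.2)) ⊆
      (Icc 2 a).biUnion (fun p => ((Ioc 0 a).filter (p ^ 4 ∣ ·)) ×ˢ ((Ioc 0 b).filter (p ^ 6 ∣ ·))) := by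
    intro u hu
    rw [mem_filter, hP, mem_product, mem_Icc, mem_Icc] at hu
    obtain ⟨⟨⟨h1, h2⟩, h3, h4⟩, h5⟩ := hu
    push Not at h5
    obtain ⟨p, hp, h6, h7⟩ := h5
    rw [mem_biUnion]
    refine ⟨p, ?_, ?_⟩
    · rw [mem_Icc]
      refine ⟨hp.two_le, ?_⟩
      have h8 := Nat.le_of_dvd h1 h6
      have h9 : p ≤ p ^ 4 := Nat.le_self_pow (by norm_num) p
      omega
    · rw [mem_product, mem_filter, mem_filter, mem_Ioc, mem_Ioc]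
      exact ⟨⟨⟨h1, h2⟩, h6⟩, ⟨h3, h4⟩, h7⟩
  have hb := (card_le_card hbad).trans card_biUnion_le
  have hb2 : ((P.filter (fun u : ℕ × ℕ => ¬ ∀ p : ℕ, p.Prime → ¬ (p ^ 4 ∣ u.1 ∧ p ^ 6 ∣ u.2))).card : ℝ) ≤
      (a * b : ℝ) * (1 / 256) := by
    calc ((P.filter (fun u : ℕ × ℕ => ¬ ∀ p : ℕ, p.Prime → ¬ (p ^ 4 ∣ u.1 ∧ p ^ 6 ∣ u.2))).card : ℝ)
        ≤ ∑ p ∈ Icc 2 a, ((((Ioc 0 a).filter (p ^ 4 ∣ ·)) ×ˢ
          ((Ioc 0 b).filter (p ^ 6 ∣ ·))).card : ℝ) := by exact_mod_cast hb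
      _ ≤ ∑ p ∈ Icc 2 a, (a * b : ℝ) * (1 / (p : ℝ) ^ 10) := by
          apply sum_le_sum
          intro p hp
          rw [mem_Icc] at hp
          have hp0 : (0 : ℝ) < p := by
            have : 0 < p := by omega
            exact_mod_cast this
          rw [card_product, Nat.Ioc_filter_dvd_card_eq_div, Nat.Ioc_filter_dvd_card_eq_div]
          push_cast
          have h1 : ((a / p ^ 4 : ℕ) : ℝ) ≤ a / (p : ℝ) ^ 4 := by
            have := @Nat.cast_div_le ℝ _ _ _ a (p ^ 4)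
            push_cast at this
            exact this
          have h2 : ((b / p ^ 6 : ℕ) : ℝ) ≤ b / (p : ℝ) ^ 6 := by
            have := @Nat.cast_div_le ℝ _ _ _ b (p ^ 6)
            push_cast at this
            exact this
          calc ((a / p ^ 4 : ℕ) : ℝ) * ((b / p ^ 6 : ℕ) : ℝ) ≤ (a / (p : ℝ) ^ 4) * (b / (p : ℝ) ^ 6) := by
                gcongr
            _ = (a * b : ℝ) * (1 / (p : ℝ) ^ 10) := by field_simp
      _ = (a * b : ℝ) * ∑ p ∈ Icc 2 a, (1 : ℝ) / (p : ℝ) ^ 10 := by rw [mul_sum]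
      _ ≤ (a * b : ℝ) * (1 / 256) := by
          have := sum_inv a
          gcongr
  have hsplit := card_filter_add_card_filter_not (s := P)
    (fun u : ℕ × ℕ => ∀ p : ℕ, p.Prime → ¬ (p ^ 4 ∣ u.1 ∧ p ^ 6 ∣ u.2))
  have hPc : P.card = a * b := by
    rw [hP, card_product, Nat.card_Icc, Nat.card_Icc]
    simp
  rw [hPc] at hsplit
  have h3 : ((P.filter (fun u : ℕ × ℕ => ∀ p : ℕ, p.Prime → ¬ (p ^ 4 ∣ u.1 ∧ p ^ 6 ∣ u.2))).card : ℝ) +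
      ((P.filter (fun u : ℕ × ℕ => ¬ ∀ p : ℕ, p.Prime → ¬ (p ^ 4 ∣ u.1 ∧ p ^ 6 ∣ u.2))).card : ℝ) =
      a * b := by exact_mod_cast hsplit
  have h4 : (0 : ℝ) ≤ a * b := by positivity
  linarith

/-- all pairs of bounded height -/
def BH (Y : ℝ) : Set (ℤ × ℤ) := {q | q ∈ Fam ∧ ht q ≤ Y}

theorem fin_ht (Y : ℝ) : {q : ℤ × ℤ | ht q ≤ Y}.Finite := by
  rcases lt_or_ge Y 0 with h | h
  · convert Set.finite_empty
    ext q
    simp only [Set.mem_ofPred_eq, Set.mem_empty_iff_false, iff_false, not_le]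
    refine lt_of_lt_of_le h ?_
    unfold ht
    exact le_max_of_le_left (by positivity)
  · obtain ⟨X, hX, hX6⟩ := exists_root6 (show 0 < Y + 1 by linarith)
    refine (((Set.finite_Icc (-⌊X ^ 2⌋) ⌊X ^ 2⌋).prod
      (Set.finite_Icc (-⌊X ^ 3⌋) ⌊X ^ 3⌋)).preimage (phi_inj.injOn)).subset ?_
    intro q hq
    have h1 : ht q ≤ Y + 1 := le_trans hq (by linarith)
    obtain ⟨m1, m2⟩ := (ht_le_iff q hX hX6).mp h1
    have e1 := Pool.Agent.L0h45.DH.mem_box m1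
    have e2 := Pool.Agent.L0h45.DH.mem_box m2
    rw [mem_Icc] at e1 e2
    exact ⟨e1, e2⟩

theorem BH_fin (Y : ℝ) : (BH Y).Finite := (fin_ht Y).subset fun _ h => h.2

/-- the lower bound -/
theorem card_BH_low : ∃ c : ℝ, 0 < c ∧ ∀ Y : ℝ, 1000 ≤ Y → c * Y ^ (5 / 6 : ℝ) ≤ ((BH Y).ncard : ℝ) := by
  classical
  refine ⟨1 / 1000, by norm_num, ?_⟩
  intro Y hY
  have hY0 : 0 < Y := by linarith
  set a : ℕ := ⌊(Y / 4) ^ (1 / 3 : ℝ)⌋₊ with ha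
  set b : ℕ := ⌊(Y / 27) ^ (1 / 2 : ℝ)⌋₊ with hb
  have ha1 : (a : ℝ) ≤ (Y / 4) ^ (1 / 3 : ℝ) := Nat.floor_le (by positivity)
  have hb1 : (b : ℝ) ≤ (Y / 27) ^ (1 / 2 : ℝ) := Nat.floor_le (by positivity)
  have ha3 : (a : ℝ) ^ 3 ≤ Y / 4 := by
    calc (a : ℝ) ^ 3 ≤ ((Y / 4) ^ (1 / 3 : ℝ)) ^ 3 := by gcongr
      _ = Y / 4 := by
        rw [← Real.rpow_natCast, ← Real.rpow_mul (by positivity)]
        norm_num
  have hb2 : (b : ℝ) ^ 2 ≤ Y / 27 := by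
    calc (b : ℝ) ^ 2 ≤ ((Y / 27) ^ (1 / 2 : ℝ)) ^ 2 := by gcongr
      _ = Y / 27 := by
        rw [← Real.rpow_natCast, ← Real.rpow_mul (by positivity)]
        norm_num
  have hga : Y ^ (1 / 3 : ℝ) / 4 ≤ a := by
    have h1 : Y ^ (1 / 3 : ℝ) / 2 ≤ (Y / 4) ^ (1 / 3 : ℝ) := by
      rw [Real.div_rpow hY0.le (by norm_num)]
      have h2 : (4 : ℝ) ^ (1 / 3 : ℝ) ≤ 2 := by
        calc (4 : ℝ) ^ (1 / 3 : ℝ) ≤ (4 : ℝ) ^ (1 / 2 : ℝ) :=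
              Real.rpow_le_rpow_of_exponent_le (by norm_num) (by norm_num)
          _ = 2 := by
            rw [show (4 : ℝ) = 2 ^ (2 : ℝ) by norm_num, ← Real.rpow_mul (by norm_num)]
            norm_num
      gcongr
    have h3 : (4 : ℝ) ≤ Y ^ (1 / 3 : ℝ) := by
      calc (4 : ℝ) ≤ 1000 ^ (1 / 3 : ℝ) := by
            rw [show (1000 : ℝ) = 10 ^ (3 : ℝ) by norm_num, ← Real.rpow_mul (by norm_num)]
            norm_num
        _ ≤ Y ^ (1 / 3 : ℝ) := Real.rpow_le_rpow (by norm_num) hY (by norm_num)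
    have h4 := Nat.lt_floor_add_one ((Y / 4) ^ (1 / 3 : ℝ))
    rw [← ha] at h4
    linarith
  have hgb : Y ^ (1 / 2 : ℝ) / 12 ≤ b := by
    have h1 : Y ^ (1 / 2 : ℝ) / 6 ≤ (Y / 27) ^ (1 / 2 : ℝ) := by
      rw [Real.div_rpow hY0.le (by norm_num)]
      have h2 : (27 : ℝ) ^ (1 / 2 : ℝ) ≤ 6 := by
        calc (27 : ℝ) ^ (1 / 2 : ℝ) ≤ (36 : ℝ) ^ (1 / 2 : ℝ) :=
              Real.rpow_le_rpow (by norm_num) (by norm_num) (by norm_num)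
          _ = 6 := by
            rw [show (36 : ℝ) = 6 ^ (2 : ℝ) by norm_num, ← Real.rpow_mul (by norm_num)]
            norm_num
      gcongr
    have h3 : (12 : ℝ) ≤ Y ^ (1 / 2 : ℝ) := by
      calc (12 : ℝ) ≤ 144 ^ (1 / 2 : ℝ) := by
            rw [show (144 : ℝ) = 12 ^ (2 : ℝ) by norm_num, ← Real.rpow_mul (by norm_num)]
            norm_num
        _ ≤ Y ^ (1 / 2 : ℝ) := Real.rpow_le_rpow (by norm_num) (by linarith) (by norm_num)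
    have h4 := Nat.lt_floor_add_one ((Y / 27) ^ (1 / 2 : ℝ))
    rw [← hb] at h4
    linarith
  have hinj : Set.InjOn (fun u : ℕ × ℕ => (((u.1 : ℕ) : ℤ), ((u.2 : ℕ) : ℤ)))
      ((Icc 1 a ×ˢ Icc 1 b).filter (fun u : ℕ × ℕ =>
      ∀ p : ℕ, p.Prime → ¬ (p ^ 4 ∣ u.1 ∧ p ^ 6 ∣ u.2))) := by
    intro u _ v _ h
    simp only [Prod.mk.injEq, Nat.cast_inj] at h
    exact Prod.ext h.1 h.2
  have hsub : ((((Icc 1 a ×ˢ Icc 1 b).filter (fun u : ℕ × ℕ =>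
      ∀ p : ℕ, p.Prime → ¬ (p ^ 4 ∣ u.1 ∧ p ^ 6 ∣ u.2))).image
      (fun u : ℕ × ℕ => (((u.1 : ℕ) : ℤ), ((u.2 : ℕ) : ℤ))) : Finset (ℤ × ℤ)) : Set (ℤ × ℤ)) ⊆ BH Y := by
    intro q hq
    rw [mem_coe, mem_image] at hq
    obtain ⟨u, hu, rfl⟩ := hq
    rw [mem_filter, mem_product, mem_Icc, mem_Icc] at hu
    obtain ⟨⟨⟨h1, h2⟩, h3, h4⟩, h5⟩ := hu
    refine ⟨⟨?_, ?_⟩, ?_⟩
    · simp only
      have : (0 : ℤ) < u.1 := by exact_mod_cast h1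
      positivity
    · rintro p hp ⟨h6, h7⟩
      apply h5 p hp
      have h6' : (p : ℤ) ^ 4 ∣ (u.1 : ℤ) := h6
      have h7' : (p : ℤ) ^ 6 ∣ (u.2 : ℤ) := h7
      constructor
      · exact_mod_cast h6'
      · exact_mod_cast h7'
    · unfold ht
      simp only [Int.cast_natCast, Nat.abs_cast]
      apply max_le
      · have h6 : (u.1 : ℝ) ≤ a := by exact_mod_cast h2
        calc 4 * (u.1 : ℝ) ^ 3 ≤ 4 * (a : ℝ) ^ 3 := by gcongr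
          _ ≤ Y := by linarith
      · have h6 : (u.2 : ℝ) ≤ b := by exact_mod_cast h4
        calc 27 * (u.2 : ℝ) ^ 2 ≤ 27 * (b : ℝ) ^ 2 := by gcongr
          _ ≤ Y := by linarith
  have h1 := Set.ncard_le_ncard hsub (BH_fin Y)
  rw [Set.ncard_coe_finset, card_image_of_injOn hinj] at h1
  have h2 := box_good a b
  calc 1 / 1000 * Y ^ (5 / 6 : ℝ) ≤ (Y ^ (1 / 3 : ℝ) / 4) * (Y ^ (1 / 2 : ℝ) / 12) / 2 := by
        have h3 : Y ^ (5 / 6 : ℝ) = Y ^ (1 / 3 : ℝ) * Y ^ (1 / 2 : ℝ) := by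
          rw [← Real.rpow_add hY0]
          norm_num
        rw [h3]
        have h4 : 0 ≤ Y ^ (1 / 3 : ℝ) * Y ^ (1 / 2 : ℝ) := by positivity
        linarith
    _ ≤ (a : ℝ) * b / 2 := by gcongr
    _ ≤ _ := h2
    _ ≤ ((BH Y).ncard : ℝ) := by exact_mod_cast h1

end Pool.Agent.L0h45.AD
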