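import Mathlib
import Pool.Agent.L0h45.AD.Low

/-!
# From the height to the conductor
-/

set_option autoImplicit false

namespace Pool.Agent.L0h45.AD

open Finset Filter Topology
open scoped Classical

/-- the pairs with `I ≤ Z` and height at most `Z ^ β` -/
def Upto (I : ℤ × ℤ → ℝ) (β Z : ℝ) : Set (ℤ × ℤ) := {q | q ∈ Fam ∧ I q ≤ Z ∧ ht q ≤ Z ^ β}

/-- `I` lies between the conductor and the height -/
def Btw (c C : ℝ) (I : ℤ × ℤ → ℝ) : Prop := ∀ q ∈ Fam, c * (cnd q : ℝ) ≤ I q ∧ I q ≤ C * ht q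

theorem Upto_fin (I : ℤ × ℤ → ℝ) (β Z : ℝ) : (Upto I β Z).Finite :=
  (fin_ht (Z ^ β)).subset fun _ h => h.2.2

theorem toFin {S : Set (ℤ × ℤ)} (h : S.Finite) : (S.ncard : ℝ) = (h.toFinset.card : ℝ) := by
  rw [Set.ncard_eq_toFinset_card S h]

/-- almost all curves have a height of the size of `Z` -/
def Spt (s : ℝ) (I : ℤ × ℤ → ℝ) (β : ℝ) : Prop :=
  ∃ C₁ δ m : ℝ, 0 < C₁ ∧ 0 < δ ∧ 1 ≤ m ∧ ∀ K Z : ℝ, 1 ≤ K → 1 ≤ Z → ∀ S : Set (ℤ × ℤ),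
    ((Upto I β Z ∩ S).ncard : ℝ) ≤ ((BH (K * (m * Z)) ∩ S).ncard : ℝ) +
      C₁ * (K ^ (-s) * Z ^ (5 / 6 : ℝ) + Z ^ (5 / 6 - δ : ℝ))

/-- `I` is at most a multiple of the height -/
def Blw (C : ℝ) (I : ℤ × ℤ → ℝ) : Prop := ∀ q ∈ Fam, I q ≤ C * ht q

theorem Btw.blw {c C : ℝ} {I : ℤ × ℤ → ℝ} (h : Btw c C I) : Blw C I := fun q hq => (h q hq).2

/-- the part of small height and the tail -/
theorem split {s β c C : ℝ} (hs : 0 < s) (hs6 : s < 1 / 6) (hβ : 0 < β) (hβ2 : β < 10 / 7) (hc : 0 < c)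
    {I : ℤ × ℤ → ℝ} (hI : Btw c C I) : Spt s I β := by
  obtain ⟨C₀, δ, hC₀, hδ, ht'⟩ := card_tail s β hs hs6 hβ hβ2
  set m : ℝ := max 1 (1 / c) with hm
  have hm1 : 1 ≤ m := le_max_left _ _
  have hmc : 1 ≤ m * c := by
    have h1 : 1 / c ≤ m := le_max_right _ _
    rw [div_le_iff₀ hc] at h1
    exact h1
  refine ⟨C₀ * m, δ, m, by positivity, hδ, hm1, ?_⟩
  intro K Z hK hZ S
  have hZ0 : 0 < Z := by linarith
  have hK0 : 0 < K := by linarith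
  have hm0 : 0 < m := by linarith
  have hmZ : 1 ≤ m * Z := by nlinarith
  obtain ⟨U, hU⟩ : ∃ U : Set (ℤ × ℤ), U = {q | q ∈ Fam ∧ (cnd q : ℝ) ≤ m * Z ∧
    K * (m * Z) < ht q ∧ ht q ≤ (m * Z) ^ β} := ⟨_, rfl⟩
  have hUf : U.Finite := (fin_ht ((m * Z) ^ β)).subset fun q hq => by
    rw [hU] at hq
    exact hq.2.2.2
  have hsub : Upto I β Z ∩ S ⊆ (BH (K * (m * Z)) ∩ S) ∪ U := by
    rintro q ⟨⟨h1, h2, h3⟩, h4⟩
    rcases le_or_gt (ht q) (K * (m * Z)) with h | h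
    · exact Or.inl ⟨⟨h1, h⟩, h4⟩
    · right
      rw [hU]
      refine ⟨h1, ?_, h, ?_⟩
      · have h5 := (hI q h1).1
        have h6 : c * (cnd q : ℝ) ≤ Z := h5.trans h2
        have h7 : (0 : ℝ) ≤ cnd q := Nat.cast_nonneg _
        calc (cnd q : ℝ) ≤ (m * c) * (cnd q : ℝ) := by nlinarith
          _ = m * (c * (cnd q : ℝ)) := by ring
          _ ≤ m * Z := by gcongr
      · refine h3.trans ?_
        apply Real.rpow_le_rpow hZ0.le _ hβ.le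
        nlinarith
  have h1 := (Set.ncard_le_ncard hsub (((BH_fin _).inter_of_left _).union hUf)).trans
    (Set.ncard_union_le _ _)
  have h2 := ht' K (m * Z) hK hmZ hUf.toFinset (by
    intro q hq
    rw [Set.Finite.mem_toFinset, hU] at hq
    exact hq)
  rw [← toFin hUf] at h2
  have h3 : (m * Z) ^ (5 / 6 : ℝ) ≤ m * Z ^ (5 / 6 : ℝ) := by
    rw [Real.mul_rpow hm0.le hZ0.le]
    have : m ^ (5 / 6 : ℝ) ≤ m := by
      calc m ^ (5 / 6 : ℝ) ≤ m ^ (1 : ℝ) := Real.rpow_le_rpow_of_exponent_le hm1 (by norm_num)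
        _ = m := Real.rpow_one m
    gcongr
  have h4 : (m * Z) ^ (5 / 6 - δ : ℝ) ≤ m * Z ^ (5 / 6 - δ : ℝ) := by
    rw [Real.mul_rpow hm0.le hZ0.le]
    have : m ^ (5 / 6 - δ : ℝ) ≤ m := by
      calc m ^ (5 / 6 - δ : ℝ) ≤ m ^ (1 : ℝ) := Real.rpow_le_rpow_of_exponent_le hm1 (by linarith)
        _ = m := Real.rpow_one m
    gcongr
  calc ((Upto I β Z ∩ S).ncard : ℝ) ≤ ((BH (K * (m * Z)) ∩ S).ncard : ℝ) + (U.ncard : ℝ) := by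
        exact_mod_cast h1
    _ ≤ ((BH (K * (m * Z)) ∩ S).ncard : ℝ) + C₀ * (K ^ (-s) * (m * Z) ^ (5 / 6 : ℝ) +
        (m * Z) ^ (5 / 6 - δ : ℝ)) := by gcongr
    _ ≤ ((BH (K * (m * Z)) ∩ S).ncard : ℝ) + C₀ * (K ^ (-s) * (m * Z ^ (5 / 6 : ℝ)) +
        m * Z ^ (5 / 6 - δ : ℝ)) := by gcongr
    _ = _ := by ring

theorem BH_card {Y : ℝ} (hY : 1 ≤ Y) (S : Set (ℤ × ℤ)) :
    ((BH Y ∩ S).ncard : ℝ) ≤ 9 * 432 * Y ^ (5 / 6 : ℝ) := by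
  rw [toFin ((BH_fin Y).inter_of_left S)]
  apply card_ht hY
  intro q hq
  rw [Set.Finite.mem_toFinset] at hq
  exact hq.1.2

/-- the upper bound -/
theorem Spt.up {s β : ℝ} {I : ℤ × ℤ → ℝ} (hI : Spt s I β) : ∃ C₁ : ℝ, 0 < C₁ ∧ ∀ Z : ℝ, 1 ≤ Z →
    ((Upto I β Z).ncard : ℝ) ≤ C₁ * Z ^ (5 / 6 : ℝ) := by
  obtain ⟨C₀, δ, m, hC₀, hδ, hm, h⟩ := hI
  refine ⟨9 * 432 * m + 2 * C₀, by positivity, ?_⟩
  intro Z hZ
  have hZ0 : 0 < Z := by linarith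
  have h1 := h 1 Z le_rfl hZ Set.univ
  rw [Set.inter_univ, one_mul, Real.one_rpow, one_mul] at h1
  have h2 := BH_card (Y := m * Z) (by nlinarith) Set.univ
  have h3 : (m * Z) ^ (5 / 6 : ℝ) ≤ m * Z ^ (5 / 6 : ℝ) := by
    rw [Real.mul_rpow (by linarith) hZ0.le]
    have : m ^ (5 / 6 : ℝ) ≤ m := by
      calc m ^ (5 / 6 : ℝ) ≤ m ^ (1 : ℝ) := Real.rpow_le_rpow_of_exponent_le hm (by norm_num)
        _ = m := Real.rpow_one m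
    gcongr
  have h4 : Z ^ (5 / 6 - δ : ℝ) ≤ Z ^ (5 / 6 : ℝ) :=
    Real.rpow_le_rpow_of_exponent_le hZ (by linarith)
  have h5 : C₀ * Z ^ (5 / 6 - δ : ℝ) ≤ C₀ * Z ^ (5 / 6 : ℝ) := by gcongr
  nlinarith

/-- all pairs of height at most `Z / C` are counted -/
theorem low_sub {β C : ℝ} (hβ : 1 ≤ β) (hC : 1 ≤ C) {I : ℤ × ℤ → ℝ} (hI : Blw C I) {Z : ℝ}
    (hZ : 1 ≤ Z) : BH (Z / C) ⊆ Upto I β Z := by
  rintro q ⟨h1, h2⟩
  have hC0 : 0 < C := by linarith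
  refine ⟨h1, ?_, ?_⟩
  · refine (hI q h1).trans ?_
    rw [le_div_iff₀ hC0] at h2
    linarith
  · refine h2.trans ?_
    calc Z / C ≤ Z := div_le_self (by linarith) hC
      _ = Z ^ (1 : ℝ) := (Real.rpow_one Z).symm
      _ ≤ Z ^ β := Real.rpow_le_rpow_of_exponent_le hZ hβ

theorem Blw.mono {C C' : ℝ} {I : ℤ × ℤ → ℝ} (hI : Blw C I) (h : C ≤ C') : Blw C' I := by
  intro q hq
  refine (hI q hq).trans ?_
  have : 0 ≤ ht q := by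
    unfold ht
    exact le_max_of_le_left (by positivity)
  gcongr

/-- the lower bound -/
theorem low {β C : ℝ} (hβ : 1 ≤ β) {I : ℤ × ℤ → ℝ} (hI : Blw C I) :
    ∃ c₁ : ℝ, 0 < c₁ ∧ ∀ᶠ Z : ℝ in atTop, c₁ * Z ^ (5 / 6 : ℝ) ≤ ((Upto I β Z).ncard : ℝ) := by
  obtain ⟨c₀, hc₀, h⟩ := card_BH_low
  obtain ⟨M, hM⟩ : ∃ M, M = max C 1 := ⟨_, rfl⟩
  have hM1 : 1 ≤ M := by rw [hM]; exact le_max_right _ _
  have hI' : Blw M I := hI.mono (by rw [hM]; exact le_max_left _ _)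
  have hM0 : 0 < M := by linarith
  refine ⟨c₀ * (1 / M) ^ (5 / 6 : ℝ), by positivity, ?_⟩
  filter_upwards [eventually_ge_atTop (1000 * M), eventually_ge_atTop 1] with Z hZ hZ1
  have hZ0 : 0 < Z := by linarith
  have h1 := h (Z / M) (by rw [le_div_iff₀ hM0]; linarith)
  have h2 := Set.ncard_le_ncard (low_sub hβ hM1 hI' hZ1) (Upto_fin I β Z)
  calc c₀ * (1 / M) ^ (5 / 6 : ℝ) * Z ^ (5 / 6 : ℝ) = c₀ * (Z / M) ^ (5 / 6 : ℝ) := by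
        rw [mul_assoc, ← Real.mul_rpow (by positivity) hZ0.le]
        congr 2
        ring
    _ ≤ ((BH (Z / M)).ncard : ℝ) := h1
    _ ≤ _ := by exact_mod_cast h2

/-- positive lower densities are transferred -/
theorem pos {β C : ℝ} (hβ : 1 ≤ β) {I : ℤ × ℤ → ℝ} (hU : ∃ C₁ : ℝ, 0 < C₁ ∧ ∀ Z : ℝ, 1 ≤ Z →
    ((Upto I β Z).ncard : ℝ) ≤ C₁ * Z ^ (5 / 6 : ℝ)) (hI : Blw C I) {S : Set (ℤ × ℤ)}
    (hS : ∃ c₀ : ℝ, 0 < c₀ ∧ ∀ᶠ Y : ℝ in atTop, c₀ * Y ^ (5 / 6 : ℝ) ≤ ((BH Y ∩ S).ncard : ℝ)) :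
    ∃ c₁ : ℝ, 0 < c₁ ∧ ∀ᶠ Z : ℝ in atTop, 0 < (Upto I β Z).ncard ∧
      c₁ * ((Upto I β Z).ncard : ℝ) ≤ ((Upto I β Z ∩ S).ncard : ℝ) := by
  obtain ⟨C₁, hC₁, hup⟩ := hU
  obtain ⟨c₀, hc₀, hS'⟩ := hS
  obtain ⟨c₂, hc₂, hlow⟩ := low hβ hI
  obtain ⟨M, hM⟩ : ∃ M, M = max C 1 := ⟨_, rfl⟩
  have hM1 : 1 ≤ M := by rw [hM]; exact le_max_right _ _
  have hI' : Blw M I := hI.mono (by rw [hM]; exact le_max_left _ _)
  have hM0 : 0 < M := by linarith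
  have hdiv : Tendsto (fun Z : ℝ => Z / M) atTop atTop := tendsto_id.atTop_div_const hM0
  refine ⟨c₀ * (1 / M) ^ (5 / 6 : ℝ) / C₁, by positivity, ?_⟩
  filter_upwards [hlow, hdiv.eventually hS', eventually_ge_atTop 1] with Z h1 h2 hZ1
  have hZ0 : 0 < Z := by linarith
  have hZp : 0 < Z ^ (5 / 6 : ℝ) := by positivity
  constructor
  · have h3 : (0 : ℝ) < ((Upto I β Z).ncard : ℝ) := lt_of_lt_of_le (by positivity) h1
    exact_mod_cast h3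
  · have h3 : BH (Z / M) ∩ S ⊆ Upto I β Z ∩ S :=
      Set.inter_subset_inter_left S (low_sub hβ hM1 hI' hZ1)
    have h4 := Set.ncard_le_ncard h3 ((Upto_fin I β Z).inter_of_left S)
    have h5 := hup Z hZ1
    calc c₀ * (1 / M) ^ (5 / 6 : ℝ) / C₁ * ((Upto I β Z).ncard : ℝ)
        ≤ c₀ * (1 / M) ^ (5 / 6 : ℝ) / C₁ * (C₁ * Z ^ (5 / 6 : ℝ)) := by gcongr
      _ = c₀ * ((1 / M) ^ (5 / 6 : ℝ) * Z ^ (5 / 6 : ℝ)) := by field_simp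
      _ = c₀ * (Z / M) ^ (5 / 6 : ℝ) := by
        rw [← Real.mul_rpow (by positivity) hZ0.le]
        congr 2
        ring
      _ ≤ ((BH (Z / M) ∩ S).ncard : ℝ) := h2
      _ ≤ _ := by exact_mod_cast h4

/-- sets of density zero are transferred -/
theorem zero {s β C : ℝ} (hs : 0 < s) (hβ : 1 ≤ β) {I : ℤ × ℤ → ℝ} (hsp : Spt s I β)
    (hI : Blw C I) {S : Set (ℤ × ℤ)}
    (hS : Tendsto (fun Y : ℝ => ((BH Y ∩ S).ncard : ℝ) / Y ^ (5 / 6 : ℝ)) atTop (𝓝 0)) :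
    Tendsto (fun Z : ℝ => ((Upto I β Z ∩ S).ncard : ℝ) / ((Upto I β Z).ncard : ℝ)) atTop (𝓝 0) := by
  obtain ⟨C₁, δ, m, hC₁, hδ, hm, h⟩ := hsp
  obtain ⟨c₂, hc₂, hlow⟩ := low hβ hI
  have hm0 : 0 < m := by linarith
  have key : Tendsto (fun Z : ℝ => ((Upto I β Z ∩ S).ncard : ℝ) / Z ^ (5 / 6 : ℝ)) atTop (𝓝 0) := by
    rw [Metric.tendsto_atTop]
    intro ε hε
    obtain ⟨K, hK, hK1⟩ : ∃ K : ℝ, 1 ≤ K ∧ C₁ * K ^ (-s) < ε / 3 := by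
      have h1 : Tendsto (fun K : ℝ => C₁ * K ^ (-s)) atTop (𝓝 (C₁ * 0)) :=
        (tendsto_rpow_neg_atTop hs).const_mul C₁
      rw [mul_zero] at h1
      have h2 := (h1.eventually (gt_mem_nhds (show (0 : ℝ) < ε / 3 by positivity))).and
        (eventually_ge_atTop (1 : ℝ))
      obtain ⟨K, hK⟩ := h2.exists
      exact ⟨K, hK.2, hK.1⟩
    have hK0 : 0 < K := by linarith
    have hKm : 0 < K * m := by positivity
    have hp : 0 < (K * m) ^ (5 / 6 : ℝ) := by positivity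
    have h1 : Tendsto (fun Z : ℝ => K * (m * Z)) atTop atTop := by
      apply Tendsto.const_mul_atTop hK0
      exact Tendsto.const_mul_atTop hm0 tendsto_id
    have h2 := (hS.comp h1).eventually (gt_mem_nhds (show (0 : ℝ) < ε / 3 / (K * m) ^ (5 / 6 : ℝ) by
      positivity))
    have h3 : Tendsto (fun Z : ℝ => C₁ * Z ^ (-δ)) atTop (𝓝 (C₁ * 0)) :=
      (tendsto_rpow_neg_atTop hδ).const_mul C₁
    rw [mul_zero] at h3
    have h4 := h3.eventually (gt_mem_nhds (show (0 : ℝ) < ε / 3 by positivity))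
    have h5 := (h2.and h4).and (eventually_ge_atTop (1 : ℝ))
    rw [eventually_atTop] at h5
    obtain ⟨N, hN⟩ := h5
    refine ⟨N, fun Z hZ => ?_⟩
    obtain ⟨⟨k1, k2⟩, k3⟩ := hN Z hZ
    have hZ0 : 0 < Z := by linarith
    have hZp : 0 < Z ^ (5 / 6 : ℝ) := by positivity
    rw [Real.dist_eq, sub_zero, abs_of_nonneg (by positivity), div_lt_iff₀ hZp]
    simp only [Function.comp] at k1
    have e1 : (K * (m * Z)) ^ (5 / 6 : ℝ) = (K * m) ^ (5 / 6 : ℝ) * Z ^ (5 / 6 : ℝ) := by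
      rw [← mul_assoc, Real.mul_rpow hKm.le hZ0.le]
    rw [e1, div_lt_div_iff₀ (by positivity) hp] at k1
    have k4 : ((BH (K * (m * Z)) ∩ S).ncard : ℝ) < ε / 3 * Z ^ (5 / 6 : ℝ) := by
      have : ((BH (K * (m * Z)) ∩ S).ncard : ℝ) * (K * m) ^ (5 / 6 : ℝ) <
          (ε / 3 * Z ^ (5 / 6 : ℝ)) * (K * m) ^ (5 / 6 : ℝ) := by linarith
      exact lt_of_mul_lt_mul_right this hp.le
    have e2 : Z ^ (5 / 6 - δ : ℝ) = Z ^ (-δ) * Z ^ (5 / 6 : ℝ) := by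
      rw [← Real.rpow_add hZ0]
      congr 1
      ring
    calc ((Upto I β Z ∩ S).ncard : ℝ) ≤ ((BH (K * (m * Z)) ∩ S).ncard : ℝ) +
          C₁ * (K ^ (-s) * Z ^ (5 / 6 : ℝ) + Z ^ (5 / 6 - δ : ℝ)) := h K Z hK k3 S
      _ = ((BH (K * (m * Z)) ∩ S).ncard : ℝ) + (C₁ * K ^ (-s)) * Z ^ (5 / 6 : ℝ) +
          (C₁ * Z ^ (-δ)) * Z ^ (5 / 6 : ℝ) := by rw [e2]; ring
      _ < ε / 3 * Z ^ (5 / 6 : ℝ) + ε / 3 * Z ^ (5 / 6 : ℝ) + ε / 3 * Z ^ (5 / 6 : ℝ) := by gcongr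
      _ = ε * Z ^ (5 / 6 : ℝ) := by ring
  have h6 : ∀ᶠ Z : ℝ in atTop, ((Upto I β Z ∩ S).ncard : ℝ) / ((Upto I β Z).ncard : ℝ) ≤
      (1 / c₂) * (((Upto I β Z ∩ S).ncard : ℝ) / Z ^ (5 / 6 : ℝ)) := by
    filter_upwards [hlow, eventually_gt_atTop 0] with Z h1 hZ0
    have hZp : 0 < Z ^ (5 / 6 : ℝ) := by positivity
    calc ((Upto I β Z ∩ S).ncard : ℝ) / ((Upto I β Z).ncard : ℝ)
        ≤ ((Upto I β Z ∩ S).ncard : ℝ) / (c₂ * Z ^ (5 / 6 : ℝ)) := by gcongr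
      _ = _ := by field_simp
  have h7 := key.const_mul (1 / c₂)
  rw [mul_zero] at h7
  exact squeeze_zero' (Eventually.of_forall fun Z => by positivity) h6 h7

end Pool.Agent.L0h45.AD
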