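import Mathlib
import Pool.Agent.L0h45.AD.Trn

/-!
# The order by the discriminant
-/

set_option autoImplicit false

namespace Pool.Agent.L0h45.AD

open Finset
open scoped Classical

/-- near the curve `x³ = y²` -/
theorem dtail (W Y : ℝ) (hW : 1 ≤ W) (hY : 0 ≤ Y) : ∀ (n : ℕ) (X : ℝ), W / 2 < X → X ≤ 2 ^ n * W →
    ∀ S : Finset (ℤ × ℤ),
    (∀ e ∈ S, e.1 ≠ 0 ∧ |(e.1 : ℝ)| ≤ X ^ 2 ∧ |(e.2 : ℝ)| ≤ X ^ 3 ∧
      (W ^ 6 < |(e.1 : ℝ)| ^ 3 ∨ W ^ 6 < (e.2 : ℝ) ^ 2) ∧ |(e.1 : ℝ) ^ 3 - (e.2 : ℝ) ^ 2| ≤ Y) →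
    (S.card : ℝ) ≤ 4096 * Y * (2 / W - 1 / X) + 16 * X ^ 2 := by
  have hW0 : 0 < W := by linarith
  have hempty : ∀ X : ℝ, W / 2 < X → X ≤ W → ∀ S : Finset (ℤ × ℤ),
      (∀ e ∈ S, e.1 ≠ 0 ∧ |(e.1 : ℝ)| ≤ X ^ 2 ∧ |(e.2 : ℝ)| ≤ X ^ 3 ∧
      (W ^ 6 < |(e.1 : ℝ)| ^ 3 ∨ W ^ 6 < (e.2 : ℝ) ^ 2) ∧ |(e.1 : ℝ) ^ 3 - (e.2 : ℝ) ^ 2| ≤ Y) →
      (S.card : ℝ) ≤ 4096 * Y * (2 / W - 1 / X) + 16 * X ^ 2 := by
    intro X hX1 hX2 S hS
    have hX0 : 0 < X := by linarith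
    have hS0 : S = ∅ := by
      rw [eq_empty_iff_forall_notMem]
      intro e he
      obtain ⟨-, k3, k4, k5, -⟩ := hS e he
      rcases k5 with k5 | k5
      · have h3 : |(e.1 : ℝ)| ^ 3 ≤ W ^ 6 := by
          calc |(e.1 : ℝ)| ^ 3 ≤ (X ^ 2) ^ 3 := by gcongr
            _ = X ^ 6 := by ring
            _ ≤ W ^ 6 := by gcongr
        linarith
      · have h3 : (e.2 : ℝ) ^ 2 ≤ W ^ 6 := by
          rw [← sq_abs]
          calc |(e.2 : ℝ)| ^ 2 ≤ (X ^ 3) ^ 2 := by gcongr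
            _ = X ^ 6 := by ring
            _ ≤ W ^ 6 := by gcongr
        linarith
    have h1 : 1 / X ≤ 2 / W := by
      rw [div_le_div_iff₀ hX0 hW0]
      linarith
    rw [hS0, card_empty, Nat.cast_zero]
    have h4 : 0 ≤ 4096 * Y * (2 / W - 1 / X) := mul_nonneg (by positivity) (by linarith)
    positivity
  intro n
  induction n with
  | zero =>
    intro X hX1 hX2 S hS
    rw [pow_zero, one_mul] at hX2
    exact hempty X hX1 hX2 S hS
  | succ n ih =>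
    intro X hX1 hX2 S hS
    rcases le_or_gt X W with hlt | hge
    · exact hempty X hX1 hlt S hS
    have hX0 : 0 < X := by linarith
    have hsplit := card_filter_add_card_filter_not (s := S)
      (fun e => |(e.1 : ℝ)| ≤ (X / 2) ^ 2 ∧ |(e.2 : ℝ)| ≤ (X / 2) ^ 3)
    have a1 := ih (X / 2) (by linarith) (by rw [pow_succ] at hX2; linarith)
      (S.filter (fun e => |(e.1 : ℝ)| ≤ (X / 2) ^ 2 ∧ |(e.2 : ℝ)| ≤ (X / 2) ^ 3)) (by
        intro e he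
        rw [mem_filter] at he
        obtain ⟨k1, -, -, k5, k6⟩ := hS e he.1
        exact ⟨k1, he.2.1, he.2.2, k5, k6⟩)
    have a2 := key_count X Y (by linarith) hY 1 1 le_rfl le_rfl
      (S.filter (fun e => ¬ (|(e.1 : ℝ)| ≤ (X / 2) ^ 2 ∧ |(e.2 : ℝ)| ≤ (X / 2) ^ 3))) (by
        intro e he
        rw [mem_filter] at he
        obtain ⟨k1, k3, k4, k5, k6⟩ := hS e he.1
        refine ⟨k1, k3, ?_, k6, by simp⟩
        have h2 := he.2
        rw [not_and_or, not_le, not_le] at h2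
        rcases h2 with h2 | h2
        · left
          calc X ^ 6 / 64 = ((X / 2) ^ 2) ^ 3 := by ring
            _ < |(e.1 : ℝ)| ^ 3 := by gcongr
        · right
          rw [← sq_abs (e.2 : ℝ)]
          calc X ^ 6 / 64 = ((X / 2) ^ 3) ^ 2 := by ring
            _ < |(e.2 : ℝ)| ^ 2 := by gcongr) (by
        intro e _ e' _ _ p _
        left
        simp)
    simp only [Nat.divisors_one, card_singleton, Nat.cast_one, one_mul, mul_one, div_one] at a2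
    have h3 : (S.card : ℝ) = ((S.filter (fun e => |(e.1 : ℝ)| ≤ (X / 2) ^ 2 ∧
        |(e.2 : ℝ)| ≤ (X / 2) ^ 3)).card : ℝ) + ((S.filter (fun e => ¬ (|(e.1 : ℝ)| ≤ (X / 2) ^ 2 ∧
        |(e.2 : ℝ)| ≤ (X / 2) ^ 3))).card : ℝ) := by
      exact_mod_cast hsplit.symm
    rw [h3]
    have e1 : 1 / (X / 2) = 2 * (1 / X) := by field_simp
    rw [e1] at a1
    have e2 : Y / X = Y * (1 / X) := by ring
    rw [e2] at a2
    have h5 : 0 ≤ Y * (1 / X) := by positivity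
    nlinarith

/-- the upper bound for the order by the discriminant -/
theorem up_disc {β c : ℝ} (hβ : 0 < β) (hβ2 : β ≤ 5 / 2) (hc : 0 < c) {I : ℤ × ℤ → ℝ}
    (hI : ∀ q ∈ Fam, c * |(((4 * q.1 ^ 3 + 27 * q.2 ^ 2 : ℤ)) : ℝ)| ≤ I q) :
    ∃ C₁ : ℝ, 0 < C₁ ∧ ∀ Z : ℝ, 1 ≤ Z →
    ((Upto I β Z).ncard : ℝ) ≤ C₁ * Z ^ (5 / 6 : ℝ) := by
  set m : ℝ := max 1 (1 / c) with hm
  have hm1 : 1 ≤ m := le_max_left _ _
  have hmc : 1 ≤ m * c := by
    have h1 : 1 / c ≤ m := le_max_right _ _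
    rw [div_le_iff₀ hc] at h1
    exact h1
  have hm0 : 0 < m := by linarith
  refine ⟨(9 * 432 + 8192 * 432 + 16 * 432) * m, by positivity, ?_⟩
  intro Z hZ
  have hZ0 : 0 < Z := by linarith
  obtain ⟨Z₁, hZ₁⟩ : ∃ Z₁, Z₁ = m * Z := ⟨_, rfl⟩
  have hZ₁1 : 1 ≤ Z₁ := by rw [hZ₁]; nlinarith
  have hZ₁0 : 0 < Z₁ := by linarith
  rw [toFin (Upto_fin I β Z)]
  set T : Finset (ℤ × ℤ) := (Upto_fin I β Z).toFinset with hT
  have hTm : ∀ q ∈ T, q ∈ Fam ∧ |(((4 * q.1 ^ 3 + 27 * q.2 ^ 2 : ℤ)) : ℝ)| ≤ Z₁ ∧ ht q ≤ Z₁ ^ β := by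
    intro q hq
    rw [hT, Set.Finite.mem_toFinset] at hq
    obtain ⟨h1, h2, h3⟩ := hq
    refine ⟨h1, ?_, ?_⟩
    · have h6 := (hI q h1).trans h2
      have h7 : 0 ≤ |(((4 * q.1 ^ 3 + 27 * q.2 ^ 2 : ℤ)) : ℝ)| := abs_nonneg _
      rw [hZ₁]
      calc |(((4 * q.1 ^ 3 + 27 * q.2 ^ 2 : ℤ)) : ℝ)|
          ≤ (m * c) * |(((4 * q.1 ^ 3 + 27 * q.2 ^ 2 : ℤ)) : ℝ)| := by nlinarith
        _ = m * (c * |(((4 * q.1 ^ 3 + 27 * q.2 ^ 2 : ℤ)) : ℝ)|) := by ring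
        _ ≤ m * Z := by gcongr
    · refine h3.trans ?_
      apply Real.rpow_le_rpow hZ0.le _ hβ.le
      rw [hZ₁]
      nlinarith
  have hsplit := card_filter_add_card_filter_not (s := T) (fun q => ht q ≤ Z₁)
  have b1 := card_ht hZ₁1 (T.filter (fun q => ht q ≤ Z₁)) fun q hq => (mem_filter.mp hq).2
  have hm56 : Z₁ ^ (5 / 6 : ℝ) ≤ m * Z ^ (5 / 6 : ℝ) := by
    rw [hZ₁, Real.mul_rpow hm0.le hZ0.le]
    have : m ^ (5 / 6 : ℝ) ≤ m := by
      calc m ^ (5 / 6 : ℝ) ≤ m ^ (1 : ℝ) := Real.rpow_le_rpow_of_exponent_le hm1 (by norm_num)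
        _ = m := Real.rpow_one m
    gcongr
  have b2 : ((T.filter (fun q => ¬ ht q ≤ Z₁)).card : ℝ) ≤ (8192 * 432 + 16 * 432) * Z₁ ^ (5 / 6 : ℝ) := by
    rcases (T.filter (fun q => ¬ ht q ≤ Z₁)).eq_empty_or_nonempty with h0 | ⟨q₀, hq₀⟩
    · rw [h0, card_empty, Nat.cast_zero]
      positivity
    rw [mem_filter, not_le] at hq₀
    have hlt : Z₁ < Z₁ ^ β := lt_of_lt_of_le hq₀.2 (hTm q₀ hq₀.1).2.2
    obtain ⟨W, hW, hW6⟩ := exists_root6 hZ₁0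
    obtain ⟨X, hX, hX6⟩ := exists_root6 (show 0 < Z₁ ^ β by positivity)
    have hW1 : 1 ≤ W := by
      by_contra hcon
      push Not at hcon
      have : W ^ 6 < 1 := pow_lt_one₀ hW.le hcon (by norm_num)
      linarith
    have hWX : W < X := by
      by_contra hcon
      push Not at hcon
      have : X ^ 6 ≤ W ^ 6 := by gcongr
      linarith
    obtain ⟨n, hn⟩ : ∃ n : ℕ, X / W ≤ 2 ^ n :=
      (pow_unbounded_of_one_lt (X / W) one_lt_two).imp fun n h => h.le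
    rw [div_le_iff₀ hW] at hn
    have h1 := dtail W (432 * Z₁) hW1 (by positivity) n X (by linarith) hn
      ((T.filter (fun q => ¬ ht q ≤ Z₁)).image phi) (by
      intro e he
      rw [mem_image] at he
      obtain ⟨q, hq, rfl⟩ := he
      rw [mem_filter, not_le] at hq
      obtain ⟨k1, k2, k3⟩ := hTm q hq.1
      obtain ⟨m1, m2⟩ := (ht_le_iff q hX hX6).mp k3
      refine ⟨?_, m1, m2, ?_, ?_⟩
      · intro h0
        have h5 : q.1 = 0 := by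
          unfold phi at h0
          simp only at h0
          omega
        have h6 : ht q = |(((4 * q.1 ^ 3 + 27 * q.2 ^ 2 : ℤ)) : ℝ)| := by
          unfold ht
          rw [h5]
          push_cast
          have h7 : 4 * (0 : ℝ) ^ 3 ≤ 27 * (q.2 : ℝ) ^ 2 := by
            have : 0 ≤ 27 * (q.2 : ℝ) ^ 2 := by positivity
            linarith
          rw [abs_zero, max_eq_right h7, abs_of_nonneg (by positivity)]
          ring
        rw [← h6] at k2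
        linarith [hq.2]
      · by_contra hcon
        rw [not_or, not_lt, not_lt] at hcon
        obtain ⟨c1, c2⟩ := hcon
        have h5 : ht q ≤ Z₁ := by
          rw [ht_le_iff q hW hW6]
          constructor
          · rw [← pow_le_pow_iff_left₀ (abs_nonneg _) (by positivity) (three_ne_zero)]
            calc _ ≤ W ^ 6 := c1
              _ = _ := by ring
          · rw [← pow_le_pow_iff_left₀ (abs_nonneg _) (by positivity) (two_ne_zero), sq_abs]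
            calc _ ≤ W ^ 6 := c2
              _ = _ := by ring
        linarith [hq.2]
      · have h5 : ((phi q).1 : ℝ) ^ 3 - ((phi q).2 : ℝ) ^ 2 =
            -432 * (((4 * q.1 ^ 3 + 27 * q.2 ^ 2 : ℤ)) : ℝ) := by
          have := phi_disc q
          exact_mod_cast this
        rw [h5, abs_mul]
        norm_num
        exact_mod_cast k2)
    rw [card_image_of_injective _ phi_inj] at h1
    have e1 : Z₁ / W ≤ Z₁ ^ (5 / 6 : ℝ) := by
      rw [div_le_iff₀ hW]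
      have h2 : Z₁ ^ (1 / 6 : ℝ) ≤ W := by
        have h3 : W = (432 * Z₁) ^ (1 / 6 : ℝ) := by
          rw [← hW6, ← Real.rpow_natCast, ← Real.rpow_mul hW.le]
          norm_num
        rw [h3]
        apply Real.rpow_le_rpow hZ₁0.le _ (by norm_num)
        linarith
      calc Z₁ = Z₁ ^ (5 / 6 : ℝ) * Z₁ ^ (1 / 6 : ℝ) := by
            rw [← Real.rpow_add hZ₁0]
            norm_num
        _ ≤ Z₁ ^ (5 / 6 : ℝ) * W := by gcongr
    have e2 : X ^ 2 ≤ 432 * Z₁ ^ (5 / 6 : ℝ) := by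
      have h3 : X ^ 2 = (432 * Z₁ ^ β) ^ (1 / 3 : ℝ) := by
        rw [← hX6, ← Real.rpow_natCast X 6, ← Real.rpow_mul hX.le, ← Real.rpow_natCast]
        norm_num
      rw [h3, Real.mul_rpow (by norm_num) (by positivity), ← Real.rpow_mul hZ₁0.le]
      have h4 : (432 : ℝ) ^ (1 / 3 : ℝ) ≤ 432 := by
        calc (432 : ℝ) ^ (1 / 3 : ℝ) ≤ 432 ^ (1 : ℝ) :=
              Real.rpow_le_rpow_of_exponent_le (by norm_num) (by norm_num)
          _ = 432 := Real.rpow_one _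
      have h5 : Z₁ ^ (β * (1 / 3)) ≤ Z₁ ^ (5 / 6 : ℝ) :=
        Real.rpow_le_rpow_of_exponent_le hZ₁1 (by linarith)
      gcongr
    have hX0 : 0 < 1 / X := by positivity
    calc ((T.filter (fun q => ¬ ht q ≤ Z₁)).card : ℝ)
        ≤ 4096 * (432 * Z₁) * (2 / W - 1 / X) + 16 * X ^ 2 := h1
      _ ≤ 4096 * (432 * Z₁) * (2 / W) + 16 * X ^ 2 := by
          gcongr
          linarith
      _ = 8192 * 432 * (Z₁ / W) + 16 * X ^ 2 := by ring
      _ ≤ 8192 * 432 * Z₁ ^ (5 / 6 : ℝ) + 16 * (432 * Z₁ ^ (5 / 6 : ℝ)) := by gcongr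
      _ = _ := by ring
  have h3 : (T.card : ℝ) = ((T.filter (fun q => ht q ≤ Z₁)).card : ℝ) +
      ((T.filter (fun q => ¬ ht q ≤ Z₁)).card : ℝ) := by exact_mod_cast hsplit.symm
  rw [h3]
  calc _ ≤ 9 * 432 * Z₁ ^ (5 / 6 : ℝ) + (8192 * 432 + 16 * 432) * Z₁ ^ (5 / 6 : ℝ) := by linarith
    _ = (9 * 432 + 8192 * 432 + 16 * 432) * Z₁ ^ (5 / 6 : ℝ) := by ring
    _ ≤ (9 * 432 + 8192 * 432 + 16 * 432) * (m * Z ^ (5 / 6 : ℝ)) := by gcongr
    _ = _ := by ring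

end Pool.Agent.L0h45.AD
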