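import Mathlib
import Pool.Agent.L0h45.AD.Dsc
import Pool.Agent.L0h45.FM.Lev

/-!
# No congruences at any level, for almost all curves by conductor and by discriminant
-/

set_option autoImplicit false

namespace Pool.Agent.L0h45.AD

open Filter Topology Finset
open scoped Classical
open Pool.Agent.L0h45.FM (Bad)

/-- almost all curves have a height of the size of the discriminant -/
theorem split_disc {β c : ℝ} (hβ : 0 < β) (hβ2 : β < 5 / 2) (hc : 0 < c) {I : ℤ × ℤ → ℝ}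
    (hI : ∀ q ∈ Fam, c * |(((4 * q.1 ^ 3 + 27 * q.2 ^ 2 : ℤ)) : ℝ)| ≤ I q) :
    Spt (1 / 6) I β := by
  set m : ℝ := max 1 (1 / c) with hm
  have hm1 : 1 ≤ m := le_max_left _ _
  have hmc : 1 ≤ m * c := by
    have h1 : 1 / c ≤ m := le_max_right _ _
    rw [div_le_iff₀ hc] at h1
    exact h1
  have hm0 : 0 < m := by linarith
  obtain ⟨δ, hδ⟩ : ∃ δ : ℝ, δ = 5 / 6 - β / 3 := ⟨_, rfl⟩
  have hδ0 : 0 < δ := by rw [hδ]; linarith
  refine ⟨(8192 * 432 + 16 * 432) * m, δ, m, by positivity, hδ0, hm1, ?_⟩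
  intro K Z hK hZ S
  have hZ0 : 0 < Z := by linarith
  have hK0 : 0 < K := by linarith
  obtain ⟨Z₁, hZ₁⟩ : ∃ Z₁, Z₁ = m * Z := ⟨_, rfl⟩
  have hZ₁1 : 1 ≤ Z₁ := by rw [hZ₁]; nlinarith
  have hZ₁0 : 0 < Z₁ := by linarith
  obtain ⟨U, hU⟩ : ∃ U : Set (ℤ × ℤ), U = {q | q ∈ Fam ∧
    |(((4 * q.1 ^ 3 + 27 * q.2 ^ 2 : ℤ)) : ℝ)| ≤ Z₁ ∧ K * Z₁ < ht q ∧ ht q ≤ Z₁ ^ β} := ⟨_, rfl⟩
  have hUf : U.Finite := (fin_ht (Z₁ ^ β)).subset fun q hq => by
    rw [hU] at hq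
    exact hq.2.2.2
  have hsub : Upto I β Z ∩ S ⊆ (BH (K * (m * Z)) ∩ S) ∪ U := by
    rintro q ⟨⟨h1, h2, h3⟩, h4⟩
    rcases le_or_gt (ht q) (K * (m * Z)) with h | h
    · exact Or.inl ⟨⟨h1, h⟩, h4⟩
    · right
      rw [hU]
      refine ⟨h1, ?_, by rw [hZ₁]; exact h, ?_⟩
      · have h6 := (hI q h1).trans h2
        have h7 : 0 ≤ |(((4 * q.1 ^ 3 + 27 * q.2 ^ 2 : ℤ)) : ℝ)| := abs_nonneg _
        rw [hZ₁]
        calc |(((4 * q.1 ^ 3 + 27 * q.2 ^ 2 : ℤ)) : ℝ)|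
            ≤ (m * c) * |(((4 * q.1 ^ 3 + 27 * q.2 ^ 2 : ℤ)) : ℝ)| := by nlinarith
          _ = m * (c * |(((4 * q.1 ^ 3 + 27 * q.2 ^ 2 : ℤ)) : ℝ)|) := by ring
          _ ≤ m * Z := by gcongr
      · refine h3.trans ?_
        apply Real.rpow_le_rpow hZ0.le _ hβ.le
        rw [hZ₁]
        nlinarith
  have h1 := (Set.ncard_le_ncard hsub (((BH_fin _).inter_of_left _).union hUf)).trans
    (Set.ncard_union_le _ _)
  have hm56 : Z₁ ^ (5 / 6 : ℝ) ≤ m * Z ^ (5 / 6 : ℝ) := by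
    rw [hZ₁, Real.mul_rpow hm0.le hZ0.le]
    have : m ^ (5 / 6 : ℝ) ≤ m := by
      calc m ^ (5 / 6 : ℝ) ≤ m ^ (1 : ℝ) := Real.rpow_le_rpow_of_exponent_le hm1 (by norm_num)
        _ = m := Real.rpow_one m
    gcongr
  have hmβ : Z₁ ^ (5 / 6 - δ : ℝ) ≤ m * Z ^ (5 / 6 - δ : ℝ) := by
    rw [hZ₁, Real.mul_rpow hm0.le hZ0.le]
    have : m ^ (5 / 6 - δ : ℝ) ≤ m := by
      calc m ^ (5 / 6 - δ : ℝ) ≤ m ^ (1 : ℝ) := Real.rpow_le_rpow_of_exponent_le hm1 (by linarith)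
        _ = m := Real.rpow_one m
    gcongr
  have b2 : (U.ncard : ℝ) ≤ 8192 * 432 * (K ^ (-(1 / 6) : ℝ) * Z₁ ^ (5 / 6 : ℝ)) +
      16 * 432 * Z₁ ^ (5 / 6 - δ : ℝ) := by
    rw [toFin hUf]
    set T : Finset (ℤ × ℤ) := hUf.toFinset with hT
    have hTm : ∀ q ∈ T, q ∈ Fam ∧ |(((4 * q.1 ^ 3 + 27 * q.2 ^ 2 : ℤ)) : ℝ)| ≤ Z₁ ∧
        K * Z₁ < ht q ∧ ht q ≤ Z₁ ^ β := by
      intro q hq
      rw [hT, Set.Finite.mem_toFinset, hU] at hq
      exact hq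
    rcases T.eq_empty_or_nonempty with h0 | ⟨q₀, hq₀⟩
    · rw [h0, card_empty, Nat.cast_zero]
      positivity
    have hlt : K * Z₁ < Z₁ ^ β := lt_of_lt_of_le (hTm q₀ hq₀).2.2.1 (hTm q₀ hq₀).2.2.2
    obtain ⟨W, hW, hW6⟩ := exists_root6 (show 0 < K * Z₁ by positivity)
    obtain ⟨X, hX, hX6⟩ := exists_root6 (show 0 < Z₁ ^ β by positivity)
    have hW1 : 1 ≤ W := by
      by_contra hcon
      push Not at hcon
      have : W ^ 6 < 1 := pow_lt_one₀ hW.le hcon (by norm_num)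
      nlinarith
    have hWX : W < X := by
      by_contra hcon
      push Not at hcon
      have : X ^ 6 ≤ W ^ 6 := by gcongr
      linarith
    obtain ⟨n, hn⟩ : ∃ n : ℕ, X / W ≤ 2 ^ n :=
      (pow_unbounded_of_one_lt (X / W) one_lt_two).imp fun n h => h.le
    rw [div_le_iff₀ hW] at hn
    have h1 := dtail W (432 * Z₁) hW1 (by positivity) n X (by linarith) hn
      (T.image phi) (by
      intro e he
      rw [mem_image] at he
      obtain ⟨q, hq, rfl⟩ := he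
      obtain ⟨k1, k2, k4, k3⟩ := hTm q hq
      obtain ⟨m1, m2⟩ := (ht_le_iff q hX hX6).mp k3
      refine ⟨?_, m1, m2, ?_, ?_⟩
      · intro h0
        have h5 : q.1 = 0 := by
          unfold phi at h0
          simp only at h0
          omega
        have h6 : ht q = |(((4 * q.1 ^ 3 + 27 * q.2 ^ 2 : ℤ)) : ℝ)| := by
          unfold ht
          rw [h5]
          push_cast
          have h7 : 4 * (0 : ℝ) ^ 3 ≤ 27 * (q.2 : ℝ) ^ 2 := by
            have : 0 ≤ 27 * (q.2 : ℝ) ^ 2 := by positivity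
            linarith
          rw [abs_zero, max_eq_right h7, abs_of_nonneg (by positivity)]
          ring
        rw [← h6] at k2
        nlinarith
      · by_contra hcon
        rw [not_or, not_lt, not_lt] at hcon
        obtain ⟨c1, c2⟩ := hcon
        have h5 : ht q ≤ K * Z₁ := by
          rw [ht_le_iff q hW hW6]
          constructor
          · rw [← pow_le_pow_iff_left₀ (abs_nonneg _) (by positivity) (three_ne_zero)]
            calc _ ≤ W ^ 6 := c1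
              _ = _ := by ring
          · rw [← pow_le_pow_iff_left₀ (abs_nonneg _) (by positivity) (two_ne_zero), sq_abs]
            calc _ ≤ W ^ 6 := c2
              _ = _ := by ring
        linarith
      · have h5 : ((phi q).1 : ℝ) ^ 3 - ((phi q).2 : ℝ) ^ 2 =
            -432 * (((4 * q.1 ^ 3 + 27 * q.2 ^ 2 : ℤ)) : ℝ) := by
          have := phi_disc q
          exact_mod_cast this
        rw [h5, abs_mul]
        norm_num
        exact_mod_cast k2)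
    rw [card_image_of_injective _ phi_inj] at h1
    have e1 : Z₁ / W ≤ K ^ (-(1 / 6) : ℝ) * Z₁ ^ (5 / 6 : ℝ) := by
      rw [div_le_iff₀ hW]
      have h2 : K ^ (1 / 6 : ℝ) * Z₁ ^ (1 / 6 : ℝ) ≤ W := by
        have h3 : W = (432 * (K * Z₁)) ^ (1 / 6 : ℝ) := by
          rw [← hW6, ← Real.rpow_natCast, ← Real.rpow_mul hW.le]
          norm_num
        rw [h3, ← Real.mul_rpow hK0.le hZ₁0.le]
        apply Real.rpow_le_rpow (by positivity) _ (by norm_num)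
        nlinarith [mul_pos hK0 hZ₁0]
      calc Z₁ = K ^ (-(1 / 6) : ℝ) * Z₁ ^ (5 / 6 : ℝ) * (K ^ (1 / 6 : ℝ) * Z₁ ^ (1 / 6 : ℝ)) := by
            have e3 : K ^ (-(1 / 6) : ℝ) * K ^ (1 / 6 : ℝ) = 1 := by
              rw [← Real.rpow_add hK0]
              norm_num
            have e4 : Z₁ ^ (5 / 6 : ℝ) * Z₁ ^ (1 / 6 : ℝ) = Z₁ := by
              rw [← Real.rpow_add hZ₁0]
              norm_num
            calc Z₁ = 1 * Z₁ := (one_mul _).symm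
              _ = (K ^ (-(1 / 6) : ℝ) * K ^ (1 / 6 : ℝ)) * (Z₁ ^ (5 / 6 : ℝ) * Z₁ ^ (1 / 6 : ℝ)) := by
                rw [e3, e4]
              _ = _ := by ring
        _ ≤ K ^ (-(1 / 6) : ℝ) * Z₁ ^ (5 / 6 : ℝ) * W := by gcongr
    have e2 : X ^ 2 ≤ 432 * Z₁ ^ (5 / 6 - δ : ℝ) := by
      have h3 : X ^ 2 = (432 * Z₁ ^ β) ^ (1 / 3 : ℝ) := by
        rw [← hX6, ← Real.rpow_natCast X 6, ← Real.rpow_mul hX.le, ← Real.rpow_natCast]
        norm_num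
      rw [h3, Real.mul_rpow (by norm_num) (by positivity), ← Real.rpow_mul hZ₁0.le]
      have h4 : (432 : ℝ) ^ (1 / 3 : ℝ) ≤ 432 := by
        calc (432 : ℝ) ^ (1 / 3 : ℝ) ≤ 432 ^ (1 : ℝ) :=
              Real.rpow_le_rpow_of_exponent_le (by norm_num) (by norm_num)
          _ = 432 := Real.rpow_one _
      have h5 : Z₁ ^ (β * (1 / 3)) ≤ Z₁ ^ (5 / 6 - δ : ℝ) :=
        Real.rpow_le_rpow_of_exponent_le hZ₁1 (by rw [hδ]; linarith)
      gcongr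
    have hX0 : 0 < 1 / X := by positivity
    calc (T.card : ℝ)
        ≤ 4096 * (432 * Z₁) * (2 / W - 1 / X) + 16 * X ^ 2 := h1
      _ ≤ 4096 * (432 * Z₁) * (2 / W) + 16 * X ^ 2 := by
          gcongr
          linarith
      _ = 8192 * 432 * (Z₁ / W) + 16 * X ^ 2 := by ring
      _ ≤ 8192 * 432 * (K ^ (-(1 / 6) : ℝ) * Z₁ ^ (5 / 6 : ℝ)) +
          16 * (432 * Z₁ ^ (5 / 6 - δ : ℝ)) := by gcongr
      _ = _ := by ring
  have hKp : 0 < K ^ (-(1 / 6) : ℝ) := by positivity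
  have hZp : 0 < Z ^ (5 / 6 : ℝ) := by positivity
  have hZq : 0 < Z ^ (5 / 6 - δ : ℝ) := by positivity
  calc ((Upto I β Z ∩ S).ncard : ℝ) ≤ ((BH (K * (m * Z)) ∩ S).ncard : ℝ) + (U.ncard : ℝ) := by
        exact_mod_cast h1
    _ ≤ ((BH (K * (m * Z)) ∩ S).ncard : ℝ) + (8192 * 432 * (K ^ (-(1 / 6) : ℝ) *
        (m * Z ^ (5 / 6 : ℝ))) + 16 * 432 * (m * Z ^ (5 / 6 - δ : ℝ))) := by
        refine add_le_add_right (b2.trans ?_) _
        gcongr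
    _ ≤ ((BH (K * (m * Z)) ∩ S).ncard : ℝ) + (8192 * 432 + 16 * 432) * m *
        (K ^ (-(1 / 6) : ℝ) * Z ^ (5 / 6 : ℝ) + Z ^ (5 / 6 - δ : ℝ)) := by
        refine add_le_add_right ?_ _
        have k1 : 0 < m * (K ^ (-(1 / 6) : ℝ) * Z ^ (5 / 6 : ℝ)) := by positivity
        have k2 : 0 < m * Z ^ (5 / 6 - δ : ℝ) := by positivity
        nlinarith

/-- the exceptional curves by height -/
theorem bad_zero (δ : ℝ) (h0 : 0 < δ) (h11 : 11 * δ < 1) :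
    Tendsto (fun Y : ℝ => ((BH Y ∩ {q | Bad δ q}).ncard : ℝ) / Y ^ (5 / 6 : ℝ)) atTop (𝓝 0) := by
  rw [Metric.tendsto_atTop]
  intro ε hε
  obtain ⟨T₀, hT₀⟩ := Pool.Agent.W275.FML.thm_T3 δ (ε / 64) h0 h11 (by positivity)
  refine ⟨max ((T₀ : ℝ) ^ 6) 1, fun Y hY => ?_⟩
  have hY1 : 1 ≤ Y := (le_max_right _ _).trans hY
  have hY0 : 0 < Y := by linarith
  have hYT : (T₀ : ℝ) ^ 6 ≤ Y := (le_max_left _ _).trans hY
  obtain ⟨y, hy⟩ : ∃ y : ℝ, y = Y ^ (1 / 6 : ℝ) := ⟨_, rfl⟩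
  have hy0 : 0 < y := by rw [hy]; positivity
  have hy6 : y ^ 6 = Y := by
    rw [hy, ← Real.rpow_natCast, ← Real.rpow_mul hY0.le]
    norm_num
  have hy5 : y ^ 5 = Y ^ (5 / 6 : ℝ) := by
    rw [hy, ← Real.rpow_natCast, ← Real.rpow_mul hY0.le]
    norm_num
  have hy1 : 1 ≤ y := by
    by_contra hcon
    push Not at hcon
    have : y ^ 6 < 1 := pow_lt_one₀ hy0.le hcon (by norm_num)
    linarith
  have hyT : (T₀ : ℝ) ≤ y := by
    refine (pow_le_pow_iff_left₀ (by positivity) hy0.le (by norm_num : (6 : ℕ) ≠ 0)).1 ?_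
    rw [hy6]
    exact hYT
  obtain ⟨T, hT⟩ : ∃ T : ℕ, T = ⌈y⌉₊ := ⟨_, rfl⟩
  have hT1 : y ≤ (T : ℝ) := by rw [hT]; exact Nat.le_ceil _
  have hT2 : (T : ℝ) ≤ 2 * y := by
    have := Nat.ceil_lt_add_one (a := y) hy0.le
    rw [hT]
    linarith
  have hTT : T₀ ≤ T := by
    have : (T₀ : ℝ) ≤ T := by linarith
    exact_mod_cast this
  have h1 := hT₀ T hTT
  have h2 : ((BH Y ∩ {q | Bad δ q}).ncard : ℝ) ≤ ε / 64 * (T : ℝ) ^ 5 := by
    refine le_trans ?_ h1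
    refine Nat.cast_le.2 (Set.ncard_le_ncard ?_ ((Pool.Agent.W275.FM.Bx_finite T).subset
      fun p hp => hp.1))
    rintro q ⟨⟨k1, k2⟩, k3⟩
    unfold ht at k2
    rw [max_le_iff] at k2
    obtain ⟨k4, k5⟩ := k2
    refine ⟨⟨?_, ?_⟩, k1.1, k3⟩
    · show |q.1| ≤ (T : ℤ) ^ 2
      have h4 : |(q.1 : ℝ)| ≤ (T : ℝ) ^ 2 := by
        have h5 : |(q.1 : ℝ)| ^ 3 ≤ ((T : ℝ) ^ 2) ^ 3 := by
          calc |(q.1 : ℝ)| ^ 3 ≤ 4 * |(q.1 : ℝ)| ^ 3 := by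
                have : 0 ≤ |(q.1 : ℝ)| ^ 3 := by positivity
                linarith
            _ ≤ Y := k4
            _ = y ^ 6 := hy6.symm
            _ ≤ (T : ℝ) ^ 6 := by gcongr
            _ = _ := by ring
        exact (pow_le_pow_iff_left₀ (abs_nonneg _) (by positivity) three_ne_zero).1 h5
      exact_mod_cast h4
    · show |q.2| ≤ (T : ℤ) ^ 3
      have h4 : |(q.2 : ℝ)| ≤ (T : ℝ) ^ 3 := by
        have h5 : |(q.2 : ℝ)| ^ 2 ≤ ((T : ℝ) ^ 3) ^ 2 := by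
          rw [sq_abs]
          calc (q.2 : ℝ) ^ 2 ≤ 27 * (q.2 : ℝ) ^ 2 := by
                have : 0 ≤ (q.2 : ℝ) ^ 2 := by positivity
                linarith
            _ ≤ Y := k5
            _ = y ^ 6 := hy6.symm
            _ ≤ (T : ℝ) ^ 6 := by gcongr
            _ = _ := by ring
        exact (pow_le_pow_iff_left₀ (abs_nonneg _) (by positivity) two_ne_zero).1 h5
      exact_mod_cast h4
  have hYp : 0 < Y ^ (5 / 6 : ℝ) := by positivity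
  rw [Real.dist_eq, sub_zero, abs_of_nonneg (by positivity), div_lt_iff₀ hYp]
  calc ((BH Y ∩ {q | Bad δ q}).ncard : ℝ) ≤ ε / 64 * (T : ℝ) ^ 5 := h2
    _ ≤ ε / 64 * (2 * y) ^ 5 := by gcongr
    _ = ε / 2 * y ^ 5 := by ring
    _ = ε / 2 * Y ^ (5 / 6 : ℝ) := by rw [hy5]
    _ < ε * Y ^ (5 / 6 : ℝ) := by gcongr; linarith

/-- proportions tend to one -/
theorem one_of_zero {I : ℤ × ℤ → ℝ} {β : ℝ} {S : Set (ℤ × ℤ)} (hpos : ∀ᶠ Z : ℝ in atTop, 0 <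
    (Upto I β Z).ncard)
    (h : Tendsto (fun Z : ℝ => ((Upto I β Z ∩ Sᶜ).ncard : ℝ) / ((Upto I β Z).ncard : ℝ)) atTop
      (𝓝 0)) :
    Tendsto (fun Z : ℝ => ((Upto I β Z ∩ S).ncard : ℝ) / ((Upto I β Z).ncard : ℝ)) atTop (𝓝 1) := by
  have h1 := h.const_sub 1
  rw [sub_zero] at h1
  refine h1.congr' ?_
  filter_upwards [hpos] with Z hZ
  have h0 : ((Upto I β Z).ncard : ℝ) ≠ 0 := by exact_mod_cast hZ.ne'
  have h2 : (Upto I β Z ∩ S).ncard + (Upto I β Z ∩ Sᶜ).ncard = (Upto I β Z).ncard := by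
    rw [← Set.ncard_union_eq ?_ ((Upto_fin I β Z).inter_of_left _) ((Upto_fin I β Z).inter_of_left _)]
    · rw [← Set.inter_union_distrib_left, Set.union_compl_self, Set.inter_univ]
    · exact Set.disjoint_left.mpr fun x hx hx' => hx'.2 hx.2
  have h3 : ((Upto I β Z ∩ S).ncard : ℝ) + ((Upto I β Z ∩ Sᶜ).ncard : ℝ) =
      ((Upto I β Z).ncard : ℝ) := by exact_mod_cast h2
  rw [← h3] at h0 ⊢
  field_simp
  ring

end Pool.Agent.L0h45.AD
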