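import Mathlib
import Pool.Agent.N783.PF.Final
import Pool.Agent.L0h45.AD.Low

/-!
# A positive proportion of the curves over `ℚ` has finitely many points: integral coordinates
-/

set_option autoImplicit false
set_option linter.all false

namespace Pool.Agent.L0h45.AD

open NumberField Filter
open scoped Classical

/-- the group of the rational points of `y² = x³ + A x + B` -/
abbrev pts (q : ℤ × ℤ) : Type :=
  (⟨0, 0, 0, (q.1 : ℚ), (q.2 : ℚ)⟩ : WeierstrassCurve ℚ).toAffine.Point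

/-- from integers to integers of `ℚ` -/
noncomputable def toO (q : ℤ × ℤ) : 𝓞 ℚ × 𝓞 ℚ := ((q.1 : 𝓞 ℚ), (q.2 : 𝓞 ℚ))

theorem castO (n : ℤ) : (((n : 𝓞 ℚ)) : ℚ) = (n : ℚ) := by
  simp

theorem toO_inj : Function.Injective toO := by
  intro q q' h
  unfold toO at h
  rw [Prod.mk.injEq] at h
  exact Prod.ext (by exact_mod_cast h.1) (by exact_mod_cast h.2)

theorem toO_surj : Function.Surjective toO := by
  intro p
  refine ⟨(Rat.ringOfIntegersEquiv p.1, Rat.ringOfIntegersEquiv p.2), ?_⟩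
  unfold toO
  apply Prod.ext
  · apply Rat.ringOfIntegersEquiv.injective
    simp
  · apply Rat.ringOfIntegersEquiv.injective
    simp

theorem crv_iff (Y : ℝ) (q : ℤ × ℤ) : Pool.Agent.N783.PF.Crv (F := ℚ) Y (toO q) ↔ q ∈ BH Y := by
  have hσ : ∀ (σ : ℚ →+* ℂ) (n : ℤ), ‖σ (((n : 𝓞 ℚ)) : ℚ)‖ = |(n : ℝ)| := by
    intro σ n
    rw [castO, map_intCast]
    simp
  constructor
  · rintro ⟨h1, h2, h3⟩
    refine ⟨⟨?_, ?_⟩, ?_⟩
    · intro h
      apply h1
      unfold toO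
      simp only
      exact_mod_cast congrArg (Int.cast : ℤ → 𝓞 ℚ) h
    · rintro p hp ⟨⟨k, hk⟩, ⟨l, hl⟩⟩
      have hpr : (Ideal.span {(p : ℤ)}).IsPrime := by
        rw [Ideal.span_singleton_prime (by exact_mod_cast hp.ne_zero)]
        exact Nat.prime_iff_prime_int.mp hp
      refine h2 ((Ideal.span {(p : ℤ)}).comap (Rat.ringOfIntegersEquiv : 𝓞 ℚ →+* ℤ))
        (Ideal.comap_isPrime _ _) ?_ ?_
      · intro h
        have h4 : (p : 𝓞 ℚ) ∈ (Ideal.span {(p : ℤ)}).comap (Rat.ringOfIntegersEquiv : 𝓞 ℚ →+* ℤ) := by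
          rw [Ideal.mem_comap]
          simp only [map_natCast]
          exact Ideal.mem_span_singleton_self _
        rw [h, Ideal.mem_bot] at h4
        exact hp.ne_zero (by exact_mod_cast h4)
      · have h4 : (p : 𝓞 ℚ) ∈ (Ideal.span {(p : ℤ)}).comap (Rat.ringOfIntegersEquiv : 𝓞 ℚ →+* ℤ) := by
          rw [Ideal.mem_comap]
          simp only [map_natCast]
          exact Ideal.mem_span_singleton_self _
        unfold toO
        simp only
        constructor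
        · have h5 := Ideal.mul_mem_right (k : 𝓞 ℚ) _ (Ideal.pow_mem_pow h4 4)
          have h6 : ((q.1 : ℤ) : 𝓞 ℚ) = (p : 𝓞 ℚ) ^ 4 * (k : 𝓞 ℚ) := by
            rw [hk]
            push_cast
            rfl
          rw [h6]
          exact h5
        · have h5 := Ideal.mul_mem_right (l : 𝓞 ℚ) _ (Ideal.pow_mem_pow h4 6)
          have h6 : ((q.2 : ℤ) : 𝓞 ℚ) = (p : 𝓞 ℚ) ^ 6 * (l : 𝓞 ℚ) := by
            rw [hl]
            push_cast
            rfl
          rw [h6]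
          exact h5
    · obtain ⟨k1, k2⟩ := h3 (algebraMap ℚ ℂ)
      unfold toO at k1 k2
      simp only at k1 k2
      rw [hσ] at k1 k2
      unfold ht
      rw [sq_abs] at k2
      exact max_le k1 k2
  · rintro ⟨⟨h1, h2⟩, h3⟩
    refine ⟨?_, ?_, ?_⟩
    · intro h
      apply h1
      unfold toO at h
      simp only at h
      exact_mod_cast h
    · rintro 𝔭 h𝔭 hne ⟨m1, m2⟩
      set 𝔮 : Ideal ℤ := 𝔭.map (Rat.ringOfIntegersEquiv : 𝓞 ℚ →+* ℤ) with h𝔮
      have h𝔮p : 𝔮.IsPrime := Ideal.map_isPrime_of_equiv Rat.ringOfIntegersEquiv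
      have h𝔮0 : 𝔮 ≠ ⊥ := by
        intro h
        apply hne
        have hi : Function.Injective (Rat.ringOfIntegersEquiv : 𝓞 ℚ →+* ℤ) :=
          Rat.ringOfIntegersEquiv.injective
        exact (Ideal.map_eq_bot_iff_of_injective hi).mp h
      obtain ⟨m, hm⟩ : ∃ m : ℤ, 𝔮 = Ideal.span {m} := ⟨_, (Ideal.span_singleton_generator 𝔮).symm⟩
      have hm0 : m ≠ 0 := by
        rintro rfl
        apply h𝔮0
        rw [hm]
        simp
      have hmp : Prime m := by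
        rw [hm, Ideal.span_singleton_prime hm0] at h𝔮p
        exact h𝔮p
      have hmem : ∀ (n : ℤ) (k : ℕ), (n : 𝓞 ℚ) ∈ 𝔭 ^ k → m ^ k ∣ n := by
        intro n k hn
        have h4 := Ideal.mem_map_of_mem (Rat.ringOfIntegersEquiv : 𝓞 ℚ →+* ℤ) hn
        rw [Ideal.map_pow, ← h𝔮, hm, Ideal.span_singleton_pow, Ideal.mem_span_singleton] at h4
        simpa using h4
      apply h2 m.natAbs (Int.prime_iff_natAbs_prime.mp hmp)
      unfold toO at m1 m2
      simp only at m1 m2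
      have h5 := hmem _ _ m1
      have h6 := hmem _ _ m2
      constructor
      · rw [Int.natCast_natAbs, Even.pow_abs (by decide)]
        exact h5
      · rw [Int.natCast_natAbs, Even.pow_abs (by decide)]
        exact h6
    · intro σ
      unfold toO
      simp only
      rw [hσ, hσ, sq_abs]
      unfold ht at h3
      exact max_le_iff.mp h3

/-- many curves of bounded height have finitely many points, an odd number -/
theorem rank_zero_low : ∃ c₀ : ℝ, 0 < c₀ ∧ ∀ᶠ Y : ℝ in atTop, c₀ * Y ^ (5 / 6 : ℝ) ≤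
    ((BH Y ∩ {q | Finite (pts q) ∧ Odd (Nat.card (pts q))}).ncard : ℝ) := by
  obtain ⟨c, hc, Y₀, h⟩ := Pool.Agent.N783.PF.fin1 ℚ
  obtain ⟨c₁, hc₁, hlow⟩ := card_BH_low
  refine ⟨c * c₁, by positivity, ?_⟩
  filter_upwards [eventually_ge_atTop Y₀, eventually_ge_atTop 1000] with Y hY hY2
  obtain ⟨-, h2⟩ := h Y
  obtain ⟨-, h3⟩ := h2 hY
  have e1 : {p : 𝓞 ℚ × 𝓞 ℚ | Pool.Agent.N783.PF.Crv Y p} = toO '' (BH Y) := by
    ext p
    obtain ⟨q, rfl⟩ := toO_surj p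
    rw [Set.mem_ofPred_eq, crv_iff, toO_inj.mem_set_image]
  have e2 : {p : 𝓞 ℚ × 𝓞 ℚ | Pool.Agent.N783.PF.Crv Y p ∧ Pool.Agent.N783.PF.Good p} ⊆
      toO '' (BH Y ∩ {q | Finite (pts q) ∧ Odd (Nat.card (pts q))}) := by
    rintro p ⟨h4, h5⟩
    obtain ⟨q, rfl⟩ := toO_surj p
    rw [toO_inj.mem_set_image]
    refine ⟨(crv_iff Y q).mp h4, ?_⟩
    have e3 : (⟨0, 0, 0, (((toO q).1 : 𝓞 ℚ) : ℚ), (((toO q).2 : 𝓞 ℚ) : ℚ)⟩ : WeierstrassCurve ℚ) =
        ⟨0, 0, 0, (q.1 : ℚ), (q.2 : ℚ)⟩ := by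
      unfold toO
      simp
    have f1 : Finite (⟨0, 0, 0, (((toO q).1 : 𝓞 ℚ) : ℚ), (((toO q).2 : 𝓞 ℚ) : ℚ)⟩ :
        WeierstrassCurve ℚ).toAffine.Point := h5.fin
    have f2 : Odd (Nat.card (⟨0, 0, 0, (((toO q).1 : 𝓞 ℚ) : ℚ), (((toO q).2 : 𝓞 ℚ) : ℚ)⟩ :
        WeierstrassCurve ℚ).toAffine.Point) := h5.odd
    rw [e3] at f1 f2
    exact ⟨f1, f2⟩
  have hfin : (BH Y ∩ {q | Finite (pts q) ∧ Odd (Nat.card (pts q))}).Finite :=
    (BH_fin Y).inter_of_left _
  have h4 := Set.ncard_le_ncard e2 (hfin.image toO)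
  rw [Set.ncard_image_of_injective _ toO_inj] at h4
  rw [e1, Set.ncard_image_of_injective _ toO_inj] at h3
  calc c * c₁ * Y ^ (5 / 6 : ℝ) = c * (c₁ * Y ^ (5 / 6 : ℝ)) := by ring
    _ ≤ c * ((BH Y).ncard : ℝ) := by
        have := hlow Y hY2
        gcongr
    _ ≤ _ := h3
    _ ≤ _ := by exact_mod_cast h4

end Pool.Agent.L0h45.AD
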