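import Mathlib
import Pool.Agent.L0h45.AD.FMB

/-!
# The number of the curves in a shell
-/

set_option autoImplicit false

open Finset
open scoped Classical

namespace Pool.Agent.L0h45.AD

/-- the number of the curves of height between `K Z` and `64 K Z` -/
def Shl (s τ : ℝ) (I : ℤ × ℤ → ℝ) : Prop :=
  ∃ C m : ℝ, 0 < C ∧ 1 ≤ m ∧ ∀ K Z : ℝ, m ≤ K → 1 ≤ Z → ∀ T : Finset (ℤ × ℤ),
    (∀ q ∈ T, q ∈ Fam ∧ I q ≤ Z ∧ K * Z < ht q ∧ ht q ≤ 64 * (K * Z)) →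
    (T.card : ℝ) ≤ C * (K ^ (-s) * Z ^ (5 / 6 : ℝ) + (K * Z) ^ τ)

theorem shl_cond {s τ c : ℝ} (hs : 0 < s) (hs6 : s < 1 / 6) (hτ : 7 / 12 < τ) (hc : 0 < c)
    {I : ℤ × ℤ → ℝ} (hI : ∀ q ∈ Fam, c * (cnd q : ℝ) ≤ I q) : Shl s τ I := by
  obtain ⟨η, hη⟩ : ∃ η : ℝ, η = (1 / 6 - s) / 2 := ⟨_, rfl⟩
  have hη0 : 0 < η := by rw [hη]; linarith
  have hη1 : η < 1 / 12 := by rw [hη]; linarith
  obtain ⟨ε, hε⟩ : ∃ ε : ℝ, ε = 6 * (τ - 7 / 12) := ⟨_, rfl⟩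
  have hε0 : 0 < ε := by rw [hε]; linarith
  obtain ⟨C₁, hC₁, H⟩ := shell η ε hη0 (by linarith) hε0
  obtain ⟨m, hm⟩ : ∃ m : ℝ, m = max 1 (1 / c) := ⟨_, rfl⟩
  have hm1 : 1 ≤ m := by rw [hm]; exact le_max_left _ _
  have hm0 : 0 < m := by linarith
  have hmc : 1 ≤ m * c := by
    have h1 : 1 / c ≤ m := by rw [hm]; exact le_max_right _ _
    rw [div_le_iff₀ hc] at h1
    exact h1
  refine ⟨C₁ * (m + (432 * 64 : ℝ) ^ τ), m, by positivity, hm1, ?_⟩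
  intro K Z hK hZ T hT
  have hZ0 : 0 < Z := by linarith
  have hK1 : 1 ≤ K := hm1.trans hK
  have hK0 : 0 < K := by linarith
  obtain ⟨X, hX, hX6⟩ := exists_root6 (show 0 < 64 * (K * Z) by positivity)
  have hKZ : 1 ≤ K * Z := by nlinarith
  have hX1 : 1 ≤ X := by
    by_contra hcon
    push Not at hcon
    have : X ^ 6 < 1 := pow_lt_one₀ hX.le hcon (by norm_num)
    linarith
  have h1 := H X (m * Z) hX1 (by positivity) (T.image phi) (by
    intro e he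
    rw [mem_image] at he
    obtain ⟨q, hq, rfl⟩ := he
    obtain ⟨k1, k2, k3, k4⟩ := hT q hq
    obtain ⟨m1, m2⟩ := (ht_le_iff q hX hX6).mp k4
    refine ⟨phi_min k1, ?_, m1, m2, ?_, ?_⟩
    · rw [phi_disc]
      exact mul_ne_zero (by norm_num) k1.1
    · have e1 : X ^ 6 / 64 = 432 * (K * Z) := by rw [hX6]; ring
      rw [e1, phi_ht1, phi_ht2]
      unfold ht at k3
      rw [lt_max_iff] at k3
      rcases k3 with k3 | k3
      · left; linarith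
      · right; linarith
    · rw [phi_cond k1.1]
      have h6 := (hI q k1).trans k2
      have h7 : (0 : ℝ) ≤ (cnd q : ℝ) := Nat.cast_nonneg _
      calc (cnd q : ℝ) ≤ (m * c) * (cnd q : ℝ) := by nlinarith
        _ = m * (c * (cnd q : ℝ)) := by ring
        _ ≤ m * Z := by gcongr)
  rw [card_image_of_injective _ phi_inj] at h1
  have hX6' : X = (432 * 64 * (K * Z)) ^ (1 / 6 : ℝ) := by
    have e1 : 432 * 64 * (K * Z) = X ^ 6 := by rw [hX6]; ring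
    rw [e1, ← Real.rpow_natCast X 6, ← Real.rpow_mul hX.le]
    norm_num
  have e1 : X ^ (12 * η - 1) ≤ (K * Z) ^ (-s) := by
    rw [hX6', ← Real.rpow_mul (by positivity)]
    have e2 : 1 / 6 * (12 * η - 1) = -s := by rw [hη]; ring
    rw [e2]
    exact Real.rpow_le_rpow_of_nonpos (by positivity) (by nlinarith) (by linarith)
  have e3 : (m * Z) ^ (1 - 2 * η) * (K * Z) ^ (-s) ≤ m * (K ^ (-s) * Z ^ (5 / 6 : ℝ)) := by
    rw [Real.mul_rpow hm0.le hZ0.le, Real.mul_rpow hK0.le hZ0.le]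
    have e4 : m ^ (1 - 2 * η) ≤ m := by
      calc m ^ (1 - 2 * η) ≤ m ^ (1 : ℝ) := Real.rpow_le_rpow_of_exponent_le hm1 (by linarith)
        _ = m := Real.rpow_one m
    calc m ^ (1 - 2 * η) * Z ^ (1 - 2 * η) * (K ^ (-s) * Z ^ (-s)) =
          m ^ (1 - 2 * η) * (K ^ (-s) * (Z ^ (1 - 2 * η) * Z ^ (-s))) := by ring
      _ = m ^ (1 - 2 * η) * (K ^ (-s) * Z ^ (5 / 6 : ℝ)) := by
          rw [← Real.rpow_add hZ0]
          congr 3
          rw [hη]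
          ring
      _ ≤ m * (K ^ (-s) * Z ^ (5 / 6 : ℝ)) := by gcongr
  have e5 : X ^ (7 / 2 + ε) = (432 * 64 : ℝ) ^ τ * (K * Z) ^ τ := by
    rw [hX6', ← Real.rpow_mul (by positivity), ← Real.mul_rpow (by norm_num) (by positivity)]
    congr 1
    rw [hε]
    ring
  have p1 : 0 ≤ K ^ (-s) * Z ^ (5 / 6 : ℝ) := by positivity
  have p2 : 0 ≤ (K * Z) ^ τ := by positivity
  have p3 : (0 : ℝ) < (432 * 64 : ℝ) ^ τ := by positivity
  calc (T.card : ℝ) ≤ C₁ * ((m * Z) ^ (1 - 2 * η) * X ^ (12 * η - 1) + X ^ (7 / 2 + ε)) := h1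
    _ ≤ C₁ * (m * (K ^ (-s) * Z ^ (5 / 6 : ℝ)) + (432 * 64 : ℝ) ^ τ * (K * Z) ^ τ) := by
        rw [e5]
        have e6 : (m * Z) ^ (1 - 2 * η) * X ^ (12 * η - 1) ≤ m * (K ^ (-s) * Z ^ (5 / 6 : ℝ)) := by
          refine le_trans ?_ e3
          gcongr
        exact mul_le_mul_of_nonneg_left (by linarith) hC₁.le
    _ ≤ C₁ * (m + (432 * 64 : ℝ) ^ τ) * (K ^ (-s) * Z ^ (5 / 6 : ℝ) + (K * Z) ^ τ) := by
        have q1 := mul_nonneg p3.le p1
        have q2 := mul_nonneg hm0.le p2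
        have q3 := mul_nonneg hC₁.le q1
        have q4 := mul_nonneg hC₁.le q2
        nlinarith

theorem shl_disc {c : ℝ} (hc : 0 < c) {I : ℤ × ℤ → ℝ}
    (hI : ∀ q ∈ Fam, c * |(((4 * q.1 ^ 3 + 27 * q.2 ^ 2 : ℤ)) : ℝ)| ≤ I q) : Shl (1 / 6) (1 / 3) I := by
  obtain ⟨m, hm⟩ : ∃ m : ℝ, m = max 1 (1 / c) := ⟨_, rfl⟩
  have hm1 : 1 ≤ m := by rw [hm]; exact le_max_left _ _
  have hm0 : 0 < m := by linarith
  have hmc : 1 ≤ m * c := by
    have h1 : 1 / c ≤ m := by rw [hm]; exact le_max_right _ _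
    rw [div_le_iff₀ hc] at h1
    exact h1
  refine ⟨8192 * 432 * m + 64 * 432, m, by positivity, hm1, ?_⟩
  intro K Z hK hZ T hT
  have hZ0 : 0 < Z := by linarith
  have hK1 : 1 ≤ K := hm1.trans hK
  have hK0 : 0 < K := by linarith
  have hKZ : 1 ≤ K * Z := by nlinarith
  obtain ⟨W, hW, hW6⟩ := exists_root6 (show 0 < K * Z by positivity)
  have hW1 : 1 ≤ W := by
    by_contra hcon
    push Not at hcon
    have : W ^ 6 < 1 := pow_lt_one₀ hW.le hcon (by norm_num)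
    nlinarith
  have hX6 : (2 * W) ^ 6 = 432 * (64 * (K * Z)) := by
    rw [mul_pow, hW6]
    ring
  have h1 := dtail W (432 * (m * Z)) hW1 (by positivity) 1 (2 * W) (by linarith) (by linarith)
    (T.image phi) (by
    intro e he
    rw [mem_image] at he
    obtain ⟨q, hq, rfl⟩ := he
    obtain ⟨k1, k2', k4, k3⟩ := hT q hq
    have k2 : |(((4 * q.1 ^ 3 + 27 * q.2 ^ 2 : ℤ)) : ℝ)| ≤ m * Z := by
      have h6 := (hI q k1).trans k2'
      have h7 : 0 ≤ |(((4 * q.1 ^ 3 + 27 * q.2 ^ 2 : ℤ)) : ℝ)| := abs_nonneg _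
      calc |(((4 * q.1 ^ 3 + 27 * q.2 ^ 2 : ℤ)) : ℝ)|
          ≤ (m * c) * |(((4 * q.1 ^ 3 + 27 * q.2 ^ 2 : ℤ)) : ℝ)| := by nlinarith
        _ = m * (c * |(((4 * q.1 ^ 3 + 27 * q.2 ^ 2 : ℤ)) : ℝ)|) := by ring
        _ ≤ m * Z := by gcongr
    obtain ⟨m1, m2⟩ := (ht_le_iff q (by positivity) hX6).mp k3
    refine ⟨?_, m1, m2, ?_, ?_⟩
    · intro h0
      have h5 : q.1 = 0 := by
        unfold phi at h0
        simp only at h0
        omega
      have h6 : ht q = |(((4 * q.1 ^ 3 + 27 * q.2 ^ 2 : ℤ)) : ℝ)| := by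
        unfold ht
        rw [h5]
        push_cast
        have h7 : 4 * (0 : ℝ) ^ 3 ≤ 27 * (q.2 : ℝ) ^ 2 := by
          have : 0 ≤ 27 * (q.2 : ℝ) ^ 2 := by positivity
          linarith
        rw [abs_zero, max_eq_right h7, abs_of_nonneg (by positivity)]
        ring
      rw [← h6] at k2
      have h8 : m * Z ≤ K * Z := by gcongr
      linarith
    · by_contra hcon
      rw [not_or, not_lt, not_lt] at hcon
      obtain ⟨c1, c2⟩ := hcon
      have h5 : ht q ≤ K * Z := by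
        rw [ht_le_iff q hW hW6]
        constructor
        · rw [← pow_le_pow_iff_left₀ (abs_nonneg _) (by positivity) (three_ne_zero)]
          calc _ ≤ W ^ 6 := c1
            _ = _ := by ring
        · rw [← pow_le_pow_iff_left₀ (abs_nonneg _) (by positivity) (two_ne_zero), sq_abs]
          calc _ ≤ W ^ 6 := c2
            _ = _ := by ring
      linarith
    · have h5 : ((phi q).1 : ℝ) ^ 3 - ((phi q).2 : ℝ) ^ 2 =
          -432 * (((4 * q.1 ^ 3 + 27 * q.2 ^ 2 : ℤ)) : ℝ) := by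
        have := phi_disc q
        exact_mod_cast this
      rw [h5, abs_mul]
      norm_num
      exact_mod_cast k2)
  rw [card_image_of_injective _ phi_inj] at h1
  have hWr : W = (432 * (K * Z)) ^ (1 / 6 : ℝ) := by
    rw [← hW6, ← Real.rpow_natCast, ← Real.rpow_mul hW.le]
    norm_num
  have e1 : Z / W ≤ K ^ (-(1 / 6) : ℝ) * Z ^ (5 / 6 : ℝ) := by
    rw [div_le_iff₀ hW]
    have h2 : K ^ (1 / 6 : ℝ) * Z ^ (1 / 6 : ℝ) ≤ W := by
      rw [hWr, ← Real.mul_rpow hK0.le hZ0.le]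
      apply Real.rpow_le_rpow (by positivity) _ (by norm_num)
      nlinarith [mul_pos hK0 hZ0]
    calc Z = K ^ (-(1 / 6) : ℝ) * Z ^ (5 / 6 : ℝ) * (K ^ (1 / 6 : ℝ) * Z ^ (1 / 6 : ℝ)) := by
          have e3 : K ^ (-(1 / 6) : ℝ) * K ^ (1 / 6 : ℝ) = 1 := by
            rw [← Real.rpow_add hK0]
            norm_num
          have e4 : Z ^ (5 / 6 : ℝ) * Z ^ (1 / 6 : ℝ) = Z := by
            rw [← Real.rpow_add hZ0]
            norm_num
          calc Z = 1 * Z := (one_mul _).symm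
            _ = (K ^ (-(1 / 6) : ℝ) * K ^ (1 / 6 : ℝ)) * (Z ^ (5 / 6 : ℝ) * Z ^ (1 / 6 : ℝ)) := by
              rw [e3, e4]
            _ = _ := by ring
      _ ≤ K ^ (-(1 / 6) : ℝ) * Z ^ (5 / 6 : ℝ) * W := by gcongr
  have e2 : W ^ 2 ≤ 432 * (K * Z) ^ (1 / 3 : ℝ) := by
    have h3 : W ^ 2 = (432 * (K * Z)) ^ (1 / 3 : ℝ) := by
      rw [← hW6, ← Real.rpow_natCast W 6, ← Real.rpow_mul hW.le, ← Real.rpow_natCast]
      norm_num
    rw [h3, Real.mul_rpow (by norm_num) (by positivity)]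
    have h4 : (432 : ℝ) ^ (1 / 3 : ℝ) ≤ 432 := by
      calc (432 : ℝ) ^ (1 / 3 : ℝ) ≤ 432 ^ (1 : ℝ) :=
            Real.rpow_le_rpow_of_exponent_le (by norm_num) (by norm_num)
        _ = 432 := Real.rpow_one _
    gcongr
  have hX0 : 0 < 1 / (2 * W) := by positivity
  have p1 : 0 ≤ K ^ (-(1 / 6) : ℝ) * Z ^ (5 / 6 : ℝ) := by positivity
  have p2 : 0 ≤ (K * Z) ^ (1 / 3 : ℝ) := by positivity
  calc (T.card : ℝ)
      ≤ 4096 * (432 * (m * Z)) * (2 / W - 1 / (2 * W)) + 16 * (2 * W) ^ 2 := h1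
    _ ≤ 4096 * (432 * (m * Z)) * (2 / W) + 16 * (2 * W) ^ 2 := by
        gcongr
        linarith
    _ = 8192 * 432 * m * (Z / W) + 64 * W ^ 2 := by ring
    _ ≤ 8192 * 432 * m * (K ^ (-(1 / 6) : ℝ) * Z ^ (5 / 6 : ℝ)) +
        64 * (432 * (K * Z) ^ (1 / 3 : ℝ)) := by gcongr
    _ ≤ _ := by
        have q1 := mul_nonneg hm0.le p2
        nlinarith

end Pool.Agent.L0h45.AD
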